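import Pool.Agent.T2H65.GP.FC

/-!
# Extensions by graph products of finite groups and torsion-free groups
-/

set_option autoImplicit false

namespace Pool.Agent.T2H65.GP

open Pool.Agent.Y110.FJ Monoid
open Pool.Agent.R684.FP
open Pool.Agent.R941.FJ (C_equiv C_le C_cyc mem_sup_normal)
open Pool.Agent.Y529.FJ (up)

variable {C : ∀ (G : Type) [Group G], Prop}

/-- virtually cyclic groups -/
theorem C_fin_cyc (hC : ClosedE C) {G : Type} [Group G] {A : Subgroup G} (hA : Finite A) {g : G}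
    (hg : Nz g A) : C ↥(A ⊔ Subgroup.zpowers g) := by
  refine up hC.base (H := Subgroup.zpowers g) le_sup_right ?_ (C_cyc hC.base g)
  have h1 : ((Subgroup.zpowers g).subgroupOf (A ⊔ Subgroup.zpowers g)).FiniteIndex := by
    let T : Subgroup G := A ⊔ Subgroup.zpowers g
    let f : A → T ⧸ (Subgroup.zpowers g).subgroupOf T := fun a =>
      QuotientGroup.mk ⟨a.1, Subgroup.mem_sup_left a.2⟩
    have hf : Function.Surjective f := by
      intro y
      obtain ⟨⟨x, hx⟩, rfl⟩ := QuotientGroup.mk_surjective y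
      obtain ⟨a, ha, n, rfl⟩ := hg.mem_sup.1 hx
      refine ⟨⟨a, ha⟩, ?_⟩
      rw [QuotientGroup.eq, Subgroup.mem_subgroupOf]
      show a⁻¹ * (a * g ^ n) ∈ Subgroup.zpowers g
      rw [inv_mul_cancel_left]
      exact zpow_mem (Subgroup.mem_zpowers g) n
    have : Finite (T ⧸ (Subgroup.zpowers g).subgroupOf T) := Finite.of_surjective f hf
    exact Subgroup.finiteIndex_of_finite_quotient
  exact h1.index_ne_zero

/-- normality of the image of the kernel -/
theorem norm' {V : Type} (Λ : SimpleGraph V) (B : V → Type) [∀ v, Group (B v)] (S : V → Prop)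
    {G : Type} [Group G] (j : GrP Λ B →* G)
    (hv : ∀ v, S v → ∀ g : G, ∀ x, x ∈ Av Λ B j v → g * x * g⁻¹ ∈ (NCl Λ B S).map j) :
    ((NCl Λ B S).map j).Normal := by
  refine ⟨fun x hx g => ?_⟩
  obtain ⟨y, hy, rfl⟩ := hx
  have h1 : NCl Λ B S ≤
      (((NCl Λ B S).map j).comap (MulAut.conj g).toMonoidHom).comap j := by
    show Subgroup.closure (Group.conjugatesOfSet _) ≤ _
    rw [Subgroup.closure_le]
    intro z hz
    rw [Group.mem_conjugatesOfSet_iff] at hz
    obtain ⟨a, ⟨v, hS, ha⟩, hc⟩ := hz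
    rw [isConj_iff] at hc
    obtain ⟨c, rfl⟩ := hc
    show g * j (c * a * c⁻¹) * g⁻¹ ∈ (NCl Λ B S).map j
    have h2 := hv v hS (g * j c) (j a) ⟨a, ha, rfl⟩
    have h3 : g * j (c * a * c⁻¹) * g⁻¹ = g * j c * j a * (g * j c)⁻¹ := by
      rw [map_mul, map_mul, map_inv]
      group
    rw [h3]
    exact h2
  exact h1 hy

theorem main_tor_ext (hC : ClosedE C) (hF : FbC C) {V : Type} [Finite V] (Λ : SimpleGraph V)
    (B : V → Type) [∀ v, Group (B v)] (hB : ∀ v, Finite (B v) ∨ TF (B v)) {G : Type} [Group G]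
    (j : GrP Λ B →* G) (hj : Function.Injective j) (hN : j.range.Normal)
    (hQ : C (G ⧸ Subgroup.normalClosure {x : G | x ∈ j.range ∧ IsOfFinOrder x})) : C G := by
  obtain ⟨S, hS⟩ : ∃ S : V → Prop, S = fun v => Finite (B v) := ⟨_, rfl⟩
  have hSf : ∀ v, S v → Finite (B v) := fun v hv => by rw [hS] at hv; exact hv
  have hSt : ∀ v, ¬ S v → TF (B v) := fun v hv => by
    rw [hS] at hv
    exact (hB v).resolve_left hv
  have hAvf : ∀ v, S v → Finite (Av Λ B j v) := by
    intro v hv
    have := hSf v hv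
    have h1 : Finite (vg Λ B v) := Finite.of_surjective (GrP.of Λ B v).rangeRestrict
      (MonoidHom.rangeRestrict_surjective _)
    exact fin_map j h1
  -- the torsion elements
  have htor : ∀ x, x ∈ j.range → IsOfFinOrder x → x ∈ (NCl Λ B S).map j := by
    rintro _ ⟨y, rfl⟩ hy
    have h1 : IsOfFinOrder y := (hj.isOfFinOrder_iff).1 hy
    have h2 := tf (Nat.card {w // ¬ S w}) {w // ¬ S w}
      (Λ.comap (Subtype.val : {w // ¬ S w} → V)) (fun w : {w // ¬ S w} => B w.1) le_rfl
      (fun w => hSt w.1 w.2) _ (MonoidHom.isOfFinOrder (ret Λ B (fun w => ¬ S w)) h1)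
    refine ⟨y, ?_, rfl⟩
    have h3 : y ∈ (ret Λ B (fun w => ¬ S w)).ker := h2
    rw [ker_ret] at h3
    have h4 : (fun v => ¬ ¬ S v) = S := by
      funext v
      exact propext not_not
    rw [h4] at h3
    exact h3
  have hle : ∀ v, Av Λ B j v ≤ j.range := fun v => by
    rintro _ ⟨y, _, rfl⟩
    exact ⟨y, rfl⟩
  have hnor : ((NCl Λ B S).map j).Normal := by
    apply norm'
    intro v hv g x hx
    refine htor _ (hN.conj_mem x (hle v hx) g) ?_
    have h1 := hAvf v hv
    have h2 : IsOfFinOrder (⟨x, hx⟩ : Av Λ B j v) := isOfFinOrder_of_finite _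
    have h3 : IsOfFinOrder x := MonoidHom.isOfFinOrder (Av Λ B j v).subtype h2
    exact MonoidHom.isOfFinOrder (MulAut.conj g).toMonoidHom h3
  have hncl : (NCl Λ B S).map j =
      Subgroup.normalClosure {x : G | x ∈ j.range ∧ IsOfFinOrder x} := by
    apply le_antisymm
    · rw [Subgroup.map_le_iff_le_comap]
      apply Subgroup.normalClosure_le_normal
      rintro y ⟨v, hv, hy⟩
      refine Subgroup.subset_normalClosure ⟨⟨y, rfl⟩, ?_⟩
      have h1 := hAvf v hv
      have h2 : IsOfFinOrder (⟨j y, ⟨y, hy, rfl⟩⟩ : Av Λ B j v) := isOfFinOrder_of_finite _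
      exact MonoidHom.isOfFinOrder (Av Λ B j v).subtype h2
    · apply Subgroup.normalClosure_le_normal
      rintro x ⟨hx, hx'⟩
      exact htor x hx hx'
  refine main_fin Λ B j hC hF hj hN S ?_ ?_ (QuotientGroup.mk' _)
    (by rw [QuotientGroup.ker_mk', hncl]) hQ
  · intro v hv
    obtain ⟨T, hT, hTf, hT'⟩ := fc (Nat.card V) V Λ B le_rfl fun v => by
      by_cases h : S v
      · exact FC_of_finite (hSf v h)
      · exact FC_of_TF (hSt v h)
    have hfin : {K : Subgroup G | ∃ E ∈ T, K ≤ E.map j}.Finite := by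
      have h1 : {K : Subgroup G | ∃ E ∈ T, K ≤ E.map j} = ⋃ E ∈ T, {K : Subgroup G | K ≤ E.map j} := by
        ext K
        simp
      rw [h1]
      refine hT.biUnion fun E hE => ?_
      have h2 : Finite (E.map j) := fin_map j (hTf E hE)
      have h3 : {s : Set G | s ⊆ (E.map j : Set G)}.Finite :=
        (Set.toFinite (E.map j : Set G)).finite_subsets
      exact h3.preimage (SetLike.coe_injective.injOn)
    have : Finite {K : Subgroup G // ∃ E ∈ T, K ≤ E.map j} := hfin.to_subtype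
    refine stab_fi Λ B j hN v {K : Subgroup G // ∃ E ∈ T, K ≤ E.map j} (fun K => K.1) fun g => ?_
    have hF' : Finite (((Av Λ B j v).map (MulAut.conj g).toMonoidHom).comap j) := by
      have h1 := hAvf v hv
      have h2 : Finite ((Av Λ B j v).map (MulAut.conj g).toMonoidHom) := fin_map _ h1
      refine Finite.of_injective (fun y => (⟨j y.1, y.2⟩ :
        ((Av Λ B j v).map (MulAut.conj g).toMonoidHom))) ?_
      intro a b hab
      exact Subtype.ext (hj (congrArg Subtype.val hab))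
    obtain ⟨c, E, hE, hc⟩ := hT' _ hF'
    refine ⟨⟨(Av Λ B j v).map (MulAut.conj (j c⁻¹ * g)).toMonoidHom, E, hE, ?_⟩, c⁻¹, fun x => ?_⟩
    · rintro _ ⟨a, ha, rfl⟩
      have h1 : g * a * g⁻¹ ∈ j.range := hN.conj_mem a (hle v ha) g
      obtain ⟨y, hy⟩ := h1
      have h2 : y ∈ ((Av Λ B j v).map (MulAut.conj g).toMonoidHom).comap j :=
        ⟨a, ha, hy.symm⟩
      refine ⟨_, hc y h2, ?_⟩
      show j (c⁻¹ * y * c) = j c⁻¹ * g * a * (j c⁻¹ * g)⁻¹
      rw [map_mul, map_mul, hy, map_inv]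
      group
    · show x ∈ Av Λ B j v ↔ j c⁻¹ * g * x * (j c⁻¹ * g)⁻¹ ∈
        (Av Λ B j v).map (MulAut.conj (j c⁻¹ * g)).toMonoidHom
      constructor
      · intro hx
        exact ⟨x, hx, rfl⟩
      · rintro ⟨y, hy, hyx⟩
        have h1 : x = y := (MulAut.conj (j c⁻¹ * g)).injective hyx.symm
        rw [h1]
        exact hy
  · intro v hv g hg
    exact C_fin_cyc hC (hAvf v hv) hg

/-- **extensions by graph products of finite groups and torsion-free groups** -/
theorem main_tor (hC : ClosedE C) (hF : FbC C) {G V : Type} [Group G] [Finite V]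
    (Λ : SimpleGraph V) (N : Subgroup G) (hNn : N.Normal) (A : V → Subgroup G)
    (hA : IsGraphProd Λ N A) (hv : ∀ v, Finite (A v) ∨ ∀ x ∈ A v, IsOfFinOrder x → x = 1)
    (hQ : C (G ⧸ Subgroup.normalClosure {x : G | x ∈ N ∧ IsOfFinOrder x})) : C G := by
  have hr := hA.j_range
  refine main_tor_ext hC hF Λ (fun v => A v) ?_ hA.j hA.j_inj (by rw [hr]; exact hNn) ?_
  · intro v
    rcases hv v with h | h
    · exact Or.inl h
    · exact Or.inr fun g hg => Subtype.ext (h g g.2 (MonoidHom.isOfFinOrder (A v).subtype hg))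
  · have h1 : {x : G | x ∈ hA.j.range ∧ IsOfFinOrder x} = {x : G | x ∈ N ∧ IsOfFinOrder x} := by
      rw [hr]
    rw [h1]
    exact hQ

end Pool.Agent.T2H65.GP
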