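import Pool.Agent.T2H65.GP.Coll
import Pool.Agent.T2H65.GP.Tor

/-!
# Extensions by right-angled Artin groups
-/

set_option autoImplicit false

namespace Pool.Agent.T2H65.GP

open Pool.Agent.Y110.FJ Monoid
open Pool.Agent.R684.FP
open Pool.Agent.R941.FJ (C_equiv C_le C_cyc mem_sup_normal)
open Pool.Agent.Y529.FJ (up)
open scoped commutatorElement

variable {C : ∀ (G : Type) [Group G], Prop}

/-- abelian-by-cyclic groups -/
def AbC (C : ∀ (G : Type) [Group G], Prop) : Prop :=
  ∀ (A : Type) [CommGroup A] (α : MulAut A), C (A ⋊[zpowersHom (MulAut A) α] Multiplicative ℤ)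

theorem ab_cyc (hC : ClosedE C) (hA : AbC C) {G : Type} [Group G] (K : Subgroup G)
    [hKn : K.Normal] (hK : ∀ x y : K, x * y = y * x) (g : G) :
    C ↥(K ⊔ Subgroup.zpowers g) := by
  letI : CommGroup K := { (inferInstance : Group K) with mul_comm := hK }
  obtain ⟨α, hα⟩ : ∃ α : MulAut K, α = MulAut.conjNormal g := ⟨_, rfl⟩
  refine cyc_real hC K g (fun x => ⟨fun hx => hKn.conj_mem x hx g, fun hx => ?_⟩)
    (SemidirectProduct.inl (φ := zpowersHom (MulAut K) α))
    SemidirectProduct.inl_injective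
    (SemidirectProduct.inr (Multiplicative.ofAdd 1)) ?_ (hA K α)
  · have := hKn.conj_mem _ hx g⁻¹
    have h2 : g⁻¹ * (g * x * g⁻¹) * g⁻¹⁻¹ = x := by group
    rwa [h2] at this
  · intro x y hxy
    have h1 : y = α x := by
      apply Subtype.ext
      rw [hα, MulAut.conjNormal_apply, hxy]
    rw [← map_inv, ← SemidirectProduct.inl_aut]
    rw [zpowersHom_apply, toAdd_ofAdd, zpow_one, h1]

/-- **extensions by abelian groups** -/
theorem ab_ext (hC : ClosedE C) (hA : AbC C) {G : Type} [Group G] (K : Subgroup G)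
    [K.Normal] (hK : ∀ x y : K, x * y = y * x) (hQ : C (G ⧸ K)) : C G := by
  refine Pool.Agent.Y529.FJ.t_ext C hC G K ?_ hQ fun g _ => ab_cyc hC hA K hK g
  exact C_le hC.base le_sup_left (ab_cyc hC hA K hK 1)

/-- extensions by groups which are free or have a free commutator subgroup -/
theorem adm (hC : ClosedE C) (hF : FbC C) (hA : AbC C) {G : Type} [Group G] (K : Subgroup G)
    [hKn : K.Normal] (h : IsFreeGroup K ∨ IsFreeGroup (commutator K)) (hQ : C (G ⧸ K)) : C G := by
  rcases h with h | h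
  · exact free_ext hC hF K hQ
  · obtain ⟨D, hD⟩ : ∃ D : Subgroup G, D = ⁅K, K⁆ := ⟨_, rfl⟩
    have hDn : D.Normal := by
      rw [hD]
      infer_instance
    have hDK : D ≤ K := by
      rw [hD]
      exact Subgroup.commutator_le_self K
    have h1 : (commutator K).map K.subtype = D := by
      rw [hD, commutator_def, Subgroup.map_commutator, ← MonoidHom.range_eq_map,
        Subgroup.range_subtype]
    have h2 : IsFreeGroup D := by
      have h3 := IsFreeGroup.ofMulEquiv
        ((commutator K).equivMapOfInjective K.subtype K.subtype_injective)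
      rw [h1] at h3
      exact h3
    refine free_ext hC hF D ?_
    have h3 : (K.map (QuotientGroup.mk' D)).Normal :=
      Subgroup.Normal.map hKn _ (QuotientGroup.mk'_surjective D)
    refine ab_ext hC hA (K.map (QuotientGroup.mk' D)) ?_
      (C_equiv hC.base (QuotientGroup.quotientQuotientEquivQuotient D K hDK) hQ)
    rintro ⟨_, x, hx, rfl⟩ ⟨_, y, hy, rfl⟩
    apply Subtype.ext
    show QuotientGroup.mk' D x * QuotientGroup.mk' D y =
      QuotientGroup.mk' D y * QuotientGroup.mk' D x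
    rw [← map_mul, ← map_mul, QuotientGroup.mk'_apply, QuotientGroup.mk'_apply,
      QuotientGroup.eq, hD]
    have h4 : (x * y)⁻¹ * (y * x) = ⁅y⁻¹, x⁻¹⁆ := by
      rw [commutatorElement_def]
      group
    rw [h4]
    exact Subgroup.commutator_mem_commutator (inv_mem hy) (inv_mem hx)

theorem free_or_equiv {K K' : Type} [Group K] [Group K'] (E : K ≃* K')
    (h : IsFreeGroup K ∨ IsFreeGroup (commutator K)) :
    IsFreeGroup K' ∨ IsFreeGroup (commutator K') := by
  rcases h with h | h
  · exact Or.inl (IsFreeGroup.ofMulEquiv E)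
  · right
    have h3 : (commutator K).map E.toMonoidHom = commutator K' := by
      rw [commutator_def, Subgroup.map_commutator, ← MonoidHom.range_eq_map,
        MonoidHom.range_eq_top.2 E.surjective]
      rfl
    have h4 := IsFreeGroup.ofMulEquiv
      ((commutator K).equivMapOfInjective E.toMonoidHom E.injective)
    rw [h3] at h4
    exact h4

section quot

variable {V : Type} (Λ : SimpleGraph V) (B : V → Type) [∀ v, Group (B v)]

/-- dividing out vertex groups -/
theorem quot_data (S : V → Prop) {G Q : Type} [Group G] [Group Q] (j : GrP Λ B →* G)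
    (hj : Function.Injective j) (hN : j.range.Normal) (π : G →* Q) (hker : π.ker = j.range)
    (M : Subgroup G) [M.Normal] (hM : M = (NCl Λ B S).map j) :
    ∃ (j' : GrPs Λ B (fun v => ¬ S v) →* G ⧸ M) (π' : G ⧸ M →* Q),
      Function.Injective j' ∧ j'.range.Normal ∧ π'.ker = j'.range := by
  have hS : NCl Λ B S = (ret Λ B (fun w => ¬ S w)).ker := by
    rw [ker_ret]
    congr 1
    ext x
    simp only [not_not]
  have hmk : ∀ p, QuotientGroup.mk' M (j p) =
      QuotientGroup.mk' M (j (inc Λ B _ (ret Λ B (fun w => ¬ S w) p))) := by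
    intro p
    symm
    rw [QuotientGroup.mk'_apply, QuotientGroup.mk'_apply, QuotientGroup.eq, ← map_inv,
      ← map_mul, hM]
    refine ⟨_, ?_, rfl⟩
    rw [hS]
    show ret Λ B _ _ = 1
    rw [map_mul, map_inv, ret_inc, inv_mul_cancel]
  obtain ⟨j', hj'⟩ : ∃ j' : GrPs Λ B (fun v => ¬ S v) →* G ⧸ M,
      j' = (QuotientGroup.mk' M).comp (j.comp (inc Λ B (fun w => ¬ S w))) := ⟨_, rfl⟩
  have hj'a : ∀ x, j' x = QuotientGroup.mk' M (j (inc Λ B _ x)) := fun x => by rw [hj']; rfl
  have hr : j'.range = j.range.map (QuotientGroup.mk' M) := by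
    apply le_antisymm
    · rintro _ ⟨x, rfl⟩
      rw [hj'a]
      exact ⟨_, ⟨_, rfl⟩, rfl⟩
    · rintro _ ⟨_, ⟨p, rfl⟩, rfl⟩
      rw [hmk, ← hj'a]
      exact ⟨_, rfl⟩
  have hle : M ≤ π.ker := by
    rw [hM, hker]
    rintro _ ⟨y, _, rfl⟩
    exact ⟨y, rfl⟩
  refine ⟨j', QuotientGroup.lift M π hle, ?_, ?_, ?_⟩
  · rw [injective_iff_map_eq_one]
    intro x hx
    rw [hj'a] at hx
    have h1 : j (inc Λ B _ x) ∈ M := (QuotientGroup.eq_one_iff _).1 hx
    rw [hM] at h1
    obtain ⟨y, hy, hyx⟩ := h1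
    have h2 := hj hyx
    rw [hS] at hy
    have h3 : ret Λ B _ y = 1 := hy
    rwa [h2, ret_inc] at h3
  · rw [hr]
    exact Subgroup.Normal.map hN _ (QuotientGroup.mk'_surjective M)
  · rw [QuotientGroup.ker_lift, hker, hr]

end quot

/-- **extensions by right-angled Artin groups** -/
theorem raag (hC : ClosedE C) (hF : FbC C) (hA : AbC C) (n : ℕ) : ∀ (V : Type) [Finite V]
    (Λ : SimpleGraph V) (B : V → Type) [∀ v, Group (B v)] (_ : ∀ v, B v ≃* Multiplicative ℤ)
    (_ : Nat.card V ≤ n) (G Q : Type) [Group G] [Group Q] (j : GrP Λ B →* G)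
    (_ : Function.Injective j) (_ : j.range.Normal) (π : G →* Q) (_ : π.ker = j.range) (_ : C Q),
    C G := by
  induction n with
  | zero =>
    intro V _ Λ B _ e hn G Q _ _ j hj hN π hker hQ
    have hV : IsEmpty V := (Finite.card_eq_zero_iff).1 (Nat.le_zero.1 hn)
    have h1 : π.ker = ⊥ := by
      rw [hker, eq_bot_iff]
      rintro _ ⟨x, rfl⟩
      rw [triv hV Λ B x, map_one]
      exact one_mem _
    exact hC.base.of_injective G Q π ((MonoidHom.ker_eq_bot_iff π).1 h1) hQ
  | succ n ih =>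
    intro V _ Λ B _ e hn G Q _ _ j hj hN π hker hQ
    rcases isEmpty_or_nonempty V with hV | hV
    · have h1 : π.ker = ⊥ := by
        rw [hker, eq_bot_iff]
        rintro _ ⟨x, rfl⟩
        rw [triv hV Λ B x, map_one]
        exact one_mem _
      exact hC.base.of_injective G Q π ((MonoidHom.ker_eq_bot_iff π).1 h1) hQ
    obtain ⟨v0, hmax⟩ := Finite.exists_max (star Λ)
    obtain ⟨M, hM⟩ : ∃ M : Subgroup G, M = (NCl Λ B (cls Λ v0)).map j := ⟨_, rfl⟩
    -- the stabilizer
    let G₁ : Subgroup G :=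
      { carrier := {g | Nz g M}
        one_mem' := Nz.one
        mul_mem' := fun hg hh => Nz.mul hg hh
        inv_mem' := fun hg => Nz.inv hg }
    have hconj : ∀ g : G, ∃ t, ∀ x, x ∈ M ↔ g * x * g⁻¹ ∈ (NCl Λ B (cls Λ t)).map j := by
      intro g
      let E : GrP Λ B ≃* j.range := MonoidHom.ofInjective hj
      obtain ⟨φ, hφ⟩ : ∃ φ : GrP Λ B ≃* GrP Λ B,
          φ = (E.trans (MulAut.conjNormal g)).trans E.symm := ⟨_, rfl⟩
      have hφj : ∀ p, j (φ p) = g * j p * g⁻¹ := by
        intro p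
        have h1 : ∀ q, (E q : G) = j q := fun q => rfl
        rw [← h1, hφ]
        show ((E (E.symm (MulAut.conjNormal g (E p)))) : G) = _
        rw [MulEquiv.apply_symm_apply, MulAut.conjNormal_apply, h1]
      obtain ⟨t, ht⟩ := perm_eq Λ B e v0 hmax φ
      refine ⟨t, fun x => ?_⟩
      rw [hM, ← ht]
      constructor
      · rintro ⟨k, hk, rfl⟩
        exact ⟨φ k, ⟨k, hk, rfl⟩, hφj k⟩
      · rintro ⟨_, ⟨k, hk, rfl⟩, hkx⟩
        have h1 : j (φ k) = g * x * g⁻¹ := hkx
        rw [hφj] at h1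
        exact ⟨k, hk, mul_left_cancel (mul_right_cancel h1)⟩
    have hfi : G₁.FiniteIndex := by
      choose t ht using hconj
      have h1 : Function.Injective (fun q : G ⧸ G₁ => t q.out) := by
        intro q r hqr
        have hqr' : t q.out = t r.out := hqr
        have h2 : Nz (q.out⁻¹ * r.out) M := by
          intro x
          rw [ht r.out x, ht q.out _, hqr']
          have : q.out * (q.out⁻¹ * r.out * x * (q.out⁻¹ * r.out)⁻¹) * q.out⁻¹ =
              r.out * x * r.out⁻¹ := by group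
          rw [this]
        have h4 : q.out⁻¹ * r.out ∈ G₁ := h2
        have h5 := QuotientGroup.eq.2 h4
        rwa [QuotientGroup.out_eq', QuotientGroup.out_eq'] at h5
      have h2 : Finite (G ⧸ G₁) := Finite.of_injective _ h1
      exact Subgroup.finiteIndex_of_finite_quotient
    refine hC.base.finiteIndex G G₁ hfi ?_
    have hKn : (NCl Λ B (cls Λ v0)).Normal := inferInstance
    have hjG : ∀ p, j p ∈ G₁ := by
      have h1 : ∀ p x, x ∈ M → j p * x * (j p)⁻¹ ∈ M := by
        intro p x hx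
        rw [hM] at hx ⊢
        obtain ⟨k, hk, rfl⟩ := hx
        exact ⟨p * k * p⁻¹, hKn.conj_mem k hk p, by rw [map_mul, map_mul, map_inv]⟩
      intro p x
      constructor
      · exact h1 p x
      · intro h
        have h2 := h1 p⁻¹ _ h
        rw [map_inv] at h2
        have h3 : (j p)⁻¹ * (j p * x * (j p)⁻¹) * (j p)⁻¹⁻¹ = x := by group
        rwa [h3] at h2
    obtain ⟨j₁, hj₁⟩ : ∃ j₁ : GrP Λ B →* G₁, ∀ p, (j₁ p : G) = j p :=
      ⟨j.codRestrict G₁ hjG, fun p => rfl⟩
    have hinj₁ : Function.Injective j₁ := by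
      intro a b hab
      apply hj
      rw [← hj₁, ← hj₁, hab]
    have hran₁ : j₁.range = j.range.comap G₁.subtype := by
      ext x
      constructor
      · rintro ⟨p, rfl⟩
        exact ⟨p, (hj₁ p).symm⟩
      · rintro ⟨p, hp⟩
        exact ⟨p, Subtype.ext ((hj₁ p).trans hp)⟩
    have hN₁ : j₁.range.Normal := by
      rw [hran₁]
      exact Subgroup.Normal.comap hN _
    obtain ⟨M₁, hM₁⟩ : ∃ M₁ : Subgroup G₁, M₁ = (NCl Λ B (cls Λ v0)).map j₁ := ⟨_, rfl⟩
    have hMM : M₁ = M.comap G₁.subtype := by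
      rw [hM₁, hM]
      ext x
      constructor
      · rintro ⟨p, hp, rfl⟩
        exact ⟨p, hp, (hj₁ p).symm⟩
      · rintro ⟨p, hp, hpx⟩
        exact ⟨p, hp, Subtype.ext ((hj₁ p).trans hpx)⟩
    have hMn : M₁.Normal := by
      refine ⟨fun x hx g => ?_⟩
      rw [hMM] at hx ⊢
      exact (g.2 _).1 hx
    have hker₁ : (π.comp G₁.subtype).ker = j₁.range := by
      rw [hran₁, ← hker]
      rfl
    obtain ⟨j', π', h1, h2, h3⟩ := quot_data Λ B (cls Λ v0) j₁ hinj₁ hN₁ (π.comp G₁.subtype)
      hker₁ M₁ hM₁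
    refine adm hC hF hA M₁ ?_ ?_
    · have h4 := struct Λ B e v0
      have h5 := free_or_equiv ((NCl Λ B (cls Λ v0)).equivMapOfInjective j₁ hinj₁) h4
      rw [← hM₁] at h5
      exact h5
    · refine ih {w // ¬ cls Λ v0 w} (Λ.comap (Subtype.val : {w // ¬ cls Λ v0 w} → V))
        (fun w : {w // ¬ cls Λ v0 w} => B w.1) (fun w => e w.1) ?_ (G₁ ⧸ M₁) Q j' h1 h2 π' h3 hQ
      have := Finite.card_subtype_lt (p := fun w => ¬ cls Λ v0 w) (x := v0)
        (not_not.2 (cls_refl v0))
      omega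

end Pool.Agent.T2H65.GP
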