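import Pool.Agent.T2H65.GP.Basic
import Pool.Agent.R684.FP.Main

/-!
# The kernel of the retraction which kills one vertex group
-/

set_option autoImplicit false

namespace Pool.Agent.T2H65.GP

open Pool.Agent.Y110.FJ Monoid
open Pool.Agent.R684.FP (IsFreeProd)

/-! ### permuting the factors of a free product -/

section perm

variable {W X : Type} [Group W] [MulAction W X] (A : Type) [Group A]

/-- the factor `x` -/
abbrev ofx (X : Type) (x : X) : A →* CoprodI (fun _ : X => A) :=
  CoprodI.of (M := fun _ : X => A) (i := x)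

/-- the homomorphism permuting the factors -/
noncomputable def cpm (w : W) : CoprodI (fun _ : X => A) →* CoprodI (fun _ : X => A) :=
  CoprodI.lift fun x => ofx A X (w • x)

@[simp] theorem cpm_of (w : W) (x : X) (a : A) : cpm A w (ofx A X x a) = ofx A X (w • x) a := by
  rw [cpm, ofx, CoprodI.lift_of]

theorem fp_ext {H : Type} [Group H] {f g : CoprodI (fun _ : X => A) →* H}
    (h : ∀ x a, f (ofx A X x a) = g (ofx A X x a)) : f = g := by
  apply CoprodI.ext_hom
  intro x
  ext a : 1
  exact h x a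

theorem cpm_mul (w u : W) (b : CoprodI (fun _ : X => A)) : cpm A (w * u) b = cpm A w (cpm A u b) := by
  have : cpm A (w * u) = (cpm (X := X) A w).comp (cpm A u) := by
    apply fp_ext
    intro x a
    rw [MonoidHom.comp_apply, cpm_of, cpm_of, cpm_of, mul_smul]
  exact DFunLike.congr_fun this b

theorem cpm_one (b : CoprodI (fun _ : X => A)) : cpm A (1 : W) b = b := by
  have : cpm A (1 : W) = MonoidHom.id (CoprodI (fun _ : X => A)) := by
    apply fp_ext
    intro x a
    rw [MonoidHom.id_apply, cpm_of, one_smul]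
  exact DFunLike.congr_fun this b

variable (W X) in
/-- the action on the free product -/
noncomputable def cpa : W →* MulAut (CoprodI (fun _ : X => A)) where
  toFun w :=
    { toFun := cpm A w
      invFun := cpm A w⁻¹
      left_inv := fun b => by rw [← cpm_mul, inv_mul_cancel, cpm_one]
      right_inv := fun b => by rw [← cpm_mul, mul_inv_cancel, cpm_one]
      map_mul' := fun b c => map_mul _ b c }
  map_one' := by
    ext b
    exact cpm_one A b
  map_mul' w u := by
    ext b
    exact cpm_mul A w u b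

theorem cpa_apply (w : W) (b : CoprodI (fun _ : X => A)) : cpa W X A w b = cpm A w b := rfl

theorem ofx_congr {x y : X} (h : x = y) (a : A) : ofx A X x a = ofx A X y a := by
  subst h
  rfl

end perm

/-- injectivity from isomorphisms with the factors -/
theorem inj_of_equiv {G I : Type} [Group G] {M : I → Type} [∀ i, Group (M i)]
    (F : CoprodI M →* G) (hF : Function.Injective F) (A : I → Subgroup G) (e : ∀ i, M i ≃* A i)
    (he : ∀ i a, (e i a : G) = F (CoprodI.of a)) :
    Function.Injective (CoprodI.lift fun i => (A i).subtype) := by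
  let θ : CoprodI (fun i => A i) →* CoprodI M :=
    CoprodI.lift fun i => (CoprodI.of (M := M) (i := i)).comp (e i).symm.toMonoidHom
  let η : CoprodI M →* CoprodI (fun i => A i) :=
    CoprodI.lift fun i => (CoprodI.of (M := fun i => A i) (i := i)).comp (e i).toMonoidHom
  have h2 : ∀ x, η (θ x) = x := by
    intro x
    have : η.comp θ = MonoidHom.id _ := by
      apply CoprodI.ext_hom
      intro i
      ext a : 1
      show η (θ (CoprodI.of (M := fun i => A i) (i := i) a)) =
        CoprodI.of (M := fun i => A i) (i := i) a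
      rw [CoprodI.lift_of]
      show η (CoprodI.of ((e i).symm a)) = CoprodI.of (M := fun i => A i) (i := i) a
      rw [CoprodI.lift_of]
      show CoprodI.of (M := fun i => A i) (i := i) ((e i) ((e i).symm a)) =
        CoprodI.of (M := fun i => A i) (i := i) a
      rw [MulEquiv.apply_symm_apply]
    exact DFunLike.congr_fun this x
  have h3 : CoprodI.lift (fun i => (A i).subtype) = F.comp θ := by
    apply CoprodI.ext_hom
    intro i
    ext a : 1
    show CoprodI.lift (fun i => (A i).subtype) (CoprodI.of (M := fun i => A i) (i := i) a) =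
      F (θ (CoprodI.of (M := fun i => A i) (i := i) a))
    rw [CoprodI.lift_of, CoprodI.lift_of]
    show (a : G) = F (CoprodI.of ((e i).symm a))
    rw [← he, MulEquiv.apply_symm_apply]
  rw [h3]
  exact hF.comp (Function.LeftInverse.injective h2)

/-- internal free products from injective homomorphisms -/
theorem isFreeProd_of_inj {G I : Type} [Group G] {M : I → Type} [∀ i, Group (M i)]
    (F : CoprodI M →* G) (hF : Function.Injective F) :
    IsFreeProd F.range (fun i => (F.comp (CoprodI.of (M := M) (i := i))).range) := by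
  have h1 : CoprodI.lift (fun i => F.comp (CoprodI.of (M := M) (i := i))) = F := by
    apply CoprodI.ext_hom
    intro i
    ext a : 1
    rw [MonoidHom.comp_apply, CoprodI.lift_of]
  constructor
  · rw [← CoprodI.range_eq_iSup, h1]
  · have hi : ∀ i, Function.Injective (F.comp (CoprodI.of (M := M) (i := i))) := fun i a b hab =>
      CoprodI.of_injective i (hF hab)
    exact inj_of_equiv F hF _ (fun i => MonoidHom.ofInjective (hi i)) (fun i a => rfl)

section vertex

variable {V : Type} (Λ : SimpleGraph V) (B : V → Type) [∀ v, Group (B v)] (v : V)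

/-- the graph product of the other vertex groups -/
abbrev Wv : Type := GrPs Λ B (fun w => w ≠ v)

/-- the vertex group in the graph product of the others -/
noncomputable abbrev ofW (w : V) (h : w ≠ v) : B w →* Wv Λ B v :=
  GrP.of (Λ.comap (Subtype.val : {w // w ≠ v} → V)) (fun u : {w // w ≠ v} => B u.1) ⟨w, h⟩

/-- the graph product of the vertex groups of the link -/
abbrev Lk : Type := GrPs Λ B (fun w => Λ.Adj v w)

/-- the inclusion of the graph product of the link -/
noncomputable def tL : Lk Λ B v →* Wv Λ B v :=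
  (ret Λ B (fun w => w ≠ v)).comp (inc Λ B (fun w => Λ.Adj v w))

theorem tL_of (w : V) (h : Λ.Adj v w) (b : B w) :
    tL Λ B v (GrP.of _ (fun u : {w // Λ.Adj v w} => B u.1) ⟨w, h⟩ b) = ofW Λ B v w h.ne' b := by
  rw [tL, MonoidHom.comp_apply, inc_of, ret_of Λ B (fun w => w ≠ v) w h.ne']

theorem inc_tL (x : Lk Λ B v) : inc Λ B (fun w => w ≠ v) (tL Λ B v x) =
    inc Λ B (fun w => Λ.Adj v w) x := by
  have : (inc Λ B (fun w => w ≠ v)).comp (tL Λ B v) = inc Λ B (fun w => Λ.Adj v w) := by
    apply ghom_ext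
    rintro ⟨w, h⟩ b
    rw [MonoidHom.comp_apply, tL_of Λ B v w h, inc_of, inc_of]
  exact DFunLike.congr_fun this x

theorem inc_comm (x : Lk Λ B v) (a : B v) : inc Λ B (fun w => Λ.Adj v w) x * GrP.of Λ B v a =
    GrP.of Λ B v a * inc Λ B (fun w => Λ.Adj v w) x := by
  refine gind (p := fun x => inc Λ B (fun w => Λ.Adj v w) x * GrP.of Λ B v a =
    GrP.of Λ B v a * inc Λ B (fun w => Λ.Adj v w) x) ?_ ?_ ?_ x
  · rw [map_one, one_mul, mul_one]
  · rintro ⟨w, h⟩ b
    rw [inc_of]
    exact of_comm h.symm b a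
  · intro x y hx hy
    rw [map_mul, mul_assoc, hy, ← mul_assoc, hx, mul_assoc]

/-- the stabilizer of the base point -/
noncomputable abbrev Lv : Subgroup (Wv Λ B v) := (tL Λ B v).range

/-- the index set of the factors -/
abbrev Xv : Type := Wv Λ B v ⧸ Lv Λ B v

/-- the base point -/
noncomputable abbrev x0 : Xv Λ B v := ((1 : Wv Λ B v) : Wv Λ B v ⧸ Lv Λ B v)

theorem conj_L {l : Wv Λ B v} (h : l ∈ Lv Λ B v) (a : B v) :
    inc Λ B _ l * GrP.of Λ B v a * (inc Λ B _ l)⁻¹ = GrP.of Λ B v a := by
  obtain ⟨y, rfl⟩ := h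
  rw [inc_tL, inc_comm, mul_inv_cancel_right]

theorem conj_eq {w u : Wv Λ B v} (h : (w : Xv Λ B v) = u) (a : B v) :
    inc Λ B _ w * GrP.of Λ B v a * (inc Λ B _ w)⁻¹ =
      inc Λ B _ u * GrP.of Λ B v a * (inc Λ B _ u)⁻¹ := by
  have h1 : w⁻¹ * u ∈ Lv Λ B v := QuotientGroup.eq.1 h
  have h2 := conj_L Λ B v h1 a
  have h3 : inc Λ B _ u = inc Λ B _ w * inc Λ B _ (w⁻¹ * u) := by
    rw [← map_mul, mul_inv_cancel_left]
  rw [h3]
  calc _ = inc Λ B _ w * (inc Λ B _ (w⁻¹ * u) * GrP.of Λ B v a * (inc Λ B _ (w⁻¹ * u))⁻¹) *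
      (inc Λ B _ w)⁻¹ := by rw [h2]
    _ = _ := by group

/-- the homomorphism from the free product of the conjugates -/
noncomputable def kap : CoprodI (fun _ : Xv Λ B v => B v) →* GrP Λ B :=
  CoprodI.lift fun x => (MulAut.conj (inc Λ B _ x.out)).toMonoidHom.comp (GrP.of Λ B v)

theorem kap_of (x : Xv Λ B v) (a : B v) : kap Λ B v (ofx (B v) _ x a) =
    inc Λ B _ x.out * GrP.of Λ B v a * (inc Λ B _ x.out)⁻¹ := by
  rw [kap, ofx, CoprodI.lift_of]
  rfl

theorem kap_of' (w : Wv Λ B v) (a : B v) : kap Λ B v (ofx (B v) _ (w : Xv Λ B v) a) =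
    inc Λ B _ w * GrP.of Λ B v a * (inc Λ B _ w)⁻¹ := by
  rw [kap_of]
  exact conj_eq Λ B v (QuotientGroup.out_eq' _) a

theorem kap_act (w : Wv Λ B v) (b : CoprodI (fun _ : Xv Λ B v => B v)) :
    kap Λ B v (cpa (Wv Λ B v) (Xv Λ B v) (B v) w b) =
      inc Λ B _ w * kap Λ B v b * (inc Λ B _ w)⁻¹ := by
  have : (kap Λ B v).comp (cpm (B v) w) =
      (MulAut.conj (inc Λ B _ w)).toMonoidHom.comp (kap Λ B v) := by
    apply fp_ext
    intro x a
    obtain ⟨u, rfl⟩ := QuotientGroup.mk_surjective x
    rw [MonoidHom.comp_apply, cpm_of]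
    show kap Λ B v (ofx (B v) _ ((w * u : Wv Λ B v) : Xv Λ B v) a) =
      inc Λ B _ w * kap Λ B v (ofx (B v) _ (u : Xv Λ B v) a) * (inc Λ B _ w)⁻¹
    rw [kap_of', kap_of', map_mul]
    group
  exact DFunLike.congr_fun this b

/-- the semidirect product -/
abbrev Dv : Type :=
  CoprodI (fun _ : Xv Λ B v => B v) ⋊[cpa (Wv Λ B v) (Xv Λ B v) (B v)] Wv Λ B v

/-- the homomorphism from the semidirect product -/
noncomputable def Psi : Dv Λ B v →* GrP Λ B :=
  SemidirectProduct.lift (kap Λ B v) (inc Λ B _) (fun w =>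
    MonoidHom.ext fun b => kap_act Λ B v w b)

@[simp] theorem Psi_inl (b : CoprodI (fun _ : Xv Λ B v => B v)) :
    Psi Λ B v (SemidirectProduct.inl b) = kap Λ B v b := by
  rw [Psi, SemidirectProduct.lift_inl]

@[simp] theorem Psi_inr (w : Wv Λ B v) : Psi Λ B v (SemidirectProduct.inr w) = inc Λ B _ w := by
  rw [Psi, SemidirectProduct.lift_inr]

/-- transport along an equality of vertices -/
def vcast {u : V} (h : u = v) : B u →* B v := h ▸ MonoidHom.id (B v)

theorem fix0 {l : Wv Λ B v} (h : l ∈ Lv Λ B v) : l • x0 Λ B v = x0 Λ B v := by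
  show ((l * 1 : Wv Λ B v) : Xv Λ B v) = ((1 : Wv Λ B v) : Xv Λ B v)
  rw [mul_one]
  symm
  rw [QuotientGroup.eq, inv_one, one_mul]
  exact h

theorem comm0 {l : Wv Λ B v} (h : l ∈ Lv Λ B v) (a : B v) :
    (SemidirectProduct.inr l * SemidirectProduct.inl (ofx (B v) _ (x0 Λ B v) a) : Dv Λ B v) =
      SemidirectProduct.inl (ofx (B v) _ (x0 Λ B v) a) * SemidirectProduct.inr l := by
  have h1 := SemidirectProduct.inl_aut (φ := cpa (Wv Λ B v) (Xv Λ B v) (B v)) l
    (ofx (B v) _ (x0 Λ B v) a)
  rw [cpa_apply, cpm_of, ofx_congr (B v) (fix0 Λ B v h)] at h1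
  rw [map_inv, eq_mul_inv_iff_mul_eq] at h1
  exact h1.symm

open Classical in
/-- the homomorphism to the semidirect product -/
noncomputable def Phi : GrP Λ B →* Dv Λ B v :=
  glift (fun u => if h : u ≠ v then SemidirectProduct.inr.comp (ofW Λ B v u h) else
    (SemidirectProduct.inl.comp (ofx (B v) _ (x0 Λ B v))).comp (vcast B v (not_not.1 h))) (by
    intro u w h a b
    by_cases hu : u ≠ v
    · rw [dif_pos hu]
      by_cases hw : w ≠ v
      · rw [dif_pos hw, MonoidHom.comp_apply, MonoidHom.comp_apply, ← map_mul, ← map_mul]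
        congr 1
        exact of_comm (Λ := Λ.comap (Subtype.val : {w // w ≠ v} → V))
          (B := fun w : {w // w ≠ v} => B w.1) (v := ⟨u, hu⟩) (w := ⟨w, hw⟩) h a b
      · rw [dif_neg hw]
        have hw' := not_not.1 hw
        subst hw'
        exact comm0 Λ B w ⟨_, tL_of Λ B w u h.symm a⟩ _
    · rw [dif_neg hu]
      have hu' := not_not.1 hu
      subst hu'
      rw [dif_pos h.ne']
      exact (comm0 Λ B u ⟨_, tL_of Λ B u w h b⟩ _).symm)

theorem Phi_of {w : V} (h : w ≠ v) (b : B w) : Phi Λ B v (GrP.of Λ B w b) =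
    SemidirectProduct.inr (ofW Λ B v w h b) := by
  rw [Phi, glift_of, dif_pos h]
  rfl

theorem Phi_self (a : B v) : Phi Λ B v (GrP.of Λ B v a) =
    SemidirectProduct.inl (ofx (B v) _ (x0 Λ B v) a) := by
  rw [Phi, glift_of, dif_neg (not_not.2 rfl)]
  rfl

theorem Phi_inc (w : Wv Λ B v) : Phi Λ B v (inc Λ B _ w) = SemidirectProduct.inr w := by
  have : (Phi Λ B v).comp (inc Λ B _) = SemidirectProduct.inr := by
    apply ghom_ext
    rintro ⟨u, h⟩ b
    rw [MonoidHom.comp_apply, inc_of, Phi_of Λ B v h]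
  exact DFunLike.congr_fun this w

theorem Phi_Psi (d : Dv Λ B v) : Phi Λ B v (Psi Λ B v d) = d := by
  have : (Phi Λ B v).comp (Psi Λ B v) = MonoidHom.id _ := by
    apply SemidirectProduct.hom_ext
    · apply fp_ext
      intro x a
      show Phi Λ B v (Psi Λ B v (SemidirectProduct.inl (ofx (B v) _ x a))) =
        SemidirectProduct.inl (ofx (B v) _ x a)
      rw [Psi_inl, kap_of, map_mul, map_mul, map_inv, Phi_inc, Phi_self, ← map_inv,
        ← SemidirectProduct.inl_aut, cpa_apply, cpm_of]
      congr 1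
      apply ofx_congr
      show ((x.out * 1 : Wv Λ B v) : Xv Λ B v) = x
      rw [mul_one]
      exact QuotientGroup.out_eq' x
    · refine MonoidHom.ext fun w => ?_
      show Phi Λ B v (Psi Λ B v (SemidirectProduct.inr w)) = SemidirectProduct.inr w
      rw [Psi_inr, Phi_inc]
  exact DFunLike.congr_fun this d

theorem Psi_Phi (x : GrP Λ B) : Psi Λ B v (Phi Λ B v x) = x := by
  have : (Psi Λ B v).comp (Phi Λ B v) = MonoidHom.id _ := by
    apply ghom_ext
    intro w b
    rw [MonoidHom.comp_apply, MonoidHom.id_apply]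
    by_cases h : w = v
    · subst h
      rw [Phi_self, Psi_inl, kap_of', map_one, one_mul, inv_one, mul_one]
    · rw [Phi_of Λ B v h, Psi_inr, inc_of]
  exact DFunLike.congr_fun this x

theorem Phi_right (x : GrP Λ B) : (Phi Λ B v x).right = ret Λ B (fun w => w ≠ v) x := by
  have : (SemidirectProduct.rightHom.comp (Phi Λ B v)) = ret Λ B (fun w => w ≠ v) := by
    apply ghom_ext
    intro w b
    rw [MonoidHom.comp_apply]
    by_cases h : w = v
    · subst h
      rw [Phi_self, SemidirectProduct.rightHom_inl, ret_of' Λ B _ w (fun h => h rfl)]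
    · rw [Phi_of Λ B v h, SemidirectProduct.rightHom_inr, ret_of Λ B _ w h]
  exact DFunLike.congr_fun this x

theorem kap_inj : Function.Injective (kap Λ B v) := by
  intro a b hab
  rw [← Psi_inl, ← Psi_inl] at hab
  exact SemidirectProduct.inl_injective
    ((Function.LeftInverse.injective (Phi_Psi Λ B v)) hab)

theorem kap_range : (kap Λ B v).range = (ret Λ B (fun w => w ≠ v)).ker := by
  apply le_antisymm
  · rintro _ ⟨b, rfl⟩
    show ret Λ B (fun w => w ≠ v) (kap Λ B v b) = 1
    rw [← Phi_right, ← Psi_inl, Phi_Psi]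
    rfl
  · intro x hx
    refine ⟨(Phi Λ B v x).left, ?_⟩
    have h1 : (Phi Λ B v x).right = 1 := by
      rw [Phi_right]
      exact hx
    have h2 : SemidirectProduct.inl (Phi Λ B v x).left = Phi Λ B v x := by
      apply SemidirectProduct.ext
      · rfl
      · exact h1.symm
    rw [← Psi_inl, h2, Psi_Phi]

end vertex

end Pool.Agent.T2H65.GP
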