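import Pool.Agent.T2H65.GP.Len

/-!
# Elements of the semidirect product which commute with a hyperbolic element
-/

set_option autoImplicit false

namespace Pool.Agent.T2H65.GP

open Monoid
open Pool.Agent.R701.FreeProd

section axis

variable {W X : Type} [Group W] [MulAction W X] {A : Type} [Group A]

theorem left_conj (b : CoprodI (fun _ : X => A)) (g : DD W X A) :
    ((SemidirectProduct.inl b)⁻¹ * g * SemidirectProduct.inl b).left =
      b⁻¹ * g.left * cpm A g.right b := by
  obtain ⟨γ, u⟩ := g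
  rw [← map_inv, SemidirectProduct.mul_left, SemidirectProduct.mul_left,
    SemidirectProduct.mul_right, SemidirectProduct.left_inl, SemidirectProduct.left_inl,
    SemidirectProduct.right_inl, map_one, one_mul]
  rfl

theorem right_conj (b : CoprodI (fun _ : X => A)) (g : DD W X A) :
    ((SemidirectProduct.inl b)⁻¹ * g * SemidirectProduct.inl b).right = g.right := by
  rw [← map_inv, SemidirectProduct.mul_right, SemidirectProduct.mul_right,
    SemidirectProduct.right_inl, SemidirectProduct.right_inl, one_mul, mul_one]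

theorem left_inv_mul (p q : DD W X A) :
    (p⁻¹ * q).left = cpm A p.right⁻¹ (p.left⁻¹ * q.left) := by
  rw [map_mul]
  rfl

theorem left_inv' (p : DD W X A) : p⁻¹.left = cpm A p.right⁻¹ p.left⁻¹ := rfl

omit [Group W] [MulAction W X] in
/-- the first letter is unique -/
theorem first_unique {i i' : X} {a a' : A} {β β' : CoprodI (fun _ : X => A)} (ha : a ≠ 1)
    (ha' : a' ≠ 1) (hβ : fst β ≠ some i) (hβ' : fst β' ≠ some i')
    (h : ofx A X i a * β = ofx A X i' a' * β') : i = i' ∧ a = a' ∧ β = β' := by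
  have h1 : wd (ofx A X i a * β) = ⟨i, a⟩ :: wd β := by
    rw [wd_mul (compat_of (M := fun _ : X => A) (i := i) (c := a) hβ),
      wd_of (M := fun _ : X => A) (i := i) a ha]
    rfl
  have h2 : wd (ofx A X i' a' * β') = ⟨i', a'⟩ :: wd β' := by
    rw [wd_mul (compat_of (M := fun _ : X => A) (i := i') (c := a') hβ'),
      wd_of (M := fun _ : X => A) (i := i') a' ha']
    rfl
  rw [h, h2] at h1
  injection h1 with h3 h4
  injection h3 with h5 h6
  exact ⟨h5.symm, h6.symm, (wd_inj h4).symm⟩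

/-- `γ` is the product of the first `n` letters of `β (w β) (w² β) ...` -/
def Fw (w : W) : ℕ → CoprodI (fun _ : X => A) → CoprodI (fun _ : X => A) → Prop
  | 0, _, γ => γ = 1
  | n + 1, β, γ => ∃ (i : X) (a : A) (β' γ' : CoprodI (fun _ : X => A)), a ≠ 1 ∧
      β = ofx A X i a * β' ∧ fst β' ≠ some i ∧ γ = ofx A X i a * γ' ∧ fst γ' ≠ some i ∧
      Fw w n (β' * ofx A X (w • i) a) γ'

theorem Fw_unique {w : W} (n : ℕ) : ∀ {β γ γ₁ : CoprodI (fun _ : X => A)},
    Fw w n β γ → Fw w n β γ₁ → γ = γ₁ := by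
  induction n with
  | zero =>
    intro β γ γ₁ h h₁
    rw [show γ = 1 from h, show γ₁ = 1 from h₁]
  | succ n ih =>
    rintro β γ γ₁ ⟨i, a, β', γ', ha, h1, h2, h3, h4, h5⟩ ⟨i', a', β'', γ'', ha', h1', h2', h3', h4', h5'⟩
    rw [h1] at h1'
    obtain ⟨rfl, rfl, rfl⟩ := first_unique ha ha' h2 h2' h1'
    rw [h3, h3', ih h5 h5']

theorem Fw_len {w : W} (n : ℕ) : ∀ {β γ : CoprodI (fun _ : X => A)}, Fw w n β γ → len γ = n := by
  induction n with
  | zero =>
    intro β γ h
    rw [show γ = 1 from h, len_one]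
  | succ n ih =>
    rintro β γ ⟨i, a, β', γ', ha, h1, h2, h3, h4, h5⟩
    rw [h3, len_ofx_mul ha h4, ih h5]
    ring

theorem Fw_prefix {w : W} (n : ℕ) : ∀ {m : ℕ} {β γ γ₁ : CoprodI (fun _ : X => A)}, n ≤ m →
    Fw w n β γ → Fw w m β γ₁ → len (γ⁻¹ * γ₁) = m - n := by
  induction n with
  | zero =>
    intro m β γ γ₁ _ h h₁
    rw [show γ = 1 from h, inv_one, one_mul, Fw_len m h₁]
    rfl
  | succ n ih =>
    rintro m β γ γ₁ hnm ⟨i, a, β', γ', ha, h1, h2, h3, h4, h5⟩ hγ₁
    obtain ⟨m, rfl⟩ : ∃ m', m = m' + 1 := ⟨m - 1, by omega⟩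
    obtain ⟨i', a', β'', γ'', ha', h1', h2', h3', h4', h5'⟩ := hγ₁
    rw [h1] at h1'
    obtain ⟨rfl, rfl, rfl⟩ := first_unique ha ha' h2 h2' h1'
    have h6 : γ⁻¹ * γ₁ = γ'⁻¹ * γ'' := by
      rw [h3, h3']
      group
    rw [h6, ih (by omega) h5 h5']
    omega

/-- cyclically reduced elements -/
def CR (w : W) (β : CoprodI (fun _ : X => A)) : Prop := ∀ i, fst β = some i → lst β ≠ some (w • i)

theorem lst_cpm (w : W) (b : CoprodI (fun _ : X => A)) :
    lst (cpm A w b) = (lst b).map (w • ·) := by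
  rw [← fst_inv, ← map_inv, fst_cpm, fst_inv]

theorem CR_inv {w : W} {β : CoprodI (fun _ : X => A)} (h : CR w β) : CR w⁻¹ (cpm A w⁻¹ β⁻¹) := by
  intro k hk hk'
  rw [fst_cpm, fst_inv, Option.map_eq_some_iff] at hk
  rw [lst_cpm, lst_inv, Option.map_eq_some_iff] at hk'
  obtain ⟨y, hy, hyk⟩ := hk
  obtain ⟨z, hz, hzk⟩ := hk'
  have h1 : z = k := smul_left_cancel w⁻¹ hzk
  subst h1
  apply h z hz
  rw [hy, ← hyk, smul_inv_smul]

/-- the dichotomy -/
theorem dich {w : W} {β γ : CoprodI (fun _ : X => A)} {i : X} (hβ : β ≠ 1)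
    (hγ : fst γ = some i) (h : len (γ⁻¹ * β * cpm A w γ) ≤ len β) :
    fst β = some i ∨ lst β = some (w • i) := by
  by_contra hcon
  rw [not_or] at hcon
  obtain ⟨h1, h2⟩ := hcon
  have hγ1 : γ ≠ 1 := by
    rintro rfl
    rw [fst_one] at hγ
    exact absurd hγ (by simp)
  have c1 : Compat γ⁻¹ β := by
    intro j hj hk
    rw [lst_inv, hγ] at hj
    exact h1 (hk.trans hj.symm)
  have c2 : Compat (γ⁻¹ * β) (cpm A w γ) := by
    intro j hj hk
    rw [lst_mul c1 hβ] at hj
    rw [fst_cpm, hγ, Option.map_some] at hk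
    exact h2 (hj.trans hk.symm)
  rw [len_mul c2, len_mul c1, len_inv, len_cpm] at h
  have h3 : len γ ≠ 0 := fun h3 => hγ1 (eq_one_of_len h3)
  omega

/-- points on the axis: the forward direction -/
theorem Fw_of (w : W) (n : ℕ) : ∀ (β γ : CoprodI (fun _ : X => A)), CR w β → β ≠ 1 → len γ = n →
    (γ = 1 ∨ fst γ = fst β) → len (γ⁻¹ * β * cpm A w γ) ≤ len β → Fw w n β γ := by
  induction n with
  | zero =>
    intro β γ _ _ h0 _ _
    exact eq_one_of_len h0
  | succ n ih =>
    intro β γ hCR hβ hlen hdir hax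
    have hγ : γ ≠ 1 := by
      rintro rfl
      rw [len_one] at hlen
      omega
    obtain ⟨i, hi⟩ := fst_eq_some hγ
    have hfst : fst β = some i := by
      rw [← hi]
      exact (hdir.resolve_left hγ).symm
    obtain ⟨a, γ', hγ', hγ''⟩ := strip_fst γ i
    obtain ⟨b, β', hβ', hβ''⟩ := strip_fst β i
    have ha : a ≠ 1 := by
      rintro rfl
      rw [map_one, one_mul] at hγ'
      rw [← hγ'] at hγ''
      exact hγ'' hi
    have hb : b ≠ 1 := by
      rintro rfl
      rw [map_one, one_mul] at hβ'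
      rw [← hβ'] at hβ''
      exact hβ'' hfst
    have hlst : lst β ≠ some (w • i) := hCR i hfst
    have hab : a = b := by
      by_contra hab
      have hne : a⁻¹ * b ≠ 1 := fun h => hab (inv_mul_eq_one.1 h)
      obtain ⟨δ, hδ⟩ : ∃ δ, δ = ofx A X i (a⁻¹ * b) * β' := ⟨_, rfl⟩
      have hδl : len δ = len β := by
        rw [hδ, len_ofx_mul hne hβ'', hβ']
        exact (len_ofx_mul hb hβ'').symm
      have hδ1 : δ ≠ 1 := by
        intro h
        rw [h, len_one] at hδl
        exact hβ (eq_one_of_len hδl.symm)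
      have hδf : fst δ = some i := by rw [hδ, fst_ofx_mul hne hβ'']
      have hδlst : lst δ ≠ some (w • i) := by
        by_cases h1 : β' = 1
        · rw [hδ, h1, mul_one, lst_ofx hne]
          rw [hβ', h1, mul_one] at hlst
          rw [← lst_ofx (A := A) (x := i) hb]
          exact hlst
        · rw [hδ, lst_ofx_mul hβ'' h1]
          rw [hβ'] at hlst
          rw [← lst_ofx_mul (c := b) hβ'' h1]
          exact hlst
      have h1 : γ⁻¹ * β * cpm A w γ = γ'⁻¹ * δ * cpm A w γ := by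
        have h2 : γ⁻¹ * β = γ'⁻¹ * δ := by
          rw [hγ', hβ', hδ, map_mul, map_inv]
          group
        rw [h2]
      have c1 : Compat γ'⁻¹ δ := by
        intro k hk hk'
        rw [lst_inv] at hk
        rw [hδf] at hk'
        exact hγ'' (hk.trans hk'.symm)
      have c2 : Compat (γ'⁻¹ * δ) (cpm A w γ) := by
        intro k hk hk'
        rw [lst_mul c1 hδ1] at hk
        rw [fst_cpm, hi, Option.map_some] at hk'
        exact hδlst (hk.trans hk'.symm)
      rw [h1, len_mul c2, len_mul c1, len_inv, len_cpm, hδl, hlen] at hax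
      omega
    subst hab
    have hlast : Compat β' (ofx A X (w • i) a) := by
      intro k hk hk'
      rw [fst_ofx ha] at hk'
      by_cases h1 : β' = 1
      · rw [h1, lst_one] at hk
        exact absurd hk (by simp)
      · rw [hβ'] at hlst
        have h2 : lst (ofx A X i a * β') = lst β' := lst_ofx_mul hβ'' h1
        apply hlst
        exact h2.trans (hk.trans hk'.symm)
    have hlen1 : len (β' * ofx A X (w • i) a) = len β := by
      rw [len_mul hlast, len_ofx ha, hβ']
      have : len (ofx A X i a * β') = 1 + len β' := len_ofx_mul ha hβ''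
      rw [show len (CoprodI.of a * β') = len (ofx A X i a * β') from rfl, this]
      ring
    have hlst1 : lst (β' * ofx A X (w • i) a) = some (w • i) := by
      rw [lst_mul hlast (ofx_ne_one ha), lst_ofx ha]
    have hβ1 : β' * ofx A X (w • i) a ≠ 1 := by
      intro h
      rw [h, lst_one] at hlst1
      exact absurd hlst1 (by simp)
    have hax1 : len (γ'⁻¹ * (β' * ofx A X (w • i) a) * cpm A w γ') ≤
        len (β' * ofx A X (w • i) a) := by
      rw [hlen1]
      have h1 : γ'⁻¹ * (β' * ofx A X (w • i) a) * cpm A w γ' = γ⁻¹ * β * cpm A w γ := by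
        have h2 : γ = ofx A X i a * γ' := hγ'
        have h3 : β = ofx A X i a * β' := hβ'
        rw [h2, h3, map_mul, cpm_of]
        group
      rw [h1]
      exact hax
    have hCR1 : CR w (β' * ofx A X (w • i) a) := by
      intro k hk hk'
      rw [hlst1] at hk'
      have h1 : i = k := smul_left_cancel w (Option.some.inj hk')
      subst h1
      by_cases h2 : β' = 1
      · rw [h2, one_mul, fst_ofx ha] at hk
        rw [hβ', h2, mul_one] at hlst
        apply hlst
        rw [Option.some.inj hk]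
        exact lst_ofx ha
      · rw [fst_mul hlast h2] at hk
        exact hβ'' hk
    refine ⟨i, a, β', γ', ha, hβ', hβ'', hγ', hγ'', ih _ _ hCR1 hβ1 ?_ ?_ hax1⟩
    · have h1 : len γ = 1 + len γ' := by
        rw [hγ']
        exact len_ofx_mul ha hγ''
      omega
    · by_cases h1 : γ' = 1
      · exact Or.inl h1
      · right
        obtain ⟨k, hk⟩ := fst_eq_some h1
        rcases dich hβ1 hk hax1 with h2 | h2
        · rw [hk, h2]
        · rw [hlst1] at h2
          have h3 : i = k := smul_left_cancel w (Option.some.inj h2)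
          subst h3
          exact absurd hk hγ''

/-- points on the axis -/
theorem axis (w : W) (β γ : CoprodI (fun _ : X => A)) (hCR : CR w β) (hβ : β ≠ 1)
    (h : len (γ⁻¹ * β * cpm A w γ) ≤ len β) :
    (∃ n, Fw w n β γ) ∨ ∃ n, Fw w⁻¹ n (cpm A w⁻¹ β⁻¹) γ := by
  by_cases hγ : γ = 1
  · exact Or.inl ⟨0, hγ⟩
  obtain ⟨i, hi⟩ := fst_eq_some hγ
  rcases dich hβ hi h with h1 | h1
  · exact Or.inl ⟨_, Fw_of w _ β γ hCR hβ rfl (Or.inr (hi.trans h1.symm)) h⟩
  · right
    refine ⟨_, Fw_of w⁻¹ _ _ γ (CR_inv hCR) ?_ rfl (Or.inr ?_) ?_⟩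
    · intro h2
      have h3 := len_cpm A w⁻¹ β⁻¹
      rw [h2, len_one, len_inv] at h3
      exact hβ (eq_one_of_len h3.symm)
    · rw [fst_cpm, fst_inv, h1, Option.map_some, inv_smul_smul, hi]
    · rw [len_cpm, len_inv]
      have h2 : γ⁻¹ * cpm A w⁻¹ β⁻¹ * cpm A w⁻¹ γ =
          cpm A w⁻¹ ((γ⁻¹ * β * cpm A w γ)⁻¹) := by
        have h3 : (γ⁻¹ * β * cpm A w γ)⁻¹ = cpm A w γ⁻¹ * β⁻¹ * γ := by
          rw [map_inv]
          group
        rw [h3, map_mul, map_mul, ← cpm_mul, inv_mul_cancel, cpm_one]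
      rw [h2, len_cpm, len_inv]
      exact h

/-- **the group is cyclic** -/
theorem cyc_of_axis (H : Subgroup (DD W X A)) (h : DD W X A) (hh : h ∈ H) (hCR : CR h.right h.left)
    (h1 : h.left ≠ 1) (hcom : ∀ y ∈ H, y * h = h * y) (hE : ∀ y ∈ H, y.left = 1 → y = 1)
    (hT : ∀ y ∈ H, y * y = 1 → y = 1) : ∃ y₀ ∈ H, ∀ y ∈ H, y ∈ Subgroup.zpowers y₀ := by
  obtain ⟨β, w⟩ := h
  have hCR : CR w β := hCR
  have h1 : β ≠ 1 := h1
  -- directions
  have hax : ∀ y ∈ H, (∃ n, Fw w n β y.left) ∨ ∃ n, Fw w⁻¹ n (cpm A w⁻¹ β⁻¹) y.left := by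
    rintro ⟨γ, u⟩ hy
    apply axis w β γ hCR h1
    have h2 := congrArg (fun d : DD W X A => d.left) (hcom _ hy)
    have h3 : γ * cpm A u β = β * cpm A w γ := h2
    have h4 : γ⁻¹ * β * cpm A w γ = cpm A u β := by
      rw [mul_assoc, ← h3, inv_mul_cancel_left]
    rw [h4, len_cpm]
  have hsame : ∀ y ∈ H, y.left = y⁻¹.left → y = 1 := by
    intro y hy h2
    have h3 : (y⁻¹ * y⁻¹).left = 1 := by
      rw [left_inv_mul, ← h2, inv_mul_cancel, map_one]
    have h4 := hE _ (mul_mem (inv_mem hy) (inv_mem hy)) h3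
    have h5 := hT _ (inv_mem hy) h4
    exact inv_eq_one.1 h5
  have hlinv : ∀ y : DD W X A, len y⁻¹.left = len y.left := by
    intro y
    rw [left_inv', len_cpm, len_inv]
  have hdir : ∀ y ∈ H, y ≠ 1 →
      ((∃ n, Fw w n β y.left) ∧ ∃ n, Fw w⁻¹ n (cpm A w⁻¹ β⁻¹) y⁻¹.left) ∨
      ((∃ n, Fw w⁻¹ n (cpm A w⁻¹ β⁻¹) y.left) ∧ ∃ n, Fw w n β y⁻¹.left) := by
    intro y hy hne
    rcases hax y hy with ⟨n, hn⟩ | ⟨n, hn⟩
    · rcases hax _ (inv_mem hy) with ⟨m, hm⟩ | hm
      · exfalso
        have h2 := Fw_len _ hn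
        have h3 := Fw_len _ hm
        rw [hlinv, h2] at h3
        subst h3
        exact hne (hsame y hy (Fw_unique _ hn hm))
      · exact Or.inl ⟨⟨n, hn⟩, hm⟩
    · rcases hax _ (inv_mem hy) with hm | ⟨m, hm⟩
      · exact Or.inr ⟨⟨n, hn⟩, hm⟩
      · exfalso
        have h2 := Fw_len _ hn
        have h3 := Fw_len _ hm
        rw [hlinv, h2] at h3
        subst h3
        exact hne (hsame y hy (Fw_unique _ hn hm))
  -- a shortest element
  have hex : ∃ n, ∃ y ∈ H, y ≠ 1 ∧ len y.left = n :=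
    ⟨_, _, hh, fun h2 => h1 (congrArg (fun d : DD W X A => d.left) h2), rfl⟩
  classical
  obtain ⟨y₁, hy₁, hne₁, hl₁⟩ := Nat.find_spec hex
  have hmin : ∀ y ∈ H, y ≠ 1 → len y₁.left ≤ len y.left := by
    intro y hy hne
    rw [hl₁]
    exact Nat.find_min' hex ⟨y, hy, hne, rfl⟩
  obtain ⟨y₀, hy₀, hne₀, hmin₀, hF, hB⟩ : ∃ y₀ ∈ H, y₀ ≠ 1 ∧
      (∀ y ∈ H, y ≠ 1 → len y₀.left ≤ len y.left) ∧ (∃ n, Fw w n β y₀.left) ∧
      ∃ n, Fw w⁻¹ n (cpm A w⁻¹ β⁻¹) y₀⁻¹.left := by
    rcases hdir y₁ hy₁ hne₁ with ⟨h2, h3⟩ | ⟨h2, h3⟩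
    · exact ⟨y₁, hy₁, hne₁, hmin, h2, h3⟩
    · refine ⟨y₁⁻¹, inv_mem hy₁, inv_ne_one.2 hne₁, fun y hy hne => ?_, h3, ?_⟩
      · rw [hlinv]
        exact hmin y hy hne
      · rw [inv_inv]
        exact h2
  have hpos : 0 < len y₀.left := by
    rcases Nat.eq_zero_or_pos (len y₀.left) with h2 | h2
    · exact absurd (hE _ hy₀ (eq_one_of_len h2)) hne₀
    · exact h2
  refine ⟨y₀, hy₀, ?_⟩
  have main : ∀ n : ℕ, ∀ y ∈ H, len y.left ≤ n → y ∈ Subgroup.zpowers y₀ := by
    intro n
    induction n with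
    | zero =>
      intro y hy hn
      rw [hE y hy (eq_one_of_len (Nat.le_zero.1 hn))]
      exact one_mem _
    | succ n ih =>
      intro y hy hn
      by_cases hne : y = 1
      · rw [hne]
        exact one_mem _
      have hle := hmin₀ y hy hne
      rcases hdir y hy hne with ⟨⟨m, hm⟩, _⟩ | ⟨⟨m, hm⟩, _⟩
      · obtain ⟨k, hk⟩ := hF
        have h2 := Fw_len _ hk
        have h3 := Fw_len _ hm
        have h4 := Fw_prefix k (m := m) (by omega) hk hm
        have h5 : len (y₀⁻¹ * y).left ≤ n := by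
          rw [left_inv_mul, len_cpm, h4]
          omega
        have h6 := ih _ (mul_mem (inv_mem hy₀) hy) h5
        have h7 := mul_mem (Subgroup.mem_zpowers y₀) h6
        rwa [mul_inv_cancel_left] at h7
      · obtain ⟨k, hk⟩ := hB
        have h2 := Fw_len _ hk
        have h3 := Fw_len _ hm
        rw [hlinv] at h2
        have h4 := Fw_prefix k (m := m) (by omega) hk hm
        have h5 : len (y₀ * y).left ≤ n := by
          have h6 : y₀ * y = (y₀⁻¹)⁻¹ * y := by rw [inv_inv]
          rw [h6, left_inv_mul, len_cpm, h4]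
          omega
        have h6 := ih _ (mul_mem hy₀ hy) h5
        have h7 := mul_mem (inv_mem (Subgroup.mem_zpowers y₀)) h6
        rwa [inv_mul_cancel_left] at h7
  exact fun y hy => main _ y hy le_rfl

/-- conjugating to a cyclically reduced element -/
theorem exists_CR (n : ℕ) : ∀ h : DD W X A, len h.left ≤ n → ∃ b : CoprodI (fun _ : X => A),
    ((SemidirectProduct.inl b)⁻¹ * h * SemidirectProduct.inl b).left = 1 ∨
    (∃ (x : X) (c : A), ((SemidirectProduct.inl b)⁻¹ * h * SemidirectProduct.inl b).left =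
      ofx A X x c ∧ h.right • x = x) ∨
    (((SemidirectProduct.inl b)⁻¹ * h * SemidirectProduct.inl b).left ≠ 1 ∧
      CR h.right ((SemidirectProduct.inl b)⁻¹ * h * SemidirectProduct.inl b).left) := by
  induction n with
  | zero =>
    intro h hn
    refine ⟨1, Or.inl ?_⟩
    rw [left_conj, inv_one, one_mul, map_one, mul_one]
    exact eq_one_of_len (Nat.le_zero.1 hn)
  | succ n ih =>
    intro h hn
    by_cases h1 : h.left = 1
    · refine ⟨1, Or.inl ?_⟩
      rw [left_conj, inv_one, one_mul, map_one, mul_one, h1]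
    by_cases hCR : CR h.right h.left
    · refine ⟨1, Or.inr (Or.inr ?_)⟩
      rw [left_conj, inv_one, one_mul, map_one, mul_one]
      exact ⟨h1, hCR⟩
    rw [CR] at hCR
    push Not at hCR
    obtain ⟨i, hi, hlst⟩ := hCR
    obtain ⟨a, β', hβ', hβ''⟩ := strip_fst h.left i
    have ha : a ≠ 1 := by
      rintro rfl
      rw [map_one, one_mul] at hβ'
      rw [← hβ'] at hβ''
      exact hβ'' hi
    by_cases h2 : β' = 1
    · refine ⟨1, Or.inr (Or.inl ⟨i, a, ?_, ?_⟩)⟩
      · rw [left_conj, inv_one, one_mul, map_one, mul_one, hβ', h2, mul_one]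
      · rw [hβ', h2, mul_one] at hlst
        have h3 : lst (ofx A X i a) = some i := lst_ofx ha
        exact (Option.some.inj (h3.symm.trans hlst)).symm
    · have h3 : lst β' = some (h.right • i) := by
        rw [hβ'] at hlst
        exact (lst_ofx_mul (A := A) hβ'' h2).symm.trans hlst
      have h4 : ((SemidirectProduct.inl (ofx A X i a) : DD W X A)⁻¹ * h *
          SemidirectProduct.inl (ofx A X i a)).left = β' * ofx A X (h.right • i) a := by
        rw [left_conj, hβ', cpm_of, inv_mul_cancel_left]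
      have h5 : len h.left = 1 + len β' := by
        rw [hβ']
        exact len_ofx_mul ha hβ''
      have h6 : len ((SemidirectProduct.inl (ofx A X i a) : DD W X A)⁻¹ * h *
          SemidirectProduct.inl (ofx A X i a)).left ≤ n := by
        rw [h4]
        have h7 : len (β' * ofx A X (h.right • i) a) ≤ len β' :=
          len_mul_lst (M := fun _ : X => A) (i := h.right • i) h3 a
        omega
      obtain ⟨b, hb⟩ := ih _ h6
      rw [right_conj] at hb
      refine ⟨ofx A X i a * b, ?_⟩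
      have h7 : (SemidirectProduct.inl (ofx A X i a * b) : DD W X A)⁻¹ * h *
          SemidirectProduct.inl (ofx A X i a * b) = (SemidirectProduct.inl b)⁻¹ *
          ((SemidirectProduct.inl (ofx A X i a) : DD W X A)⁻¹ * h *
          SemidirectProduct.inl (ofx A X i a)) * SemidirectProduct.inl b := by
        rw [map_mul]
        group
      rw [h7]
      exact hb

end axis

end Pool.Agent.T2H65.GP
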