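import Pool.Agent.Y110.FJ.Stm

/-!
# Graph products: homomorphisms, inclusions and retractions
-/

set_option autoImplicit false

namespace Pool.Agent.T2H65.GP

open Pool.Agent.Y110.FJ Monoid

variable {V : Type} {Λ : SimpleGraph V} {B : V → Type} [∀ v, Group (B v)]

/-- the homomorphism given by homomorphisms of the vertex groups -/
noncomputable def glift {H : Type} [Group H] (f : ∀ v, B v →* H)
    (hf : ∀ v w, Λ.Adj v w → ∀ (a : B v) (b : B w), f v a * f w b = f w b * f v a) :
    GrP Λ B →* H :=
  QuotientGroup.lift _ (CoprodI.lift f) (by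
    intro x hx
    have h1 : Subgroup.normalClosure (commRel Λ B) ≤ (CoprodI.lift f).ker := by
      apply Subgroup.normalClosure_le_normal
      rintro _ ⟨v, w, a, b, h, rfl⟩
      show CoprodI.lift f _ = 1
      rw [map_mul, map_mul, map_mul, map_inv, map_inv, CoprodI.lift_of, CoprodI.lift_of,
        hf v w h a b]
      group
    exact h1 hx)

@[simp] theorem glift_of {H : Type} [Group H] (f : ∀ v, B v →* H)
    (hf : ∀ v w, Λ.Adj v w → ∀ (a : B v) (b : B w), f v a * f w b = f w b * f v a)
    (v : V) (b : B v) : glift f hf (GrP.of Λ B v b) = f v b := by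
  show CoprodI.lift f (CoprodI.of b) = f v b
  rw [CoprodI.lift_of]

theorem ghom_ext {H : Type} [Group H] {f g : GrP Λ B →* H}
    (h : ∀ v (b : B v), f (GrP.of Λ B v b) = g (GrP.of Λ B v b)) : f = g := by
  apply QuotientGroup.monoidHom_ext
  apply CoprodI.ext_hom
  intro v
  ext b : 1
  exact h v b

theorem of_comm {v w : V} (h : Λ.Adj v w) (a : B v) (b : B w) :
    GrP.of Λ B v a * GrP.of Λ B w b = GrP.of Λ B w b * GrP.of Λ B v a := by
  have h1 : (QuotientGroup.mk' (Subgroup.normalClosure (commRel Λ B)))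
      (CoprodI.of a * CoprodI.of b * (CoprodI.of a)⁻¹ * (CoprodI.of b)⁻¹) = 1 := by
    rw [QuotientGroup.mk'_apply, QuotientGroup.eq_one_iff]
    exact Subgroup.subset_normalClosure ⟨v, w, a, b, h, rfl⟩
  rw [map_mul, map_mul, map_mul, map_inv, map_inv] at h1
  have h2 : GrP.of Λ B v a * GrP.of Λ B w b * (GrP.of Λ B v a)⁻¹ * (GrP.of Λ B w b)⁻¹ = 1 := h1
  rw [mul_inv_eq_one, mul_inv_eq_iff_eq_mul] at h2
  exact h2

/-- induction for elements of a graph product -/
theorem gind {p : GrP Λ B → Prop} (h1 : p 1) (hof : ∀ v (b : B v), p (GrP.of Λ B v b))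
    (hmul : ∀ x y, p x → p y → p (x * y)) (x : GrP Λ B) : p x := by
  obtain ⟨x, rfl⟩ := QuotientGroup.mk'_surjective _ x
  induction x using Monoid.CoprodI.induction_on with
  | one => rw [map_one]; exact h1
  | of i a => exact hof i a
  | mul x y hx hy => rw [map_mul]; exact hmul _ _ hx hy

variable (Λ B)

/-- the vertex group as a subgroup -/
noncomputable abbrev vg (v : V) : Subgroup (GrP Λ B) := (GrP.of Λ B v).range

theorem sup_vg : ⨆ v, vg Λ B v = ⊤ := by
  rw [eq_top_iff]
  intro x _
  refine gind (p := fun x => x ∈ ⨆ v, vg Λ B v) (one_mem _) (fun v b => ?_)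
    (fun x y hx hy => mul_mem hx hy) x
  exact Subgroup.mem_iSup_of_mem v ⟨b, rfl⟩

section sub

variable (p : V → Prop)

/-- the graph product over a set of vertices -/
abbrev GrPs : Type := GrP (Λ.comap (Subtype.val : {v // p v} → V)) (fun w : {v // p v} => B w.1)

/-- the inclusion of the graph product over a set of vertices -/
noncomputable def inc : GrPs Λ B p →* GrP Λ B :=
  glift (fun w => GrP.of Λ B w.1) (fun v w h a b =>
    of_comm (Λ := Λ) (B := B) (v := v.1) (w := w.1) h a b)

@[simp] theorem inc_of (v : V) (h : p v) (b : B v) :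
    inc Λ B p (GrP.of (Λ.comap (Subtype.val : {v // p v} → V))
      (fun w : {v // p v} => B w.1) ⟨v, h⟩ b) = GrP.of Λ B v b := by
  rw [inc, glift_of]

open Classical in
/-- the retraction to the graph product over a set of vertices -/
noncomputable def ret : GrP Λ B →* GrPs Λ B p :=
  glift (fun v => if h : p v then GrP.of (Λ.comap (Subtype.val : {v // p v} → V))
    (fun w : {v // p v} => B w.1) ⟨v, h⟩ else 1) (by
    intro v w h a b
    by_cases hv : p v
    · by_cases hw : p w
      · rw [dif_pos hv, dif_pos hw]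
        exact of_comm (Λ := Λ.comap (Subtype.val : {v // p v} → V))
          (B := fun w : {v // p v} => B w.1) (v := ⟨v, hv⟩) (w := ⟨w, hw⟩) h a b
      · rw [dif_neg hw, MonoidHom.one_apply, one_mul, mul_one]
    · rw [dif_neg hv, MonoidHom.one_apply, one_mul, mul_one])

theorem ret_of (v : V) (h : p v) (b : B v) : ret Λ B p (GrP.of Λ B v b) =
    GrP.of (Λ.comap (Subtype.val : {v // p v} → V)) (fun w : {v // p v} => B w.1) ⟨v, h⟩ b := by
  rw [ret, glift_of, dif_pos h]

theorem ret_of' (v : V) (h : ¬ p v) (b : B v) : ret Λ B p (GrP.of Λ B v b) = 1 := by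
  rw [ret, glift_of, dif_neg h, MonoidHom.one_apply]

theorem ret_inc (x : GrPs Λ B p) : ret Λ B p (inc Λ B p x) = x := by
  have : (ret Λ B p).comp (inc Λ B p) = MonoidHom.id _ := by
    apply ghom_ext
    rintro ⟨v, h⟩ b
    rw [MonoidHom.comp_apply, inc_of, ret_of Λ B p v h, MonoidHom.id_apply]
  exact DFunLike.congr_fun this x

theorem inc_inj : Function.Injective (inc Λ B p) :=
  Function.LeftInverse.injective (ret_inc Λ B p)

/-- the normal closure of the vertex groups outside the set -/
noncomputable abbrev NCl (S : V → Prop) : Subgroup (GrP Λ B) :=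
  Subgroup.normalClosure {x | ∃ v, S v ∧ x ∈ vg Λ B v}

theorem inc_ret_mem (x : GrP Λ B) : (inc Λ B p (ret Λ B p x))⁻¹ * x ∈ NCl Λ B (fun v => ¬ p v) := by
  have : (QuotientGroup.mk' (NCl Λ B (fun v => ¬ p v))).comp ((inc Λ B p).comp (ret Λ B p)) =
      QuotientGroup.mk' (NCl Λ B (fun v => ¬ p v)) := by
    apply ghom_ext
    intro v b
    by_cases h : p v
    · rw [MonoidHom.comp_apply, MonoidHom.comp_apply, ret_of Λ B p v h, inc_of]
    · rw [MonoidHom.comp_apply, MonoidHom.comp_apply, ret_of' Λ B p v h, map_one, map_one]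
      symm
      rw [QuotientGroup.mk'_apply, QuotientGroup.eq_one_iff]
      exact Subgroup.subset_normalClosure ⟨v, h, b, rfl⟩
  have h1 := DFunLike.congr_fun this x
  exact QuotientGroup.eq.1 h1

theorem ker_ret : (ret Λ B p).ker = NCl Λ B (fun v => ¬ p v) := by
  apply le_antisymm
  · intro x hx
    have h1 := inc_ret_mem Λ B p x
    rw [show ret Λ B p x = 1 from hx, map_one, inv_one, one_mul] at h1
    exact h1
  · apply Subgroup.normalClosure_le_normal
    rintro _ ⟨v, h, b, rfl⟩
    exact ret_of' Λ B p v h b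

end sub

end Pool.Agent.T2H65.GP
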