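import Pool.Agent.T2H65.GP.Top

/-!
# The normal closure of a class of vertices
-/

set_option autoImplicit false

namespace Pool.Agent.T2H65.GP

open Pool.Agent.Y110.FJ Monoid
open scoped commutatorElement

section class_prop

variable {V : Type} {Λ : SimpleGraph V}

theorem cls_mod {v0 v u : V} (hv : cls Λ v0 v) (hu : ¬ cls Λ v0 u) : Λ.Adj v u ↔ Λ.Adj v0 u := by
  constructor
  · intro h
    rcases hv.2 u h with h1 | h1
    · subst h1
      exact absurd (cls_refl u) hu
    · exact h1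
  · intro h
    rcases hv.1 u h with h1 | h1
    · subst h1
      exact absurd hv hu
    · exact h1

theorem cls_ci (v0 : V) : (∀ x y, cls Λ v0 x → cls Λ v0 y → x ≠ y → Λ.Adj x y) ∨
    ∀ x y, cls Λ v0 x → cls Λ v0 y → ¬ Λ.Adj x y := by
  by_cases h : ∃ u w, cls Λ v0 u ∧ cls Λ v0 w ∧ Λ.Adj u w
  · left
    obtain ⟨u, w, hu, hw, huw⟩ := h
    have h1 : ∀ x, cls Λ v0 x → x ≠ w → Λ.Adj x w := by
      intro x hx hxw
      exact ((cls_trans (cls_symm hu) hx).1 w huw).resolve_left (fun h => hxw h.symm)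
    intro x y hx hy hxy
    by_cases hxw : x = w
    · subst hxw
      exact (h1 y hy hxy.symm).symm
    · rcases (cls_trans (cls_symm hw) hy).1 x (h1 x hx hxw).symm with h2 | h2
      · exact absurd h2 hxy
      · exact h2.symm
  · right
    intro x y hx hy hxy
    exact h ⟨x, y, hx, hy, hxy⟩

end class_prop

section coll

variable {V : Type} (Λ : SimpleGraph V) (B : V → Type) [∀ v, Group (B v)] (c : V → Prop) (v0 : V)

/-- the graph product of the other vertex groups -/
abbrev Wc : Type := GrPs Λ B (fun w => ¬ c w)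

/-- the graph product of the class -/
abbrev Rc : Type := GrPs Λ B c

/-- the graph product of the vertex groups of the link -/
abbrev Lkc : Type := GrPs Λ B (fun w => ¬ c w ∧ Λ.Adj v0 w)

/-- the inclusion of the graph product of the link -/
noncomputable def tLc : Lkc Λ B c v0 →* Wc Λ B c :=
  (ret Λ B (fun w => ¬ c w)).comp (inc Λ B (fun w => ¬ c w ∧ Λ.Adj v0 w))

theorem tLc_of (w : V) (h : ¬ c w ∧ Λ.Adj v0 w) (b : B w) :
    tLc Λ B c v0 (GrP.of _ (fun u : {w // ¬ c w ∧ Λ.Adj v0 w} => B u.1) ⟨w, h⟩ b) =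
      GrP.of _ (fun u : {w // ¬ c w} => B u.1) ⟨w, h.1⟩ b := by
  rw [tLc, MonoidHom.comp_apply, inc_of, ret_of Λ B (fun w => ¬ c w) w h.1]

theorem inc_tLc (x : Lkc Λ B c v0) : inc Λ B (fun w => ¬ c w) (tLc Λ B c v0 x) =
    inc Λ B (fun w => ¬ c w ∧ Λ.Adj v0 w) x := by
  have : (inc Λ B (fun w => ¬ c w)).comp (tLc Λ B c v0) =
      inc Λ B (fun w => ¬ c w ∧ Λ.Adj v0 w) := by
    apply ghom_ext
    rintro ⟨w, h⟩ b
    rw [MonoidHom.comp_apply, tLc_of Λ B c v0 w h, inc_of, inc_of]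
  exact DFunLike.congr_fun this x

/-- the index set of the factors -/
abbrev Xc : Type := Wc Λ B c ⧸ (tLc Λ B c v0).range

/-- the base point -/
noncomputable abbrev x0c : Xc Λ B c v0 :=
  ((1 : Wc Λ B c) : Wc Λ B c ⧸ (tLc Λ B c v0).range)

variable (hmod : ∀ v u, c v → ¬ c u → (Λ.Adj v u ↔ Λ.Adj v0 u))

include hmod in
theorem conj_Lc {l : Wc Λ B c} (h : l ∈ (tLc Λ B c v0).range) (a : Rc Λ B c) :
    inc Λ B (fun w => ¬ c w) l * inc Λ B c a * (inc Λ B (fun w => ¬ c w) l)⁻¹ = inc Λ B c a := by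
  obtain ⟨y, rfl⟩ := h
  rw [inc_tLc]
  have h1 := std_comm Λ B (T := fun w => ¬ c w ∧ Λ.Adj v0 w) (T' := c)
    (fun t s ht hs => ((hmod s t hs ht.1).2 ht.2).symm)
    (x := inc Λ B (fun w => ¬ c w ∧ Λ.Adj v0 w) y) ⟨y, rfl⟩ (y := inc Λ B c a) ⟨a, rfl⟩
  rw [h1, mul_inv_cancel_right]

include hmod in
theorem conj_eqc {w u : Wc Λ B c} (h : (w : Xc Λ B c v0) = u) (a : Rc Λ B c) :
    inc Λ B (fun w => ¬ c w) w * inc Λ B c a * (inc Λ B (fun w => ¬ c w) w)⁻¹ =
      inc Λ B (fun w => ¬ c w) u * inc Λ B c a * (inc Λ B (fun w => ¬ c w) u)⁻¹ := by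
  have h1 : w⁻¹ * u ∈ (tLc Λ B c v0).range := QuotientGroup.eq.1 h
  have h2 := conj_Lc Λ B c v0 hmod h1 a
  have h3 : inc Λ B (fun w => ¬ c w) u =
      inc Λ B (fun w => ¬ c w) w * inc Λ B (fun w => ¬ c w) (w⁻¹ * u) := by
    rw [← map_mul, mul_inv_cancel_left]
  rw [h3]
  calc _ = inc Λ B (fun w => ¬ c w) w * (inc Λ B (fun w => ¬ c w) (w⁻¹ * u) * inc Λ B c a *
        (inc Λ B (fun w => ¬ c w) (w⁻¹ * u))⁻¹) * (inc Λ B (fun w => ¬ c w) w)⁻¹ := by rw [h2]
    _ = _ := by group

/-- the homomorphism from the free product of the conjugates -/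
noncomputable def kapc : CoprodI (fun _ : Xc Λ B c v0 => Rc Λ B c) →* GrP Λ B :=
  CoprodI.lift fun x => (MulAut.conj (inc Λ B (fun w => ¬ c w) x.out)).toMonoidHom.comp
    (inc Λ B c)

theorem kapc_of (x : Xc Λ B c v0) (a : Rc Λ B c) : kapc Λ B c v0 (ofx (Rc Λ B c) _ x a) =
    inc Λ B (fun w => ¬ c w) x.out * inc Λ B c a * (inc Λ B (fun w => ¬ c w) x.out)⁻¹ := by
  rw [kapc, ofx, CoprodI.lift_of]
  rfl

include hmod in
theorem kapc_of' (w : Wc Λ B c) (a : Rc Λ B c) :
    kapc Λ B c v0 (ofx (Rc Λ B c) _ (w : Xc Λ B c v0) a) =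
      inc Λ B (fun w => ¬ c w) w * inc Λ B c a * (inc Λ B (fun w => ¬ c w) w)⁻¹ := by
  rw [kapc_of]
  exact conj_eqc Λ B c v0 hmod (QuotientGroup.out_eq' _) a

include hmod in
theorem kapc_act (w : Wc Λ B c) (b : CoprodI (fun _ : Xc Λ B c v0 => Rc Λ B c)) :
    kapc Λ B c v0 (cpa (Wc Λ B c) (Xc Λ B c v0) (Rc Λ B c) w b) =
      inc Λ B (fun w => ¬ c w) w * kapc Λ B c v0 b * (inc Λ B (fun w => ¬ c w) w)⁻¹ := by
  have : (kapc Λ B c v0).comp (cpm (Rc Λ B c) w) =
      (MulAut.conj (inc Λ B (fun w => ¬ c w) w)).toMonoidHom.comp (kapc Λ B c v0) := by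
    apply fp_ext
    intro x a
    obtain ⟨u, rfl⟩ := QuotientGroup.mk_surjective x
    rw [MonoidHom.comp_apply, cpm_of]
    show kapc Λ B c v0 (ofx (Rc Λ B c) _ ((w * u : Wc Λ B c) : Xc Λ B c v0) a) =
      inc Λ B (fun w => ¬ c w) w * kapc Λ B c v0 (ofx (Rc Λ B c) _ (u : Xc Λ B c v0) a) *
        (inc Λ B (fun w => ¬ c w) w)⁻¹
    rw [kapc_of' Λ B c v0 hmod, kapc_of' Λ B c v0 hmod, map_mul]
    group
  exact DFunLike.congr_fun this b

/-- the semidirect product -/
abbrev Dc : Type :=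
  CoprodI (fun _ : Xc Λ B c v0 => Rc Λ B c) ⋊[cpa (Wc Λ B c) (Xc Λ B c v0) (Rc Λ B c)] Wc Λ B c

/-- the homomorphism from the semidirect product -/
noncomputable def Psic : Dc Λ B c v0 →* GrP Λ B :=
  SemidirectProduct.lift (kapc Λ B c v0) (inc Λ B (fun w => ¬ c w)) (fun w =>
    MonoidHom.ext fun b => kapc_act Λ B c v0 hmod w b)

theorem Psic_inl (b : CoprodI (fun _ : Xc Λ B c v0 => Rc Λ B c)) :
    Psic Λ B c v0 hmod (SemidirectProduct.inl b) = kapc Λ B c v0 b := by
  rw [Psic, SemidirectProduct.lift_inl]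

theorem Psic_inr (w : Wc Λ B c) : Psic Λ B c v0 hmod (SemidirectProduct.inr w) =
    inc Λ B (fun w => ¬ c w) w := by
  rw [Psic, SemidirectProduct.lift_inr]

theorem fix0c {l : Wc Λ B c} (h : l ∈ (tLc Λ B c v0).range) : l • x0c Λ B c v0 = x0c Λ B c v0 := by
  show ((l * 1 : Wc Λ B c) : Xc Λ B c v0) = ((1 : Wc Λ B c) : Xc Λ B c v0)
  rw [mul_one]
  symm
  rw [QuotientGroup.eq, inv_one, one_mul]
  exact h

theorem comm0c {l : Wc Λ B c} (h : l ∈ (tLc Λ B c v0).range) (a : Rc Λ B c) :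
    (SemidirectProduct.inr l * SemidirectProduct.inl (ofx (Rc Λ B c) _ (x0c Λ B c v0) a) :
      Dc Λ B c v0) =
      SemidirectProduct.inl (ofx (Rc Λ B c) _ (x0c Λ B c v0) a) * SemidirectProduct.inr l := by
  have h1 := SemidirectProduct.inl_aut (φ := cpa (Wc Λ B c) (Xc Λ B c v0) (Rc Λ B c)) l
    (ofx (Rc Λ B c) _ (x0c Λ B c v0) a)
  rw [cpa_apply, cpm_of, ofx_congr (Rc Λ B c) (fix0c Λ B c v0 h)] at h1
  rw [map_inv, eq_mul_inv_iff_mul_eq] at h1
  exact h1.symm

open Classical in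
/-- the homomorphism to the semidirect product -/
noncomputable def Phic : GrP Λ B →* Dc Λ B c v0 :=
  glift (fun u => if h : c u then
      (SemidirectProduct.inl.comp (ofx (Rc Λ B c) _ (x0c Λ B c v0))).comp
        (GrP.of (Λ.comap (Subtype.val : {w // c w} → V)) (fun u : {w // c w} => B u.1) ⟨u, h⟩)
    else SemidirectProduct.inr.comp
      (GrP.of (Λ.comap (Subtype.val : {w // ¬ c w} → V)) (fun u : {w // ¬ c w} => B u.1) ⟨u, h⟩)) (by
    intro u w h a b
    by_cases hu : c u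
    · rw [dif_pos hu]
      by_cases hw : c w
      · rw [dif_pos hw]
        have h1 := of_comm (Λ := Λ.comap (Subtype.val : {w // c w} → V))
          (B := fun w : {w // c w} => B w.1) (v := ⟨u, hu⟩) (w := ⟨w, hw⟩) h a b
        obtain ⟨F, hF⟩ : ∃ F : Rc Λ B c →* Dc Λ B c v0, F =
          SemidirectProduct.inl.comp (ofx (Rc Λ B c) _ (x0c Λ B c v0)) := ⟨_, rfl⟩
        rw [← hF, MonoidHom.comp_apply, MonoidHom.comp_apply, ← map_mul, h1, map_mul]
      · rw [dif_neg hw]
        refine (comm0c Λ B c v0 ⟨_, tLc_of Λ B c v0 w ⟨hw, (hmod u w hu hw).1 h⟩ b⟩ _).symm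
    · rw [dif_neg hu]
      by_cases hw : c w
      · rw [dif_pos hw]
        exact comm0c Λ B c v0 ⟨_, tLc_of Λ B c v0 u ⟨hu, (hmod w u hw hu).1 h.symm⟩ a⟩ _
      · rw [dif_neg hw]
        have h1 := of_comm (Λ := Λ.comap (Subtype.val : {w // ¬ c w} → V))
          (B := fun w : {w // ¬ c w} => B w.1) (v := ⟨u, hu⟩) (w := ⟨w, hw⟩) h a b
        rw [MonoidHom.comp_apply, MonoidHom.comp_apply, ← map_mul, h1, map_mul])

theorem Phic_incc (a : Rc Λ B c) : Phic Λ B c v0 hmod (inc Λ B c a) =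
    SemidirectProduct.inl (ofx (Rc Λ B c) _ (x0c Λ B c v0) a) := by
  have : (Phic Λ B c v0 hmod).comp (inc Λ B c) =
      SemidirectProduct.inl.comp (ofx (Rc Λ B c) _ (x0c Λ B c v0)) := by
    apply ghom_ext
    rintro ⟨u, h⟩ b
    rw [MonoidHom.comp_apply, inc_of, Phic, glift_of, dif_pos h]
    rfl
  exact DFunLike.congr_fun this a

theorem Phic_inc (w : Wc Λ B c) : Phic Λ B c v0 hmod (inc Λ B (fun w => ¬ c w) w) =
    SemidirectProduct.inr w := by
  have : (Phic Λ B c v0 hmod).comp (inc Λ B (fun w => ¬ c w)) = SemidirectProduct.inr := by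
    apply ghom_ext
    rintro ⟨u, h⟩ b
    rw [MonoidHom.comp_apply, inc_of, Phic, glift_of, dif_neg h]
    rfl
  exact DFunLike.congr_fun this w

theorem Phic_Psic (d : Dc Λ B c v0) : Phic Λ B c v0 hmod (Psic Λ B c v0 hmod d) = d := by
  have : (Phic Λ B c v0 hmod).comp (Psic Λ B c v0 hmod) = MonoidHom.id _ := by
    apply SemidirectProduct.hom_ext
    · apply fp_ext
      intro x a
      show Phic Λ B c v0 hmod (Psic Λ B c v0 hmod (SemidirectProduct.inl (ofx (Rc Λ B c) _ x a))) =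
        SemidirectProduct.inl (ofx (Rc Λ B c) _ x a)
      rw [Psic_inl, kapc_of, map_mul, map_mul, map_inv, Phic_inc, Phic_incc, ← map_inv,
        ← SemidirectProduct.inl_aut, cpa_apply, cpm_of]
      congr 1
      apply ofx_congr
      show ((x.out * 1 : Wc Λ B c) : Xc Λ B c v0) = x
      rw [mul_one]
      exact QuotientGroup.out_eq' x
    · refine MonoidHom.ext fun w => ?_
      show Phic Λ B c v0 hmod (Psic Λ B c v0 hmod (SemidirectProduct.inr w)) =
        SemidirectProduct.inr w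
      rw [Psic_inr, Phic_inc]
  exact DFunLike.congr_fun this d

theorem Psic_Phic (x : GrP Λ B) : Psic Λ B c v0 hmod (Phic Λ B c v0 hmod x) = x := by
  have : (Psic Λ B c v0 hmod).comp (Phic Λ B c v0 hmod) = MonoidHom.id _ := by
    apply ghom_ext
    intro w b
    rw [MonoidHom.comp_apply, MonoidHom.id_apply]
    by_cases h : c w
    · have h1 := Phic_incc Λ B c v0 hmod (GrP.of _ (fun u : {w // c w} => B u.1) ⟨w, h⟩ b)
      rw [inc_of] at h1
      rw [h1, Psic_inl, kapc_of' Λ B c v0 hmod, map_one, one_mul, inv_one, mul_one, inc_of]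
    · have h1 := Phic_inc Λ B c v0 hmod (GrP.of _ (fun u : {w // ¬ c w} => B u.1) ⟨w, h⟩ b)
      rw [inc_of] at h1
      rw [h1, Psic_inr, inc_of]
  exact DFunLike.congr_fun this x

theorem Phic_right (x : GrP Λ B) : (Phic Λ B c v0 hmod x).right =
    ret Λ B (fun w => ¬ c w) x := by
  have : (SemidirectProduct.rightHom.comp (Phic Λ B c v0 hmod)) = ret Λ B (fun w => ¬ c w) := by
    apply ghom_ext
    intro w b
    rw [MonoidHom.comp_apply]
    by_cases h : c w
    · have h1 := Phic_incc Λ B c v0 hmod (GrP.of _ (fun u : {w // c w} => B u.1) ⟨w, h⟩ b)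
      rw [inc_of] at h1
      rw [h1, SemidirectProduct.rightHom_inl, ret_of' Λ B _ w (not_not.2 h)]
    · have h1 := Phic_inc Λ B c v0 hmod (GrP.of _ (fun u : {w // ¬ c w} => B u.1) ⟨w, h⟩ b)
      rw [inc_of] at h1
      rw [h1, SemidirectProduct.rightHom_inr, ret_of Λ B _ w h]
  exact DFunLike.congr_fun this x

include hmod in
theorem kapc_inj : Function.Injective (kapc Λ B c v0) := by
  intro a b hab
  rw [← Psic_inl Λ B c v0 hmod, ← Psic_inl Λ B c v0 hmod] at hab
  exact SemidirectProduct.inl_injective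
    ((Function.LeftInverse.injective (Phic_Psic Λ B c v0 hmod)) hab)

include hmod in
theorem kapc_range : (kapc Λ B c v0).range = NCl Λ B c := by
  have h0 : NCl Λ B c = (ret Λ B (fun w => ¬ c w)).ker := by
    rw [ker_ret]
    congr 1
    ext x
    simp only [not_not]
  rw [h0]
  apply le_antisymm
  · rintro _ ⟨b, rfl⟩
    show ret Λ B (fun w => ¬ c w) (kapc Λ B c v0 b) = 1
    rw [← Phic_right Λ B c v0 hmod, ← Psic_inl Λ B c v0 hmod, Phic_Psic]
    rfl
  · intro x hx
    refine ⟨(Phic Λ B c v0 hmod x).left, ?_⟩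
    have h1 : (Phic Λ B c v0 hmod x).right = 1 := by
      rw [Phic_right]
      exact hx
    have h2 : SemidirectProduct.inl (Phic Λ B c v0 hmod x).left = Phic Λ B c v0 hmod x := by
      apply SemidirectProduct.ext
      · rfl
      · exact h1.symm
    rw [← Psic_inl Λ B c v0 hmod, h2, Psic_Phic]

end coll

/-! ### the structure of the normal closure -/

section struct

theorem free_Z : IsFreeGroup (Multiplicative ℤ) :=
  IsFreeGroup.ofMulEquiv (FreeGroup.mulEquivIntOfUnique (α := Unit))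

/-- graph products of free groups without edges are free -/
theorem free_edgeless {V : Type} (Λ : SimpleGraph V) (B : V → Type) [∀ v, Group (B v)]
    (hB : ∀ v, IsFreeGroup (B v)) (h : ∀ v w, ¬ Λ.Adj v w) : IsFreeGroup (GrP Λ B) := by
  have h1 : commRel Λ B = ∅ := by
    rw [Set.eq_empty_iff_forall_notMem]
    rintro _ ⟨v, w, a, b, hvw, _⟩
    exact h v w hvw
  have h2 : Subgroup.normalClosure (commRel Λ B) = ⊥ := by
    rw [h1, eq_bot_iff]
    exact Subgroup.normalClosure_le_normal (Set.empty_subset _)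
  have h3 : Function.Bijective (QuotientGroup.mk' (Subgroup.normalClosure (commRel Λ B))) := by
    refine ⟨?_, QuotientGroup.mk'_surjective _⟩
    rw [← MonoidHom.ker_eq_bot_iff, QuotientGroup.ker_mk', h2]
  have h4 : IsFreeGroup (CoprodI B) := by
    have := hB
    infer_instance
  exact IsFreeGroup.ofMulEquiv (MulEquiv.ofBijective _ h3)

/-- graph products of abelian groups over complete graphs are abelian -/
theorem comm_complete {V : Type} (Λ : SimpleGraph V) (B : V → Type) [∀ v, Group (B v)]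
    (hB : ∀ v, ∀ a b : B v, a * b = b * a) (h : ∀ v w, v ≠ w → Λ.Adj v w) (x y : GrP Λ B) :
    x * y = y * x := by
  have h1 : ∀ v w (a : B v) (b : B w), GrP.of Λ B v a * GrP.of Λ B w b =
      GrP.of Λ B w b * GrP.of Λ B v a := by
    intro v w a b
    by_cases hvw : v = w
    · subst hvw
      rw [← map_mul, hB v, map_mul]
    · exact of_comm (h v w hvw) a b
  refine gind (p := fun x => x * y = y * x) (by rw [one_mul, mul_one]) (fun v a => ?_)
    (fun x z hx hz => by rw [mul_assoc, hz, ← mul_assoc, hx, mul_assoc]) x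
  refine gind (p := fun y => GrP.of Λ B v a * y = y * GrP.of Λ B v a)
    (by rw [one_mul, mul_one]) (fun w b => h1 v w a b)
    (fun x z hx hz => by rw [← mul_assoc, hx, mul_assoc, hz, mul_assoc]) y

/-- commutator subgroups of free products of abelian groups are free -/
theorem free_comm {X R : Type} [Group R] (hR : ∀ a b : R, a * b = b * a) :
    IsFreeGroup (commutator (CoprodI (fun _ : X => R))) := by
  classical
  let f : CoprodI (fun _ : X => R) →* (X → R) :=
    CoprodI.lift fun x => MonoidHom.mulSingle (fun _ : X => R) x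
  have hf : ∀ x, Function.Injective (f.comp (CoprodI.of (M := fun _ : X => R) (i := x))) := by
    intro x a b hab
    have h1 : f (CoprodI.of (M := fun _ : X => R) (i := x) a) =
        f (CoprodI.of (M := fun _ : X => R) (i := x) b) := hab
    rw [CoprodI.lift_of, CoprodI.lift_of] at h1
    exact Pi.mulSingle_injective (M := fun _ : X => R) x h1
  have h1 : IsFreeGroup f.ker := Pool.Agent.R684.FP.ker_free f hf
  have h2 : commutator (CoprodI (fun _ : X => R)) ≤ f.ker := by
    rw [commutator_def, Subgroup.commutator_le]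
    intro x _ y _
    show f ⁅x, y⁆ = 1
    rw [commutatorElement_def, map_mul, map_mul, map_mul, map_inv, map_inv]
    have h3 : f x * f y = f y * f x := by
      funext z
      exact hR _ _
    rw [h3]
    group
  have h3 : IsFreeGroup ((commutator (CoprodI (fun _ : X => R))).subgroupOf f.ker) :=
    inferInstance
  exact IsFreeGroup.ofMulEquiv (Subgroup.subgroupOfEquivOfLe h2)

/-- **the normal closure of a class is free or has a free commutator subgroup** -/
theorem struct {V : Type} (Λ : SimpleGraph V) (B : V → Type) [∀ v, Group (B v)]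
    (e : ∀ v, B v ≃* Multiplicative ℤ) (v0 : V) :
    IsFreeGroup (NCl Λ B (cls Λ v0)) ∨ IsFreeGroup (commutator (NCl Λ B (cls Λ v0))) := by
  have hmod : ∀ v u, cls Λ v0 v → ¬ cls Λ v0 u → (Λ.Adj v u ↔ Λ.Adj v0 u) :=
    fun v u hv hu => cls_mod hv hu
  have E : CoprodI (fun _ : Xc Λ B (cls Λ v0) v0 => Rc Λ B (cls Λ v0)) ≃* NCl Λ B (cls Λ v0) :=
    (MonoidHom.ofInjective (kapc_inj Λ B (cls Λ v0) v0 hmod)).trans
      (MulEquiv.subgroupCongr (kapc_range Λ B (cls Λ v0) v0 hmod))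
  rcases cls_ci (Λ := Λ) v0 with h | h
  · right
    have h1 : ∀ a b : Rc Λ B (cls Λ v0), a * b = b * a := by
      apply comm_complete
      · intro v a b
        apply (e v.1).injective
        rw [map_mul, map_mul, mul_comm]
      · intro v w hvw
        exact h v.1 w.1 v.2 w.2 (fun h2 => hvw (Subtype.ext h2))
    have h2 := free_comm (X := Xc Λ B (cls Λ v0) v0) h1
    have h3 : (commutator (CoprodI (fun _ : Xc Λ B (cls Λ v0) v0 => Rc Λ B (cls Λ v0)))).map
        E.toMonoidHom = commutator (NCl Λ B (cls Λ v0)) := by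
      rw [commutator_def, Subgroup.map_commutator, ← MonoidHom.range_eq_map,
        MonoidHom.range_eq_top.2 E.surjective]
      rfl
    have h4 := IsFreeGroup.ofMulEquiv ((commutator (CoprodI (fun _ : Xc Λ B (cls Λ v0) v0 =>
      Rc Λ B (cls Λ v0)))).equivMapOfInjective E.toMonoidHom E.injective)
    rw [h3] at h4
    exact h4
  · left
    have h1 : IsFreeGroup (Rc Λ B (cls Λ v0)) := by
      apply free_edgeless
      · intro v
        have := free_Z
        exact IsFreeGroup.ofMulEquiv (e v.1).symm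
      · intro v w hvw
        exact h v.1 w.1 v.2 w.2 hvw
    have h2 : IsFreeGroup (CoprodI (fun _ : Xc Λ B (cls Λ v0) v0 => Rc Λ B (cls Λ v0))) := by
      infer_instance
    exact IsFreeGroup.ofMulEquiv E

end struct

end Pool.Agent.T2H65.GP
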