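import Pool.Agent.T2H65.GP.Step

/-!
# Extensions whose kernel is a graph product: the case of invariant classes
-/

set_option autoImplicit false

namespace Pool.Agent.T2H65.GP

open Pool.Agent.Y110.FJ Monoid
open Pool.Agent.R684.FP
open Pool.Agent.R941.FJ (C_equiv C_le C_cyc mem_sup_normal)
open Pool.Agent.Y529.FJ (up)

section vret

variable {V : Type} (Λ : SimpleGraph V) (B : V → Type) [∀ v, Group (B v)]

open Classical in
/-- the retraction to a vertex group -/
noncomputable def vret (v : V) : GrP Λ B →* B v :=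
  glift (fun u => if h : u = v then vcast B v h else 1) (by
    intro u w h a b
    by_cases hu : u = v
    · have hw : ¬ w = v := fun hw => h.ne (hu.trans hw.symm)
      rw [dif_neg hw, MonoidHom.one_apply, one_mul, mul_one]
    · rw [dif_neg hu, MonoidHom.one_apply, one_mul, mul_one])

theorem vret_of (v : V) (b : B v) : vret Λ B v (GrP.of Λ B v b) = b := by
  rw [vret, glift_of, dif_pos rfl]
  rfl

theorem vret_of' (v : V) {w : V} (h : w ≠ v) (b : B w) : vret Λ B v (GrP.of Λ B w b) = 1 := by
  rw [vret, glift_of, dif_neg h]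
  rfl

theorem of_inj (v : V) : Function.Injective (GrP.of Λ B v) :=
  Function.LeftInverse.injective (vret_of Λ B v)

/-- the vertex group and its image -/
noncomputable def eAv {G : Type} [Group G] (j : GrP Λ B →* G) (hj : Function.Injective j) (v : V) :
    B v ≃* Av Λ B j v :=
  (MonoidHom.ofInjective (of_inj Λ B v)).trans ((vg Λ B v).equivMapOfInjective j hj)

theorem vg_inc (p : V → Prop) (w : {v // p v}) :
    (vg (Λ.comap (Subtype.val : {v // p v} → V)) (fun w : {v // p v} => B w.1) w).map
      (inc Λ B p) = vg Λ B w.1 := by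
  rw [← MonoidHom.range_comp]
  congr 1

end vret

section core

variable {C : ∀ (G : Type) [Group G], Prop}

/-- normality of the image of the kernel -/
theorem norm {V : Type} (Λ : SimpleGraph V) (B : V → Type) [∀ v, Group (B v)] (S : V → Prop)
    {G : Type} [Group G] (j : GrP Λ B →* G)
    (hv : ∀ v, S v → ∀ g : G, ∃ w, S w ∧ ∃ p, ∀ x, x ∈ Av Λ B j v →
      j p * g * x * (j p * g)⁻¹ ∈ Av Λ B j w) :
    ((NCl Λ B S).map j).Normal := by
  refine ⟨fun x hx g => ?_⟩
  obtain ⟨y, hy, rfl⟩ := hx
  have h1 : NCl Λ B S ≤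
      (((NCl Λ B S).map j).comap (MulAut.conj g).toMonoidHom).comap j := by
    show Subgroup.closure (Group.conjugatesOfSet _) ≤ _
    rw [Subgroup.closure_le]
    intro z hz
    rw [Group.mem_conjugatesOfSet_iff] at hz
    obtain ⟨a, ⟨v, hS, ha⟩, hc⟩ := hz
    rw [isConj_iff] at hc
    obtain ⟨c, rfl⟩ := hc
    obtain ⟨w, hw, p, hp⟩ := hv v hS (g * j c)
    show g * j (c * a * c⁻¹) * g⁻¹ ∈ (NCl Λ B S).map j
    obtain ⟨b, hb, hb'⟩ := hp (j a) ⟨a, ha, rfl⟩
    refine ⟨p⁻¹ * b * p⁻¹⁻¹, ?_, ?_⟩
    · exact Subgroup.Normal.conj_mem (inferInstanceAs (NCl Λ B S).Normal) b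
        (Subgroup.subset_normalClosure (show b ∈ {x | ∃ v, S v ∧ x ∈ vg Λ B v} from
          ⟨w, hw, hb⟩)) p⁻¹
    · rw [map_mul, map_mul, map_inv, map_inv, hb', map_mul, map_mul, map_inv, map_inv]
      group
  exact h1 hy

/-- the elements of a subgroup `A ⟨h⟩` in a quotient -/
theorem cyc_quot (hC : ClosedE C) {G G' : Type} [Group G] [Group G'] (f : G →* G') (A : Subgroup G)
    (h : G) (hN : Nz h A) (hA : ∀ a ∈ A, f a = 1 → a = 1) (hc : C ↥(A ⊔ Subgroup.zpowers h)) :
    C ↥(A.map f ⊔ Subgroup.zpowers (f h)) := by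
  by_cases hn : ∃ n : ℕ, 0 < n ∧ (f h) ^ n ∈ A.map f
  · obtain ⟨n, hn0, hn⟩ := hn
    refine up hC.base le_sup_left ((hN.map f).relIndex hn0 hn) ?_
    have h1 : Function.Injective (f.subgroupMap A) := by
      rw [injective_iff_map_eq_one]
      intro a ha
      exact Subtype.ext (hA a a.2 (congrArg Subtype.val ha))
    exact C_equiv hC.base (MulEquiv.ofBijective (f.subgroupMap A)
      ⟨h1, f.subgroupMap_surjective A⟩).symm (C_le hC.base le_sup_left hc)
  · have h1 : Function.Injective (f.subgroupMap (A ⊔ Subgroup.zpowers h)) := by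
      rw [injective_iff_map_eq_one]
      rintro ⟨y, hy⟩ hy1
      have hy2 : f y = 1 := congrArg Subtype.val hy1
      obtain ⟨a, ha, n, rfl⟩ := hN.mem_sup.1 hy
      have h2 : (f h) ^ n ∈ A.map f := by
        have : (f h) ^ n = (f a)⁻¹ := by
          rw [map_mul, map_zpow] at hy2
          exact (inv_eq_of_mul_eq_one_right hy2).symm
        rw [this]
        exact inv_mem ⟨a, ha, rfl⟩
      have h3 : n = 0 := by
        by_contra hne
        apply hn
        rcases lt_or_gt_of_ne hne with h4 | h4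
        · refine ⟨(-n).toNat, by omega, ?_⟩
          have h5 : (f h) ^ (-n).toNat = ((f h) ^ n)⁻¹ := by
            rw [← zpow_natCast, Int.toNat_of_nonneg (by omega), zpow_neg]
          rw [h5]
          exact inv_mem h2
        · refine ⟨n.toNat, by omega, ?_⟩
          have h5 : (f h) ^ n.toNat = (f h) ^ n := by
            rw [← zpow_natCast, Int.toNat_of_nonneg (by omega)]
          rw [h5]
          exact h2
      subst h3
      rw [zpow_zero, mul_one] at hy2
      apply Subtype.ext
      show a * h ^ (0 : ℤ) = 1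
      rw [zpow_zero, mul_one]
      exact hA a ha hy2
    have h2 : A.map f ⊔ Subgroup.zpowers (f h) = (A ⊔ Subgroup.zpowers h).map f := by
      rw [Subgroup.map_sup, MonoidHom.map_zpowers]
    rw [h2]
    exact C_equiv hC.base (MulEquiv.ofBijective (f.subgroupMap (A ⊔ Subgroup.zpowers h))
      ⟨h1, f.subgroupMap_surjective _⟩).symm hc

/-- **the case of invariant classes** -/
theorem core (hC : ClosedE C) (hF : FbC C) (n : ℕ) : ∀ (V : Type) [Finite V] (Λ : SimpleGraph V)
    (B : V → Type) [∀ v, Group (B v)] (G Q : Type) [Group G] [Group Q] (j : GrP Λ B →* G)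
    (_ : Function.Injective j) (S : V → Prop) (_ : {v | S v}.ncard = n)
    (_ : ∀ v, S v → ∀ g : G, ∃ p, Nz (j p * g) (Av Λ B j v))
    (_ : ∀ v, S v → ∀ g : G, Nz g (Av Λ B j v) → C ↥(Av Λ B j v ⊔ Subgroup.zpowers g))
    (π : G →* Q) (_ : Function.Surjective π) (_ : π.ker = (NCl Λ B S).map j) (_ : C Q), C G := by
  induction n with
  | zero =>
    intro V _ Λ B _ G Q _ _ j hj S hS _ _ π _ hker hQ
    have h1 : {v | S v} = ∅ := (Set.ncard_eq_zero (Set.toFinite _)).1 hS
    have h2 : NCl Λ B S = ⊥ := by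
      rw [eq_bot_iff]
      apply Subgroup.normalClosure_le_normal
      rintro x ⟨v, hv, _⟩
      have : v ∈ {v | S v} := hv
      rw [h1] at this
      exact absurd this (Set.notMem_empty v)
    rw [h2, Subgroup.map_bot] at hker
    exact hC.base.of_injective G Q π ((MonoidHom.ker_eq_bot_iff π).1 hker) hQ
  | succ n ih =>
    intro V _ Λ B _ G Q _ _ j hj S hS hv hcyc π hπ hker hQ
    have hne : {v | S v}.Nonempty := by
      rw [← Set.ncard_pos (Set.toFinite _)]
      omega
    obtain ⟨v, hSv⟩ := hne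
    have hSv : S v := hSv
    obtain ⟨M, hM⟩ : ∃ M : Subgroup G, M = (ret Λ B (fun w => w ≠ v)).ker.map j := ⟨_, rfl⟩
    have hMn : M.Normal := by
      rw [hM, ker_ret]
      apply norm
      intro u hu g
      have hu' := not_not.1 hu
      subst hu'
      obtain ⟨p, hp⟩ := hv u hSv g
      exact ⟨u, hu, p, fun x hx => (hp x).1 hx⟩
    have hmk : ∀ p, QuotientGroup.mk' M (j p) =
        QuotientGroup.mk' M (j (inc Λ B _ (ret Λ B (fun w => w ≠ v) p))) := by
      intro p
      symm
      rw [QuotientGroup.mk'_apply, QuotientGroup.mk'_apply, QuotientGroup.eq, ← map_inv,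
        ← map_mul, hM]
      refine ⟨_, ?_, rfl⟩
      show ret Λ B _ _ = 1
      rw [map_mul, map_inv, ret_inc, inv_mul_cancel]
    refine step Λ B hC hF v j hj (hv v hSv) (hcyc v hSv) (QuotientGroup.mk' M)
      (QuotientGroup.mk'_surjective M) (by rw [QuotientGroup.ker_mk', hM]) ?_
    -- the quotient
    obtain ⟨j', hj'⟩ : ∃ j' : Wv Λ B v →* G ⧸ M,
        j' = (QuotientGroup.mk' M).comp (j.comp (inc Λ B (fun w => w ≠ v))) := ⟨_, rfl⟩
    have hj'a : ∀ x, j' x = QuotientGroup.mk' M (j (inc Λ B _ x)) := fun x => by rw [hj']; rfl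
    have hmk' : ∀ p, QuotientGroup.mk' M (j p) = j' (ret Λ B (fun w => w ≠ v) p) := fun p => by
      rw [hmk, hj'a]
    have hinj' : Function.Injective j' := by
      rw [injective_iff_map_eq_one]
      intro x hx
      rw [hj'a] at hx
      have h1 : j (inc Λ B _ x) ∈ M := (QuotientGroup.eq_one_iff _).1 hx
      rw [hM] at h1
      obtain ⟨y, hy, hyx⟩ := h1
      have h2 := hj hyx
      have h3 : ret Λ B _ y = 1 := hy
      rwa [h2, ret_inc] at h3
    have hAv : ∀ w : {w // w ≠ v}, Av (Λ.comap (Subtype.val : {w // w ≠ v} → V))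
        (fun w : {w // w ≠ v} => B w.1) j' w = (Av Λ B j w.1).map (QuotientGroup.mk' M) := by
      intro w
      rw [Av, hj', ← Subgroup.map_map, ← Subgroup.map_map, vg_inc]
    have hle : M ≤ π.ker := by
      rw [hM, hker, ker_ret]
      apply Subgroup.map_mono
      apply Subgroup.normalClosure_mono
      rintro x ⟨u, hu, hx⟩
      have hu' := not_not.1 hu
      subst hu'
      exact ⟨u, hSv, hx⟩
    refine ih {w // w ≠ v} (Λ.comap (Subtype.val : {w // w ≠ v} → V))
      (fun w : {w // w ≠ v} => B w.1) (G ⧸ M) Q j' hinj' (fun w => S w.1) ?_ ?_ ?_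
      (QuotientGroup.lift M π hle) ?_ ?_ hQ
    · have h1 : {v | S v} = insert v ((Subtype.val : {w // w ≠ v} → V) '' {w | S w.1}) := by
        ext u
        constructor
        · intro hu
          by_cases huv : u = v
          · exact Or.inl huv
          · exact Or.inr ⟨⟨u, huv⟩, hu, rfl⟩
        · rintro (rfl | ⟨w, hw, rfl⟩)
          · exact hSv
          · exact hw
      have h2 : v ∉ ((Subtype.val : {w // w ≠ v} → V) '' {w | S w.1}) := by
        rintro ⟨w, _, hw⟩
        exact w.2 hw
      rw [h1, Set.ncard_insert_of_notMem h2 (Set.toFinite _),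
        Set.ncard_image_of_injective _ Subtype.val_injective] at hS
      omega
    · intro w hw g'
      obtain ⟨g, rfl⟩ := QuotientGroup.mk'_surjective M g'
      obtain ⟨p, hp⟩ := hv w.1 hw g
      refine ⟨ret Λ B _ p, ?_⟩
      rw [hAv, ← hmk', ← map_mul]
      exact hp.map _
    · intro w hw g' hg'
      obtain ⟨g, rfl⟩ := QuotientGroup.mk'_surjective M g'
      obtain ⟨p, hp⟩ := hv w.1 hw g
      have h1 : Nz (j' (ret Λ B _ p)) (Av (Λ.comap (Subtype.val : {w // w ≠ v} → V))
          (fun w : {w // w ≠ v} => B w.1) j' w) := by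
        have h2 : Nz (j' (ret Λ B _ p) * QuotientGroup.mk' M g)
            (Av (Λ.comap (Subtype.val : {w // w ≠ v} → V))
              (fun w : {w // w ≠ v} => B w.1) j' w) := by
          rw [hAv, ← hmk', ← map_mul]
          exact hp.map _
        have h3 := h2.mul hg'.inv
        rwa [mul_inv_cancel_right] at h3
      have h2 := (((Nz.of_map j' hinj' h1).map (inc Λ B (fun w => w ≠ v))).map j)
      rw [vg_inc] at h2
      have h3 := h2.inv.mul hp
      have h4 : QuotientGroup.mk' M ((j (inc Λ B (fun w => w ≠ v)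
          (ret Λ B (fun w => w ≠ v) p)))⁻¹ * (j p * g)) = QuotientGroup.mk' M g := by
        rw [map_mul, map_mul, map_inv, hmk p, inv_mul_cancel_left]
      rw [hAv, ← h4]
      refine cyc_quot hC _ _ _ h3 ?_ (hcyc w.1 hw _ h3)
      rintro _ ⟨_, ⟨b, rfl⟩, rfl⟩ ha
      rw [hmk', ret_of Λ B (fun w => w ≠ v) w.1 w.2] at ha
      have h5 := hinj' (ha.trans (map_one j').symm)
      have h6 := of_inj (Λ.comap (Subtype.val : {w // w ≠ v} → V))
        (fun w : {w // w ≠ v} => B w.1) w (h5.trans (map_one _).symm)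
      rw [h6, map_one, map_one]
    · exact QuotientGroup.lift_surjective_of_surjective _ _ hπ _
    · rw [QuotientGroup.ker_lift, hker, Subgroup.map_map]
      have h1 : (QuotientGroup.mk' M).comp j = j'.comp (ret Λ B (fun w => w ≠ v)) :=
        MonoidHom.ext hmk'
      rw [h1, ← Subgroup.map_map]
      congr 1
      rw [NCl, Subgroup.map_normalClosure _ _ (Function.RightInverse.surjective (ret_inc Λ B _))]
      apply le_antisymm
      · apply Subgroup.normalClosure_le_normal
        rintro _ ⟨_, ⟨u, hu, b, rfl⟩, rfl⟩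
        by_cases huv : u = v
        · subst huv
          rw [ret_of' Λ B _ _ (fun h => h rfl)]
          exact one_mem _
        · rw [ret_of Λ B (fun w => w ≠ v) u huv]
          exact Subgroup.subset_normalClosure ⟨⟨u, huv⟩, hu, b, rfl⟩
      · apply Subgroup.normalClosure_le_normal
        rintro _ ⟨w, hw, b, rfl⟩
        refine Subgroup.subset_normalClosure ⟨GrP.of Λ B w.1 b, ⟨w.1, hw, b, rfl⟩, ?_⟩
        exact ret_of Λ B (fun w => w ≠ v) w.1 w.2 b

end core

end Pool.Agent.T2H65.GP
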