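import Pool.Agent.T2H65.GP.Act
import Pool.Agent.R701.FreeProd

/-!
# Bounded subgroups of the semidirect product of a free product and a group permuting its factors
-/

set_option autoImplicit false

namespace Pool.Agent.T2H65.GP

open Monoid
open Pool.Agent.R701.FreeProd

section cpmlen

variable {W X : Type} [Group W] [MulAction W X] (A : Type) [Group A]

theorem wd_cpm (w : W) (b : CoprodI (fun _ : X => A)) :
    wd (cpm A w b) = (wd b).map fun l => (⟨w • l.1, l.2⟩ : Σ _ : X, A) := by
  obtain ⟨v, hv, e⟩ := exists_word b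
  let v' : CoprodI.Word (fun _ : X => A) :=
    { toList := v.toList.map fun l => (⟨w • l.1, l.2⟩ : Σ _ : X, A)
      ne_one := by
        intro l hl
        rw [List.mem_map] at hl
        obtain ⟨a, ha, rfl⟩ := hl
        exact v.ne_one a ha
      chain_ne := by
        rw [List.isChain_map]
        exact v.chain_ne.imp fun a b h h' => h (MulAction.injective w h') }
  have hp : v'.prod = cpm A w b := by
    rw [← hv]
    simp only [v', CoprodI.Word.prod]
    rw [map_list_prod, List.map_map, List.map_map]
    congr 1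
  rw [← hp, wd_prod, e]

theorem len_cpm (w : W) (b : CoprodI (fun _ : X => A)) : len (cpm A w b) = len b := by
  rw [len, len, wd_cpm, List.length_map]

theorem fst_cpm (w : W) (b : CoprodI (fun _ : X => A)) :
    fst (cpm A w b) = (fst b).map (w • ·) := by
  rw [fst, fst, wd_cpm, List.head?_map, Option.map_map, Option.map_map]
  rfl

end cpmlen

section strip

variable {ι : Type} {M : ι → Type} [∀ i, Group (M i)]

/-- strip a first letter -/
theorem strip_fst (k : CoprodI M) (i : ι) : ∃ (c : M i) (k' : CoprodI M),
    k = CoprodI.of c * k' ∧ fst k' ≠ some i := by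
  obtain ⟨k', c, h1, h2⟩ := strip k⁻¹ i
  refine ⟨c⁻¹, k'⁻¹, ?_, ?_⟩
  · rw [← inv_inv k, h1, mul_inv_rev, map_inv]
  · rw [fst_inv]
    exact h2

theorem compat_of {i : ι} {c : M i} {k : CoprodI M} (h : fst k ≠ some i) :
    Compat (CoprodI.of c) k := by
  intro j hj hk
  by_cases hc : c = 1
  · subst hc
    rw [map_one, lst_one] at hj
    exact absurd hj (by simp)
  · rw [lst_of c hc] at hj
    exact h (hk.trans hj.symm)

theorem compat_of' {i : ι} {c : M i} {k : CoprodI M} (h : lst k ≠ some i) :
    Compat k (CoprodI.of c) := by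
  intro j hj hk
  by_cases hc : c = 1
  · subst hc
    rw [map_one, fst_one] at hk
    exact absurd hk (by simp)
  · rw [fst_of c hc] at hk
    exact h (hj.trans hk.symm)

/-- multiplication with an element of the factor of the last letter -/
theorem len_mul_lst {i : ι} {k : CoprodI M} (h : lst k = some i) (a : M i) :
    len (k * CoprodI.of a) ≤ len k := by
  obtain ⟨k', c, h1, h2⟩ := strip k i
  have hc : c ≠ 1 := by
    rintro rfl
    rw [map_one, mul_one] at h1
    rw [← h1] at h2
    exact h2 h
  have h3 : len k = len k' + 1 := by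
    rw [h1, len_mul (compat_of' h2), len_of c hc]
  have h4 : k * CoprodI.of a = k' * CoprodI.of (c * a) := by
    rw [h1, map_mul, mul_assoc]
  rw [h4, len_mul (compat_of' h2), h3]
  have := len_of_le (c * a)
  omega

/-- comparison of two elements -/
theorem compare {i : ι} {a : M i} (ha : a ≠ 1) {β β' : CoprodI M} (hβ : β = CoprodI.of a * β')
    (hβ' : fst β' ≠ some i) (γ : CoprodI M) (h : len (β⁻¹ * γ) ≤ len β) :
    (∃ c : M i, γ = CoprodI.of c) ∨ ∃ γ', γ = CoprodI.of a * γ' ∧ fst γ' ≠ some i := by
  obtain ⟨c, γ', h1, h2⟩ := strip_fst γ i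
  by_cases hc : c = a
  · subst hc
    exact Or.inr ⟨γ', h1, h2⟩
  · left
    refine ⟨c, ?_⟩
    have hne : a⁻¹ * c ≠ 1 := by
      intro h3
      exact hc (inv_mul_eq_one.1 h3).symm
    have h3 : β⁻¹ * γ = β'⁻¹ * (CoprodI.of (a⁻¹ * c) * γ') := by
      rw [hβ, h1, map_mul, map_inv]
      group
    have h4 : Compat (CoprodI.of (a⁻¹ * c)) γ' := compat_of h2
    have h5 : Compat β'⁻¹ (CoprodI.of (a⁻¹ * c) * γ') := by
      intro j hj hk
      rw [fst_mul h4 (of_ne_one hne), fst_of _ hne] at hk
      rw [lst_inv] at hj
      exact hβ' (hj.trans hk.symm)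
    rw [h3, len_mul h5, len_mul h4, len_inv, len_of _ hne, hβ, len_mul (compat_of hβ'),
      len_of a ha] at h
    have h6 : γ' = 1 := eq_one_of_len (by omega)
    rw [h1, h6, mul_one]

theorem fst_eq_some {k : CoprodI M} (h : k ≠ 1) : ∃ i, fst k = some i := by
  cases hk : fst k with
  | none => exact absurd (fst_eq_none hk) h
  | some i => exact ⟨i, rfl⟩

end strip

section KL

variable {W X : Type} [Group W] [MulAction W X] {A : Type} [Group A]

omit [Group W] [MulAction W X] in
theorem fst_ofx {x : X} {c : A} (hc : c ≠ 1) : fst (ofx A X x c) = some x :=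
  fst_of (M := fun _ : X => A) (i := x) c hc

omit [Group W] [MulAction W X] in
theorem lst_ofx {x : X} {c : A} (hc : c ≠ 1) : lst (ofx A X x c) = some x :=
  lst_of (M := fun _ : X => A) (i := x) c hc

omit [Group W] [MulAction W X] in
theorem len_ofx {x : X} {c : A} (hc : c ≠ 1) : len (ofx A X x c) = 1 :=
  len_of (M := fun _ : X => A) (i := x) c hc

omit [Group W] [MulAction W X] in
theorem len_ofx_le (x : X) (c : A) : len (ofx A X x c) ≤ 1 :=
  len_of_le (M := fun _ : X => A) (i := x) c

omit [Group W] [MulAction W X] in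
theorem ofx_ne_one {x : X} {c : A} (hc : c ≠ 1) : ofx A X x c ≠ 1 :=
  of_ne_one (M := fun _ : X => A) (i := x) hc

omit [Group W] [MulAction W X] in
theorem fst_ofx_mul {x : X} {c : A} (hc : c ≠ 1) {γ : CoprodI (fun _ : X => A)}
    (h : fst γ ≠ some x) : fst (ofx A X x c * γ) = some x := by
  rw [fst_mul (compat_of (M := fun _ : X => A) (i := x) (c := c) h) (ofx_ne_one hc), fst_ofx hc]

omit [Group W] [MulAction W X] in
theorem len_ofx_mul {x : X} {c : A} (hc : c ≠ 1) {γ : CoprodI (fun _ : X => A)}
    (h : fst γ ≠ some x) : len (ofx A X x c * γ) = 1 + len γ := by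
  rw [len_mul (compat_of (M := fun _ : X => A) (i := x) (c := c) h), len_ofx hc]

omit [Group W] [MulAction W X] in
theorem lst_ofx_mul {x : X} {c : A} {γ : CoprodI (fun _ : X => A)}
    (h : fst γ ≠ some x) (hγ : γ ≠ 1) : lst (ofx A X x c * γ) = lst γ := by
  rw [lst_mul (compat_of (M := fun _ : X => A) (i := x) (c := c) h) hγ]

/-- the semidirect product -/
abbrev DD (W X A : Type) [Group W] [MulAction W X] [Group A] : Type :=
  CoprodI (fun _ : X => A) ⋊[cpa W X A] W

/-- **bounded subgroups** -/
theorem KL (k : ℕ) : ∀ F : Subgroup (DD W X A), (∀ f ∈ F, len f.left ≤ k) →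
    ∃ b : CoprodI (fun _ : X => A),
      (∀ f ∈ F, ((SemidirectProduct.inl b)⁻¹ * f * SemidirectProduct.inl b).left = 1) ∨
      ∃ x : X, ∀ f ∈ F, f.right • x = x ∧ ∃ c : A,
        ((SemidirectProduct.inl b)⁻¹ * f * SemidirectProduct.inl b).left = ofx A X x c := by
  induction k with
  | zero =>
    intro F hF
    refine ⟨1, Or.inl fun f hf => ?_⟩
    rw [map_one, inv_one, one_mul, mul_one]
    exact eq_one_of_len (Nat.le_zero.1 (hF f hf))
  | succ k ih =>
    intro F hF
    by_cases hex : ∃ f ∈ F, len f.left = k + 1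
    swap
    · refine ih F fun f hf => ?_
      have h1 := hF f hf
      have h2 : len f.left ≠ k + 1 := fun h => hex ⟨f, hf, h⟩
      omega
    obtain ⟨f, hf, hlen⟩ := hex
    obtain ⟨β, w⟩ := f
    have hlen : len β = k + 1 := hlen
    have hβ1 : β ≠ 1 := by
      rintro rfl
      rw [len_one] at hlen
      omega
    obtain ⟨x, hx⟩ := fst_eq_some hβ1
    obtain ⟨a, β', hβ, hβ'⟩ := strip_fst β x
    have ha : a ≠ 1 := by
      rintro rfl
      rw [map_one, one_mul] at hβ
      rw [← hβ] at hβ'
      exact hβ' hx
    -- comparison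
    have hP : ∀ g ∈ F, (∃ c : A, g.left = ofx A X x c) ∨
        ∃ γ', g.left = ofx A X x a * γ' ∧ fst γ' ≠ some x := by
      rintro ⟨γ, u⟩ hg
      refine compare ha hβ hβ' γ ?_
      have h1 := hF _ (mul_mem (inv_mem hf) hg)
      have h2 : ((⟨β, w⟩ : DD W X A)⁻¹ * ⟨γ, u⟩).left = cpm A w⁻¹ (β⁻¹ * γ) := by
        rw [map_mul]
        rfl
      rw [h2, len_cpm] at h1
      rw [hlen]
      exact h1
    have hP' : ∀ g ∈ F, g.left = 1 ∨ fst g.left = some x := by
      intro g hg
      rcases hP g hg with ⟨c, hc⟩ | ⟨γ', h1, h2⟩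
      · by_cases hc1 : c = 1
        · left
          rw [hc, hc1, map_one]
        · right
          rw [hc]
          exact fst_ofx hc1
      · right
        rw [h1]
        exact fst_ofx_mul ha h2
    have hQ : ∀ g ∈ F, g.left = 1 ∨ lst g.left = some (g.right • x) := by
      rintro ⟨γ, u⟩ hg
      have h2 : ((⟨γ, u⟩ : DD W X A)⁻¹).left = cpm A u⁻¹ γ⁻¹ := rfl
      rcases hP' _ (inv_mem hg) with h1 | h1
      · left
        rw [h2] at h1
        have h3 : cpm A u (cpm A u⁻¹ γ⁻¹) = 1 := by rw [h1, map_one]
        rw [← cpm_mul, mul_inv_cancel, cpm_one] at h3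
        exact inv_eq_one.1 h3
      · right
        rw [h2, fst_cpm, fst_inv, Option.map_eq_some_iff] at h1
        obtain ⟨y, hy, hyx⟩ := h1
        show lst γ = some (u • x)
        rw [hy, ← hyx, smul_inv_smul]
    have hR : ∀ g ∈ F, g.left = 1 → g.right • x = x := by
      rintro ⟨γ, u⟩ hg h1
      have h1 : γ = 1 := h1
      subst h1
      have h2 : ((⟨1, u⟩ : DD W X A) * ⟨β, w⟩).left = cpm A u β := one_mul _
      rcases hP' _ (mul_mem hg hf) with h3 | h3
      · rw [h2] at h3
        have h4 := len_cpm A u β
        rw [h3, len_one, hlen] at h4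
        omega
      · rw [h2, fst_cpm, hx] at h3
        exact Option.some.inj h3
    have hT : ∀ g ∈ F, ∀ c : A, g.left = ofx A X x c → g.right • x = x := by
      intro g hg c hc
      by_cases hc1 : c = 1
      · apply hR g hg
        rw [hc, hc1, map_one]
      · rcases hQ g hg with h1 | h1
        · exact hR g hg h1
        · rw [hc] at h1
          have h2 : lst (ofx A X x c) = some x := lst_ofx hc1
          rw [h2] at h1
          exact (Option.some.inj h1).symm
    by_cases hk : k = 0
    · subst hk
      refine ⟨1, Or.inr ⟨x, fun g hg => ?_⟩⟩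
      have h1 : ∃ c : A, g.left = ofx A X x c := by
        rcases hP g hg with h1 | ⟨γ', h1, h2⟩
        · exact h1
        · refine ⟨a, ?_⟩
          have h3 := hF g hg
          have h4 : len g.left = 1 + len γ' := by
            rw [h1]
            exact len_ofx_mul ha h2
          have h5 : γ' = 1 := eq_one_of_len (by omega)
          rw [h1, h5, mul_one]
      obtain ⟨c, hc⟩ := h1
      refine ⟨hT g hg c hc, c, ?_⟩
      rw [map_one, inv_one, one_mul, mul_one]
      exact hc
    · -- conjugation by the first letter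
      have hconj : ∀ (b : CoprodI (fun _ : X => A)) (g : DD W X A),
          ((SemidirectProduct.inl b)⁻¹ * g * SemidirectProduct.inl b).left =
            b⁻¹ * g.left * cpm A g.right b := by
        rintro b ⟨γ, u⟩
        rw [← map_inv, SemidirectProduct.mul_left, SemidirectProduct.mul_left,
          SemidirectProduct.mul_right, SemidirectProduct.left_inl, SemidirectProduct.left_inl,
          SemidirectProduct.right_inl, map_one, one_mul]
        rfl
      obtain ⟨b', hb'⟩ := ih (F.map
        (MulAut.conj ((SemidirectProduct.inl (ofx A X x a) : DD W X A)⁻¹)).toMonoidHom) (by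
        rintro _ ⟨g, hg, rfl⟩
        show len ((SemidirectProduct.inl (ofx A X x a) : DD W X A)⁻¹ * g *
          ((SemidirectProduct.inl (ofx A X x a) : DD W X A)⁻¹)⁻¹).left ≤ k
        rw [inv_inv, hconj, cpm_of]
        by_cases hc : ∃ c : A, g.left = ofx A X x c
        · obtain ⟨c, hc⟩ := hc
          rw [hc, ofx_congr A (hT g hg c hc), ← map_inv, ← map_mul, ← map_mul]
          have : len (ofx A X x (a⁻¹ * c * a)) ≤ 1 := len_ofx_le _ _
          omega
        · obtain ⟨γ', h1, h2⟩ := (hP g hg).resolve_left hc
          have h3 : γ' ≠ 1 := by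
            rintro rfl
            exact hc ⟨a, by rw [h1, mul_one]⟩
          have h4 : lst γ' = some (g.right • x) := by
            rcases hQ g hg with h5 | h5
            · exact absurd ⟨1, by rw [h5, map_one]⟩ hc
            · rw [h1] at h5
              exact (lst_ofx_mul h2 h3).symm.trans h5
          have h5 : len g.left = 1 + len γ' := by
            rw [h1]
            exact len_ofx_mul ha h2
          have h6 := hF g hg
          have h7 : len (γ' * ofx A X (g.right • x) a) ≤ len γ' :=
            len_mul_lst (M := fun _ : X => A) (i := g.right • x) h4 a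
          rw [h1, inv_mul_cancel_left]
          omega)
      refine ⟨ofx A X x a * b', ?_⟩
      have key : ∀ g : DD W X A,
          (SemidirectProduct.inl (ofx A X x a * b') : DD W X A)⁻¹ * g *
            SemidirectProduct.inl (ofx A X x a * b') =
          (SemidirectProduct.inl b' : DD W X A)⁻¹ *
            (MulAut.conj ((SemidirectProduct.inl (ofx A X x a) : DD W X A)⁻¹)).toMonoidHom g *
            SemidirectProduct.inl b' := by
        intro g
        show _ = (SemidirectProduct.inl b' : DD W X A)⁻¹ *
            ((SemidirectProduct.inl (ofx A X x a) : DD W X A)⁻¹ * g *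
              ((SemidirectProduct.inl (ofx A X x a) : DD W X A)⁻¹)⁻¹) *
            SemidirectProduct.inl b'
        rw [map_mul]
        group
      have hright : ∀ g : DD W X A,
          ((MulAut.conj ((SemidirectProduct.inl (ofx A X x a) : DD W X A)⁻¹)).toMonoidHom g).right
            = g.right := by
        rintro ⟨γ, u⟩
        show ((SemidirectProduct.inl (ofx A X x a) : DD W X A)⁻¹ * ⟨γ, u⟩ *
              ((SemidirectProduct.inl (ofx A X x a) : DD W X A)⁻¹)⁻¹).right = u
        rw [inv_inv, ← map_inv, SemidirectProduct.mul_right, SemidirectProduct.mul_right,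
          SemidirectProduct.right_inl, SemidirectProduct.right_inl, one_mul, mul_one]
      rcases hb' with h | ⟨y, h⟩
      · left
        intro g hg
        rw [key]
        exact h _ ⟨g, hg, rfl⟩
      · right
        refine ⟨y, fun g hg => ?_⟩
        obtain ⟨h1, h2⟩ := h _ ⟨g, hg, rfl⟩
        rw [hright] at h1
        rw [key]
        exact ⟨h1, h2⟩

end KL

end Pool.Agent.T2H65.GP
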