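import Pool.Agent.T2H65.GP.FinIdx
import Pool.Agent.T2H65.GP.Len

/-!
# Finite subgroups of graph products
-/

set_option autoImplicit false

namespace Pool.Agent.T2H65.GP

open Pool.Agent.Y110.FJ Monoid
open Pool.Agent.R684.FP
open Pool.Agent.R701.FreeProd
open Pool.Agent.R941.FJ (C_equiv C_le C_cyc mem_sup_normal)
open Pool.Agent.Y529.FJ (up)

section fs

variable {V : Type} (Λ : SimpleGraph V) (B : V → Type) [∀ v, Group (B v)] (v : V)

/-- finite subgroups are conjugate into one of two subgroups -/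
theorem fs (F : Subgroup (GrP Λ B)) (hF : Finite F) : ∃ d : GrP Λ B,
    (∀ g ∈ F, ∃ w : Wv Λ B v, d⁻¹ * g * d = inc Λ B _ w) ∨
    (∀ g ∈ F, ∃ (a : B v) (l : Lk Λ B v), d⁻¹ * g * d =
      GrP.of Λ B v a * inc Λ B (fun w => Λ.Adj v w) l) := by
  have hfin : ((fun f : Dv Λ B v => len f.left) '' (F.map (Phi Λ B v) : Set (Dv Λ B v))).Finite := by
    apply Set.Finite.image
    rw [Subgroup.coe_map]
    exact (Set.toFinite (F : Set (GrP Λ B))).image _
  obtain ⟨k, hk⟩ := hfin.bddAbove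
  obtain ⟨b, hb⟩ := KL k (F.map (Phi Λ B v)) fun f hf => hk ⟨f, hf, rfl⟩
  have hpsi : ∀ g : GrP Λ B, Psi Λ B v ((SemidirectProduct.inl b)⁻¹ * Phi Λ B v g *
      SemidirectProduct.inl b) = (kap Λ B v b)⁻¹ * g * kap Λ B v b := by
    intro g
    rw [map_mul, map_mul, map_inv, Psi_Phi, Psi_inl]
  have hdec : ∀ f : Dv Λ B v, f = SemidirectProduct.inl f.left * SemidirectProduct.inr f.right :=
    fun f => (SemidirectProduct.inl_left_mul_inr_right f).symm
  rcases hb with h | ⟨x, h⟩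
  · refine ⟨kap Λ B v b, Or.inl fun g hg => ?_⟩
    have h1 := h _ ⟨g, hg, rfl⟩
    rw [← hpsi, hdec ((SemidirectProduct.inl b)⁻¹ * Phi Λ B v g * SemidirectProduct.inl b), h1,
      map_one, one_mul, Psi_inr]
    exact ⟨_, rfl⟩
  · refine ⟨kap Λ B v b * inc Λ B _ x.out, Or.inr fun g hg => ?_⟩
    obtain ⟨h1, c, hc⟩ := h _ ⟨g, hg, rfl⟩
    have hr : ((SemidirectProduct.inl b)⁻¹ * Phi Λ B v g * SemidirectProduct.inl b :
        Dv Λ B v).right = (Phi Λ B v g).right := by
      rw [← map_inv, SemidirectProduct.mul_right, SemidirectProduct.mul_right,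
        SemidirectProduct.right_inl, SemidirectProduct.right_inl, one_mul, mul_one]
    have h2 : (kap Λ B v b)⁻¹ * g * kap Λ B v b =
        inc Λ B _ x.out * GrP.of Λ B v c * (inc Λ B _ x.out)⁻¹ *
          inc Λ B _ (Phi Λ B v g).right := by
      rw [← hpsi, hdec ((SemidirectProduct.inl b)⁻¹ * Phi Λ B v g * SemidirectProduct.inl b),
        hc, hr, map_mul, Psi_inl, Psi_inr, kap_of]
    have h3 : x.out⁻¹ * (Phi Λ B v g).right * x.out ∈ Lv Λ B v := by
      have h4 : (((Phi Λ B v g).right * x.out : Wv Λ B v) : Xv Λ B v) = x := by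
        have h5 : (Phi Λ B v g).right • ((x.out : Wv Λ B v) : Xv Λ B v) = x := by
          rw [QuotientGroup.out_eq']
          exact h1
        exact h5
      have h5 : ((x.out : Wv Λ B v) : Xv Λ B v) =
          (((Phi Λ B v g).right * x.out : Wv Λ B v) : Xv Λ B v) := by
        rw [h4, QuotientGroup.out_eq']
      rw [QuotientGroup.eq, ← mul_assoc] at h5
      exact h5
    obtain ⟨l, hl⟩ := h3
    refine ⟨c, l, ?_⟩
    rw [← inc_tL, hl, map_mul, map_mul, map_inv]
    have h4 : (kap Λ B v b * inc Λ B _ x.out)⁻¹ * g * (kap Λ B v b * inc Λ B _ x.out) =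
        (inc Λ B _ x.out)⁻¹ * ((kap Λ B v b)⁻¹ * g * kap Λ B v b) * inc Λ B _ x.out := by group
    rw [h4, h2]
    group

theorem vret_inc (l : Lk Λ B v) : vret Λ B v (inc Λ B (fun w => Λ.Adj v w) l) = 1 := by
  have : (vret Λ B v).comp (inc Λ B (fun w => Λ.Adj v w)) = 1 := by
    apply ghom_ext
    rintro ⟨w, h⟩ b
    rw [MonoidHom.comp_apply, inc_of, vret_of' Λ B v h.ne', MonoidHom.one_apply]
  exact DFunLike.congr_fun this l

end fs

/-- finitely many conjugacy classes of finite subgroups -/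
def FC (Q : Type) [Group Q] : Prop := ∃ T : Set (Subgroup Q), T.Finite ∧ (∀ E ∈ T, Finite E) ∧
  ∀ F : Subgroup Q, Finite F → ∃ c : Q, ∃ E ∈ T, ∀ g ∈ F, c⁻¹ * g * c ∈ E

/-- torsion-free groups -/
def TF (Q : Type) [Group Q] : Prop := ∀ g : Q, IsOfFinOrder g → g = 1

theorem FC_of_finite {Q : Type} [Group Q] (h : Finite Q) : FC Q :=
  ⟨{⊤}, Set.finite_singleton _, fun _ _ => inferInstance, fun _ _ => ⟨1, ⊤, rfl,
    fun _ _ => Subgroup.mem_top _⟩⟩

theorem FC_of_TF {Q : Type} [Group Q] (h : TF Q) : FC Q :=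
  ⟨{⊥}, Set.finite_singleton _, fun E hE => by
    rw [Set.mem_singleton_iff] at hE
    subst hE
    infer_instance, fun F hF => ⟨1, ⊥, rfl, fun g hg => by
    have h1 : IsOfFinOrder (⟨g, hg⟩ : F) := isOfFinOrder_of_finite _
    have h2 : IsOfFinOrder g := MonoidHom.isOfFinOrder F.subtype h1
    rw [h g h2]
    simp⟩⟩

theorem triv {V : Type} (hV : IsEmpty V) (Λ : SimpleGraph V) (B : V → Type) [∀ v, Group (B v)]
    (x : GrP Λ B) : x = 1 :=
  gind (p := fun x => x = 1) rfl (fun v => (hV.false v).elim)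
    (fun x y hx hy => by rw [hx, hy, mul_one]) x

/-- the image of a finite subgroup -/
theorem fin_map {Q R : Type} [Group Q] [Group R] (f : Q →* R) {F : Subgroup Q} (hF : Finite F) :
    Finite (F.map f) :=
  Finite.of_surjective (f.subgroupMap F) (f.subgroupMap_surjective F)

/-- **graph products have finitely many classes of finite subgroups** -/
theorem fc (n : ℕ) : ∀ (V : Type) [Finite V] (Λ : SimpleGraph V) (B : V → Type)
    [∀ v, Group (B v)], Nat.card V ≤ n → (∀ v, FC (B v)) → FC (GrP Λ B) := by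
  induction n with
  | zero =>
    intro V _ Λ B _ hn _
    have hV : IsEmpty V := (Finite.card_eq_zero_iff).1 (Nat.le_zero.1 hn)
    exact FC_of_TF fun g _ => triv hV Λ B g
  | succ n ih =>
    intro V _ Λ B _ hn hB
    rcases isEmpty_or_nonempty V with hV | ⟨⟨v⟩⟩
    · exact FC_of_TF fun g _ => triv hV Λ B g
    obtain ⟨T1, hT1, hE1, h1⟩ := ih {w // w ≠ v} (Λ.comap (Subtype.val : {w // w ≠ v} → V))
      (fun w : {w // w ≠ v} => B w.1) (by
        have := Finite.card_subtype_lt (p := fun w => w ≠ v) (x := v) (fun h => h rfl)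
        omega) (fun w => hB w.1)
    obtain ⟨T3, hT3, hE3, h3⟩ := ih {w // Λ.Adj v w} (Λ.comap (Subtype.val : {w // Λ.Adj v w} → V))
      (fun w : {w // Λ.Adj v w} => B w.1) (by
        have := Finite.card_subtype_lt (p := fun w => Λ.Adj v w) (x := v) (Λ.irrefl)
        omega) (fun w => hB w.1)
    obtain ⟨T2, hT2, hE2, h2⟩ := hB v
    obtain ⟨μ, hμ⟩ : ∃ μ : B v × Lk Λ B v →* GrP Λ B, ∀ a l, μ (a, l) = GrP.of Λ B v a *
        inc Λ B (fun w => Λ.Adj v w) l :=
      ⟨MonoidHom.noncommCoprod (GrP.of Λ B v) (inc Λ B (fun w => Λ.Adj v w))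
        (fun a l => (inc_comm Λ B v l a).symm), fun a l => rfl⟩
    refine ⟨(fun E => E.map (inc Λ B (fun w => w ≠ v))) '' T1 ∪
      (fun q : Subgroup (B v) × Subgroup (Lk Λ B v) => (q.1.prod q.2).map μ) '' (T2 ×ˢ T3),
      (hT1.image _).union ((hT2.prod hT3).image _), ?_, ?_⟩
    · rintro _ (⟨E, hE, rfl⟩ | ⟨⟨E, E'⟩, ⟨hE, hE'⟩, rfl⟩)
      · exact fin_map _ (hE1 E hE)
      · have h4 : Finite E := hE2 E hE
        have h5 : Finite E' := hE3 E' hE'
        exact fin_map _ (Finite.of_equiv _ (Subgroup.prodEquiv E E').symm.toEquiv)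
    · intro F hF
      obtain ⟨d, hd⟩ := fs Λ B v F hF
      have hFd : Finite (F.map (MulAut.conj d⁻¹).toMonoidHom) := fin_map _ hF
      have hFd' : ∀ g ∈ F, d⁻¹ * g * d ∈ F.map (MulAut.conj d⁻¹).toMonoidHom := by
        intro g hg
        refine ⟨g, hg, ?_⟩
        show d⁻¹ * g * d⁻¹⁻¹ = d⁻¹ * g * d
        rw [inv_inv]
      rcases hd with hd | hd
      · obtain ⟨c, E, hE, hc⟩ := h1 ((F.map (MulAut.conj d⁻¹).toMonoidHom).map
          (ret Λ B (fun w => w ≠ v))) (fin_map _ hFd)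
        refine ⟨d * inc Λ B _ c, _, Or.inl ⟨E, hE, rfl⟩, fun g hg => ?_⟩
        obtain ⟨w, hw⟩ := hd g hg
        have h4 := hc _ ⟨_, hFd' g hg, rfl⟩
        rw [hw, ret_inc] at h4
        refine ⟨_, h4, ?_⟩
        rw [map_mul, map_mul, map_inv, ← hw]
        group
      · obtain ⟨c2, E2, hE2', hc2⟩ := h2 ((F.map (MulAut.conj d⁻¹).toMonoidHom).map
          (vret Λ B v)) (fin_map _ hFd)
        obtain ⟨c3, E3, hE3', hc3⟩ := h3 ((F.map (MulAut.conj d⁻¹).toMonoidHom).map
          (ret Λ B (fun w => Λ.Adj v w))) (fin_map _ hFd)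
        refine ⟨d * μ (c2, c3), _, Or.inr ⟨(E2, E3), ⟨hE2', hE3'⟩, rfl⟩, fun g hg => ?_⟩
        obtain ⟨a, l, hal⟩ := hd g hg
        have h4 := hc2 _ ⟨_, hFd' g hg, rfl⟩
        have h5 := hc3 _ ⟨_, hFd' g hg, rfl⟩
        rw [hal, map_mul, vret_of, vret_inc, mul_one] at h4
        rw [hal, map_mul, ret_of' Λ B (fun w => Λ.Adj v w) v Λ.irrefl, ret_inc, one_mul] at h5
        refine ⟨(c2⁻¹ * a * c2, c3⁻¹ * l * c3), ⟨h4, h5⟩, ?_⟩
        have h6 : ((c2⁻¹ * a * c2, c3⁻¹ * l * c3) : B v × Lk Λ B v) =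
            (c2, c3)⁻¹ * (a, l) * (c2, c3) := rfl
        rw [h6, map_mul, map_mul, map_inv, hμ a l, ← hal]
        group

/-- **graph products of torsion-free groups are torsion-free** -/
theorem tf (n : ℕ) : ∀ (V : Type) [Finite V] (Λ : SimpleGraph V) (B : V → Type)
    [∀ v, Group (B v)], Nat.card V ≤ n → (∀ v, TF (B v)) → TF (GrP Λ B) := by
  induction n with
  | zero =>
    intro V _ Λ B _ hn _
    have hV : IsEmpty V := (Finite.card_eq_zero_iff).1 (Nat.le_zero.1 hn)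
    exact fun g _ => triv hV Λ B g
  | succ n ih =>
    intro V _ Λ B _ hn hB
    rcases isEmpty_or_nonempty V with hV | ⟨⟨v⟩⟩
    · exact fun g _ => triv hV Λ B g
    have h1 := ih {w // w ≠ v} (Λ.comap (Subtype.val : {w // w ≠ v} → V))
      (fun w : {w // w ≠ v} => B w.1) (by
        have := Finite.card_subtype_lt (p := fun w => w ≠ v) (x := v) (fun h => h rfl)
        omega) (fun w => hB w.1)
    have h3 := ih {w // Λ.Adj v w} (Λ.comap (Subtype.val : {w // Λ.Adj v w} → V))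
      (fun w : {w // Λ.Adj v w} => B w.1) (by
        have := Finite.card_subtype_lt (p := fun w => Λ.Adj v w) (x := v) (Λ.irrefl)
        omega) (fun w => hB w.1)
    intro g hg
    obtain ⟨d, hd⟩ := fs Λ B v (Subgroup.zpowers g) (finite_zpowers.2 hg).to_subtype
    have hg' : IsOfFinOrder (d⁻¹ * g * d) := by
      have h4 := MonoidHom.isOfFinOrder (MulAut.conj d⁻¹).toMonoidHom hg
      have h5 : (MulAut.conj d⁻¹).toMonoidHom g = d⁻¹ * g * d := by
        show d⁻¹ * g * d⁻¹⁻¹ = d⁻¹ * g * d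
        rw [inv_inv]
      rwa [h5] at h4
    have key : d⁻¹ * g * d = 1 → g = 1 := by
      intro h
      have : g = d * (d⁻¹ * g * d) * d⁻¹ := by group
      rw [this, h]
      group
    apply key
    rcases hd with hd | hd
    · obtain ⟨w, hw⟩ := hd g (Subgroup.mem_zpowers g)
      have h4 := MonoidHom.isOfFinOrder (ret Λ B (fun w => w ≠ v)) hg'
      rw [hw, ret_inc] at h4
      rw [hw, h1 w h4, map_one]
    · obtain ⟨a, l, hal⟩ := hd g (Subgroup.mem_zpowers g)
      have h4 := MonoidHom.isOfFinOrder (vret Λ B v) hg'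
      have h5 := MonoidHom.isOfFinOrder (ret Λ B (fun w => Λ.Adj v w)) hg'
      rw [hal, map_mul, vret_of, vret_inc, mul_one] at h4
      rw [hal, map_mul, ret_of' Λ B (fun w => Λ.Adj v w) v Λ.irrefl, ret_inc, one_mul] at h5
      rw [hal, hB v a h4, h3 l h5, map_one, map_one, mul_one]

end Pool.Agent.T2H65.GP
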