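import Pool.Agent.T2H65.GP.Core

/-!
# Extensions whose kernel is a graph product: reduction to invariant classes
-/

set_option autoImplicit false

namespace Pool.Agent.T2H65.GP

open Pool.Agent.Y110.FJ Monoid
open Pool.Agent.R684.FP
open Pool.Agent.R941.FJ (C_equiv C_le C_cyc mem_sup_normal)

section stab

variable {C : ∀ (G : Type) [Group G], Prop} {V : Type} (Λ : SimpleGraph V) (B : V → Type)
  [∀ v, Group (B v)] {G : Type} [Group G] (j : GrP Λ B →* G)

theorem conj_range (hN : j.range.Normal) (g : G) (p : GrP Λ B) : ∃ q, g * j p * g⁻¹ = j q := by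
  obtain ⟨q, hq⟩ := hN.conj_mem (j p) ⟨p, rfl⟩ g
  exact ⟨q, hq.symm⟩

/-- the stabilizer of the class of a vertex group -/
def stab (hN : j.range.Normal) (v : V) : Subgroup G where
  carrier := {g | ∃ p, Nz (j p * g) (Av Λ B j v)}
  one_mem' := ⟨1, by rw [map_one, one_mul]; exact Nz.one⟩
  mul_mem' := by
    rintro g h ⟨p, hp⟩ ⟨q, hq⟩
    obtain ⟨r, hr⟩ := conj_range Λ B j hN g q
    refine ⟨p * r, ?_⟩
    have h1 := hp.mul hq
    have h2 : j p * g * (j q * h) = j (p * r) * (g * h) := by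
      rw [map_mul, ← hr]
      group
    rwa [h2] at h1
  inv_mem' := by
    rintro g ⟨p, hp⟩
    obtain ⟨r, hr⟩ := conj_range Λ B j hN g⁻¹ p⁻¹
    refine ⟨r, ?_⟩
    have h1 := hp.inv
    have h2 : (j p * g)⁻¹ = j r * g⁻¹ := by
      rw [← hr, map_inv]
      group
    rwa [h2] at h1

theorem range_le_stab (hN : j.range.Normal) (v : V) : j.range ≤ stab Λ B j hN v := by
  rintro _ ⟨p, rfl⟩
  refine ⟨p⁻¹, ?_⟩
  rw [← map_mul, inv_mul_cancel, map_one]
  exact Nz.one

/-- the stabilizer of a class with finitely many conjugates -/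
theorem stab_fi (hN : j.range.Normal) (v : V) (T : Type) [Finite T] (K : T → Subgroup G)
    (h : ∀ g : G, ∃ t, ∃ p, ∀ x, x ∈ Av Λ B j v ↔ (j p * g) * x * (j p * g)⁻¹ ∈ K t) :
    (stab Λ B j hN v).FiniteIndex := by
  choose t p hp using h
  have h1 : Function.Injective (fun q : G ⧸ stab Λ B j hN v => t q.out) := by
    intro q r hqr
    have hqr' : t q.out = t r.out := hqr
    have h2 : Nz ((j (p q.out) * q.out)⁻¹ * (j (p r.out) * r.out)) (Av Λ B j v) := by
      intro x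
      rw [hp r.out x, hp q.out _, hqr']
      have : j (p q.out) * q.out * ((j (p q.out) * q.out)⁻¹ * (j (p r.out) * r.out) * x *
          ((j (p q.out) * q.out)⁻¹ * (j (p r.out) * r.out))⁻¹) * (j (p q.out) * q.out)⁻¹ =
          j (p r.out) * r.out * x * (j (p r.out) * r.out)⁻¹ := by group
      rw [this]
    obtain ⟨s, hs⟩ := conj_range Λ B j hN (q.out)⁻¹ ((p q.out)⁻¹ * p r.out)
    have h3 : (j (p q.out) * q.out)⁻¹ * (j (p r.out) * r.out) = j s * (q.out⁻¹ * r.out) := by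
      rw [← hs, map_mul, map_inv]
      group
    rw [h3] at h2
    have h4 : q.out⁻¹ * r.out ∈ stab Λ B j hN v := ⟨s, h2⟩
    have h5 := QuotientGroup.eq.2 h4
    rwa [QuotientGroup.out_eq', QuotientGroup.out_eq'] at h5
  have h2 : Finite (G ⧸ stab Λ B j hN v) := Finite.of_injective _ h1
  exact Subgroup.finiteIndex_of_finite_quotient

/-- **reduction to invariant classes** -/
theorem main_fin (hC : ClosedE C) (hF : FbC C) [Finite V] (hj : Function.Injective j)
    (hN : j.range.Normal) (S : V → Prop) (hfi : ∀ v, S v → (stab Λ B j hN v).FiniteIndex)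
    (hcyc : ∀ v, S v → ∀ g : G, Nz g (Av Λ B j v) → C ↥(Av Λ B j v ⊔ Subgroup.zpowers g))
    {Q : Type} [Group Q] (π : G →* Q) (hker : π.ker = (NCl Λ B S).map j)
    (hQ : C Q) : C G := by
  obtain ⟨G₁, hG₁⟩ : ∃ G₁ : Subgroup G, G₁ = ⨅ v : {v // S v}, stab Λ B j hN v.1 := ⟨_, rfl⟩
  have hG₁fi : G₁.FiniteIndex := by
    rw [hG₁]
    exact Subgroup.finiteIndex_iInf fun v => hfi v.1 v.2
  have hjG : ∀ p, j p ∈ G₁ := by
    intro p
    rw [hG₁, Subgroup.mem_iInf]
    intro v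
    exact range_le_stab Λ B j hN v.1 ⟨p, rfl⟩
  refine hC.base.finiteIndex G G₁ hG₁fi ?_
  obtain ⟨j₁, hj₁⟩ : ∃ j₁ : GrP Λ B →* G₁, ∀ p, (j₁ p : G) = j p :=
    ⟨j.codRestrict G₁ hjG, fun p => rfl⟩
  have hsub : G₁.subtype.comp j₁ = j := MonoidHom.ext hj₁
  have hAv : ∀ v, (Av Λ B j₁ v).map G₁.subtype = Av Λ B j v := by
    intro v
    rw [Av, Subgroup.map_map, hsub]
  have hinj₁ : Function.Injective j₁ := by
    intro a b hab
    apply hj
    rw [← hj₁, ← hj₁, hab]
  refine core hC hF _ V Λ B G₁ (π.comp G₁.subtype).range j₁ hinj₁ S rfl ?_ ?_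
    (π.comp G₁.subtype).rangeRestrict (MonoidHom.rangeRestrict_surjective _) ?_
    (hC.base.of_injective _ _ (Subgroup.subtype _) (Subgroup.subtype_injective _) hQ)
  · intro v hv g
    have h0 : G₁ ≤ stab Λ B j hN v := by
      rw [hG₁]
      exact iInf_le (fun v : {v // S v} => stab Λ B j hN v.1) ⟨v, hv⟩
    have h1 : (g : G) ∈ stab Λ B j hN v := h0 g.2
    obtain ⟨p, hp⟩ := h1
    refine ⟨p, Nz.of_map G₁.subtype G₁.subtype_injective ?_⟩
    rw [hAv]
    have h2 : G₁.subtype (j₁ p * g) = j p * g := by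
      rw [map_mul]
      show (j₁ p : G) * g = j p * g
      rw [hj₁]
    rw [h2]
    exact hp
  · intro v hv g hg
    have h1 := hg.map G₁.subtype
    rw [hAv] at h1
    have h2 := hcyc v hv _ h1
    have h3 : (Av Λ B j₁ v ⊔ Subgroup.zpowers g).map G₁.subtype =
        Av Λ B j v ⊔ Subgroup.zpowers (G₁.subtype g) := by
      rw [Subgroup.map_sup, hAv, MonoidHom.map_zpowers]
    rw [← h3] at h2
    exact C_equiv hC.base ((Av Λ B j₁ v ⊔ Subgroup.zpowers g).equivMapOfInjective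
      G₁.subtype G₁.subtype_injective) h2
  · rw [MonoidHom.ker_rangeRestrict]
    ext x
    constructor
    · intro hx
      have h1 : (x : G) ∈ π.ker := hx
      rw [hker] at h1
      obtain ⟨y, hy, hyx⟩ := h1
      exact ⟨y, hy, Subtype.ext ((hj₁ y).trans hyx)⟩
    · rintro ⟨y, hy, rfl⟩
      have h1 : j y ∈ π.ker := by
        rw [hker]
        exact ⟨y, hy, rfl⟩
      show π (j₁ y : G) = 1
      rw [hj₁]
      exact h1

end stab

/-! ### internal graph products -/

/-- `N` is the internal graph product, over the graph `Λ`, of its subgroups `A v` -/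
structure IsGraphProd {G V : Type} [Group G] (Λ : SimpleGraph V) (N : Subgroup G)
    (A : V → Subgroup G) : Prop where
  sup : ⨆ v, A v = N
  ker : (CoprodI.lift fun v => (A v).subtype).ker =
    Subgroup.normalClosure (commRel Λ fun v => A v)

section internal

variable {G V : Type} [Group G] {Λ : SimpleGraph V} {N : Subgroup G} {A : V → Subgroup G}

/-- the homomorphism from the graph product -/
noncomputable def IsGraphProd.j (h : IsGraphProd Λ N A) : GrP Λ (fun v => A v) →* G :=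
  QuotientGroup.lift _ (CoprodI.lift fun v => (A v).subtype) (le_of_eq h.ker.symm)

theorem IsGraphProd.j_of (h : IsGraphProd Λ N A) (v : V) (a : A v) :
    h.j (GrP.of Λ (fun v => A v) v a) = a := by
  show CoprodI.lift (fun v => (A v).subtype) (CoprodI.of (M := fun v => A v) (i := v) a) = a
  rw [CoprodI.lift_of]
  rfl

theorem IsGraphProd.j_inj (h : IsGraphProd Λ N A) : Function.Injective h.j := by
  rw [injective_iff_map_eq_one]
  intro x hx
  obtain ⟨y, rfl⟩ := QuotientGroup.mk'_surjective _ x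
  rw [QuotientGroup.mk'_apply, QuotientGroup.eq_one_iff, ← h.ker]
  exact hx

theorem IsGraphProd.Av_j (h : IsGraphProd Λ N A) (v : V) : Av Λ (fun v => A v) h.j v = A v := by
  ext x
  constructor
  · rintro ⟨_, ⟨a, rfl⟩, rfl⟩
    rw [h.j_of]
    exact a.2
  · intro hx
    exact ⟨_, ⟨⟨x, hx⟩, rfl⟩, h.j_of v ⟨x, hx⟩⟩

theorem IsGraphProd.j_range (h : IsGraphProd Λ N A) : h.j.range = N := by
  refine Eq.trans ?_ h.sup
  rw [MonoidHom.range_eq_map, ← sup_vg Λ (fun v => A v), Subgroup.map_iSup]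
  exact iSup_congr h.Av_j

/-- the normal closure in `G` -/
theorem IsGraphProd.ncl (h : IsGraphProd Λ N A) (S : V → Prop)
    (hp : ∀ v, S v → ∀ g : G, ∃ w, S w ∧ ∃ n ∈ N, ∀ x, x ∈ A v →
      n * g * x * (n * g)⁻¹ ∈ A w) :
    (NCl Λ (fun v => A v) S).map h.j = Subgroup.normalClosure {x | ∃ v, S v ∧ x ∈ A v} := by
  have hn : ((NCl Λ (fun v => A v) S).map h.j).Normal := by
    apply norm
    intro v hv g
    obtain ⟨w, hw, n, hn, h1⟩ := hp v hv g
    rw [← h.j_range] at hn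
    obtain ⟨p, rfl⟩ := hn
    refine ⟨w, hw, p, ?_⟩
    rw [h.Av_j, h.Av_j]
    exact h1
  apply le_antisymm
  · rw [Subgroup.map_le_iff_le_comap]
    apply Subgroup.normalClosure_le_normal
    rintro _ ⟨v, hv, a, rfl⟩
    show h.j _ ∈ Subgroup.normalClosure {x | ∃ v, S v ∧ x ∈ A v}
    rw [h.j_of]
    exact Subgroup.subset_normalClosure ⟨v, hv, a.2⟩
  · apply Subgroup.normalClosure_le_normal
    rintro x ⟨v, hv, hx⟩
    exact ⟨_, Subgroup.subset_normalClosure ⟨v, hv, ⟨x, hx⟩, rfl⟩, h.j_of v ⟨x, hx⟩⟩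

end internal

/-- **extensions by graph products with permuted classes of vertex groups** -/
theorem main_perm {C : ∀ (G : Type) [Group G], Prop} (hC : ClosedE C) (hF : FbC C)
    {G V : Type} [Group G] [Finite V] (Λ : SimpleGraph V) (N : Subgroup G) (hNn : N.Normal)
    (A : V → Subgroup G) (hA : IsGraphProd Λ N A) (S : Set V)
    (hperm : ∀ v ∈ S, ∀ g : G, ∃ w ∈ S, ∃ n ∈ N, ∀ x, x ∈ A v ↔ n * (g * x * g⁻¹) * n⁻¹ ∈ A w)
    (hcyc : ∀ v ∈ S, ∀ g : G, (∀ x, x ∈ A v ↔ g * x * g⁻¹ ∈ A v) →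
      C ↥(A v ⊔ Subgroup.zpowers g))
    (hQ : C (G ⧸ Subgroup.normalClosure {x : G | ∃ v ∈ S, x ∈ A v})) : C G := by
  have hN : hA.j.range.Normal := by rw [hA.j_range]; exact hNn
  have h0 : ∀ (n g x : G), n * (g * x * g⁻¹) * n⁻¹ = n * g * x * (n * g)⁻¹ := fun n g x => by group
  have hncl := hA.ncl (fun v => v ∈ S) (fun v hv g => by
    obtain ⟨w, hw, n, hn, h1⟩ := hperm v hv g
    refine ⟨w, hw, n, hn, fun x hx => ?_⟩
    rw [← h0]
    exact (h1 x).1 hx)
  refine main_fin Λ (fun v => A v) hA.j hC hF hA.j_inj hN (fun v => v ∈ S) ?_ ?_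
    (QuotientGroup.mk' _) (by rw [QuotientGroup.ker_mk', hncl]) hQ
  · intro v hv
    refine stab_fi Λ (fun v => A v) hA.j hN v V A fun g => ?_
    obtain ⟨w, _, n, hn, h1⟩ := hperm v hv g
    rw [← hA.j_range] at hn
    obtain ⟨p, rfl⟩ := hn
    refine ⟨w, p, fun x => ?_⟩
    rw [hA.Av_j, h1, h0]
  · intro v hv g hg
    rw [hA.Av_j] at hg ⊢
    exact hcyc v hv g hg

end Pool.Agent.T2H65.GP
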