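import Pool.Agent.T2H65.GP.Std
import Pool.Agent.T2H65.GP.Axis

/-!
# Centralizers in irreducible graph products
-/

set_option autoImplicit false

namespace Pool.Agent.T2H65.GP

open Pool.Agent.Y110.FJ Monoid
open Pool.Agent.R701.FreeProd

section dec

variable {V : Type} (Λ : SimpleGraph V) (B : V → Type) [∀ v, Group (B v)] (v : V)

theorem dec1 (b : CoprodI (fun _ : Xv Λ B v => B v)) (g : GrP Λ B)
    (h : ((SemidirectProduct.inl b)⁻¹ * Phi Λ B v g * SemidirectProduct.inl b :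
      Dv Λ B v).left = 1) :
    (kap Λ B v b)⁻¹ * g * kap Λ B v b ∈ std Λ B (fun u => u ≠ v) := by
  have hpsi : Psi Λ B v ((SemidirectProduct.inl b)⁻¹ * Phi Λ B v g *
      SemidirectProduct.inl b) = (kap Λ B v b)⁻¹ * g * kap Λ B v b := by
    rw [map_mul, map_mul, map_inv, Psi_Phi, Psi_inl]
  rw [← hpsi, ← SemidirectProduct.inl_left_mul_inr_right
    ((SemidirectProduct.inl b)⁻¹ * Phi Λ B v g * SemidirectProduct.inl b), h,
    map_one, one_mul, Psi_inr]
  exact ⟨_, rfl⟩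

theorem dec2 (b : CoprodI (fun _ : Xv Λ B v => B v)) (g : GrP Λ B) (x : Xv Λ B v) (c : B v)
    (h : ((SemidirectProduct.inl b)⁻¹ * Phi Λ B v g * SemidirectProduct.inl b :
      Dv Λ B v).left = ofx (B v) (Xv Λ B v) x c) (h1 : (Phi Λ B v g).right • x = x) :
    (kap Λ B v b * inc Λ B _ x.out)⁻¹ * g * (kap Λ B v b * inc Λ B _ x.out) ∈
      std Λ B (fun u => u = v ∨ Λ.Adj v u) := by
  have hpsi : Psi Λ B v ((SemidirectProduct.inl b)⁻¹ * Phi Λ B v g *
      SemidirectProduct.inl b) = (kap Λ B v b)⁻¹ * g * kap Λ B v b := by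
    rw [map_mul, map_mul, map_inv, Psi_Phi, Psi_inl]
  have hr : ((SemidirectProduct.inl b)⁻¹ * Phi Λ B v g * SemidirectProduct.inl b :
      Dv Λ B v).right = (Phi Λ B v g).right := right_conj b _
  have h2 : (kap Λ B v b)⁻¹ * g * kap Λ B v b =
      inc Λ B _ x.out * GrP.of Λ B v c * (inc Λ B _ x.out)⁻¹ *
        inc Λ B _ (Phi Λ B v g).right := by
    rw [← hpsi, ← SemidirectProduct.inl_left_mul_inr_right
      ((SemidirectProduct.inl b)⁻¹ * Phi Λ B v g * SemidirectProduct.inl b),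
      h, hr, map_mul, Psi_inl, Psi_inr, kap_of]
  have h3 : x.out⁻¹ * (Phi Λ B v g).right * x.out ∈ Lv Λ B v := by
    apply mk_fix
    rw [QuotientGroup.out_eq']
    exact h1
  have h4 : (kap Λ B v b * inc Λ B _ x.out)⁻¹ * g * (kap Λ B v b * inc Λ B _ x.out) =
      GrP.of Λ B v c * inc Λ B _ (x.out⁻¹ * (Phi Λ B v g).right * x.out) := by
    have h5 : (kap Λ B v b * inc Λ B _ x.out)⁻¹ * g * (kap Λ B v b * inc Λ B _ x.out) =
        (inc Λ B _ x.out)⁻¹ * ((kap Λ B v b)⁻¹ * g * kap Λ B v b) * inc Λ B _ x.out := by group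
    rw [h5, h2, map_mul, map_mul, map_inv]
    group
  rw [h4]
  refine mul_mem (vg_le_std Λ B (Or.inl rfl) ⟨c, rfl⟩) ?_
  exact std_mono Λ B (fun u hu => Or.inr hu) (Lv_mem Λ B v h3)

end dec

/-- the graph is not a join of two nonempty parts -/
def Irr {V : Type} (Λ : SimpleGraph V) : Prop :=
  ∀ T : V → Prop, (∃ t, T t) → (∃ t, ¬ T t) → ∃ t s, T t ∧ ¬ T s ∧ ¬ Λ.Adj t s

section irr

variable {V : Type} [Finite V] (Λ : SimpleGraph V) (B : V → Type) [∀ v, Group (B v)]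

theorem std_bot {T : V → Prop} (h : ∀ v, ¬ T v) {x : GrP Λ B} (hx : x ∈ std Λ B T) : x = 1 := by
  have h1 : std Λ B T ≤ ⊥ := std_le Λ B fun v hv => absurd hv (h v)
  exact (Subgroup.mem_bot).1 (h1 hx)

/-- all elements commuting with an element of full support have full support -/
theorem comm_Mn (hirr : Irr Λ) {x y : GrP Λ B} (hx : Mn Λ B (fun _ => True) x) (hy : y ≠ 1)
    (hxy : y * x = x * y) : Mn Λ B (fun _ => True) y := by
  refine ⟨by rw [std_top Λ B (fun _ => trivial)]; exact Subgroup.mem_top _, ?_⟩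
  rintro T' _ ⟨v, _, hv⟩ c' hc'
  obtain ⟨T, c, hT⟩ := exists_Mn Λ B y
  have h1 : ∀ u, T u → T' u := by
    intro u hu
    refine Mn_sub Λ B (c := c⁻¹ * c') hT ?_ u hu
    have : (c⁻¹ * c')⁻¹ * (c⁻¹ * y * c) * (c⁻¹ * c') = c'⁻¹ * y * c' := by group
    rw [this]
    exact hc'
  have h2 : (c⁻¹ * x * c) * (c⁻¹ * y * c) = (c⁻¹ * y * c) * (c⁻¹ * x * c) := by
    have h3 : (c⁻¹ * x * c) * (c⁻¹ * y * c) = c⁻¹ * (x * y) * c := by group
    have h4 : (c⁻¹ * y * c) * (c⁻¹ * x * c) = c⁻¹ * (y * x) * c := by group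
    rw [h3, h4, hxy]
  have h3 := cent_Mn _ V Λ B le_rfl T _ hT _ h2
  have h4 : (Subgroup.centralizer {c⁻¹ * y * c} ⊓ std Λ B T) ⊔
      (⨆ v : {v // ∀ t, T t → Λ.Adj v t}, vg Λ B v.1) ≤
      std Λ B (fun v => T v ∨ ∀ t, T t → Λ.Adj v t) := by
    refine sup_le (inf_le_right.trans (std_mono Λ B fun v hv => Or.inl hv)) (iSup_le ?_)
    exact fun v => vg_le_std Λ B (Or.inr v.2)
  have h5 := fun u => Mn_sub Λ B hx (h4 h3) u trivial
  have h6 : ∃ t, T t := by
    by_contra h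
    push Not at h
    have h7 := std_bot Λ B h hT.1
    apply hy
    have : y = c * (c⁻¹ * y * c) * c⁻¹ := by group
    rw [this, h7]
    group
  obtain ⟨t, s, ht, hs, hts⟩ := hirr T h6 ⟨v, fun h => hv (h1 v h)⟩
  exact hts (((h5 s).resolve_left hs t ht).symm)

/-- **centralizers in irreducible graph products** -/
theorem cent_irr (hirr : Irr Λ) (v u : V) (huv : u ≠ v) (hB : ∀ v, TF (B v)) {x : GrP Λ B}
    (hx : Mn Λ B (fun _ => True) x) :
    ∃ z, z * x = x * z ∧ ∀ y, y * x = x * y → y ∈ Subgroup.zpowers z := by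
  have hstar : ∃ s, ¬ (s = v ∨ Λ.Adj v s) := by
    obtain ⟨t, s, ht, hs, hts⟩ := hirr (fun t => t = v) ⟨v, rfl⟩ ⟨u, huv⟩
    subst ht
    exact ⟨s, fun h => h.elim hs hts⟩
  obtain ⟨b, hb⟩ := exists_CR (len (Phi Λ B v x).left) (Phi Λ B v x) le_rfl
  rcases hb with h1 | ⟨y, c, h1, h2⟩ | ⟨h1, h2⟩
  · exact absurd (dec1 Λ B v b x h1) (hx.2 _ (fun _ _ => trivial)
      ⟨v, trivial, fun h => h rfl⟩ _)
  · obtain ⟨s, hs⟩ := hstar
    exact absurd (dec2 Λ B v b x y c h1 h2) (hx.2 _ (fun _ _ => trivial) ⟨s, trivial, hs⟩ _)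
  · obtain ⟨F, hF⟩ : ∃ F : GrP Λ B →* Dv Λ B v, F =
        (MulAut.conj ((SemidirectProduct.inl b : Dv Λ B v)⁻¹)).toMonoidHom.comp (Phi Λ B v) :=
      ⟨_, rfl⟩
    have hFa : ∀ g, F g = (SemidirectProduct.inl b)⁻¹ * Phi Λ B v g * SemidirectProduct.inl b := by
      intro g
      rw [hF]
      show (SemidirectProduct.inl b)⁻¹ * Phi Λ B v g * ((SemidirectProduct.inl b)⁻¹)⁻¹ = _
      rw [inv_inv]
    have hFi : Function.Injective F := by
      rw [hF]
      exact (MulAut.conj _).injective.comp (Function.LeftInverse.injective (Psi_Phi Λ B v))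
    have htf := tf _ V Λ B le_rfl hB
    obtain ⟨y₀, ⟨z, hz, rfl⟩, hy₀⟩ := cyc_of_axis ((Subgroup.centralizer {x}).map F) (F x)
      ⟨x, Subgroup.mem_centralizer_singleton_iff.2 rfl, rfl⟩ (by
        rw [hFa, right_conj]
        exact h2) (by rw [hFa]; exact h1) (by
        rintro _ ⟨y, hy, rfl⟩
        have hy' : y * x = x * y := Subgroup.mem_centralizer_singleton_iff.1 hy
        rw [← map_mul, ← map_mul, hy']) (by
        rintro _ ⟨y, hy, rfl⟩ hy1
        have hy' : y * x = x * y := Subgroup.mem_centralizer_singleton_iff.1 hy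
        rw [hFa] at hy1
        have h3 := dec1 Λ B v b y hy1
        by_contra hne
        have hne' : y ≠ 1 := fun h => hne (by rw [h, map_one])
        exact (comm_Mn Λ B hirr hx hne' hy').2 _ (fun _ _ => trivial)
          ⟨v, trivial, fun h => h rfl⟩ _ h3) (by
        rintro _ ⟨y, hy, rfl⟩ hy1
        have h3 : y * y = 1 := by
          apply hFi
          rw [map_mul, hy1, map_one]
        have h4 : y = 1 := htf y (isOfFinOrder_iff_pow_eq_one.2 ⟨2, two_pos, by rw [sq, h3]⟩)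
        rw [h4, map_one])
    refine ⟨z, Subgroup.mem_centralizer_singleton_iff.1 hz, fun y hy => ?_⟩
    obtain ⟨n, hn⟩ := hy₀ (F y) ⟨y, Subgroup.mem_centralizer_singleton_iff.2 hy, rfl⟩
    refine ⟨n, hFi ?_⟩
    rw [map_zpow]
    exact hn

end irr

end Pool.Agent.T2H65.GP
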