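import Pool.Agent.T2H65.GP.Irr

/-!
# The number of generators of centralizers in graph products of infinite cyclic groups
-/

set_option autoImplicit false

namespace Pool.Agent.T2H65.GP

open Pool.Agent.Y110.FJ Monoid

/-- `H` is generated by at most `k` elements -/
def Gb {G : Type} [Group G] (H : Subgroup G) (k : ℕ) : Prop :=
  ∃ s : Set G, s.Finite ∧ s.ncard ≤ k ∧ Subgroup.closure s = H

section Gb

variable {G : Type} [Group G]

theorem Gb.sup {H K : Subgroup G} {k l : ℕ} (hH : Gb H k) (hK : Gb K l) : Gb (H ⊔ K) (k + l) := by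
  obtain ⟨s, hs, hs', rfl⟩ := hH
  obtain ⟨t, ht, ht', rfl⟩ := hK
  refine ⟨s ∪ t, hs.union ht, ?_, Subgroup.closure_union s t⟩
  have := Set.ncard_union_le s t
  omega

theorem Gb.map {H : Subgroup G} {k : ℕ} (hH : Gb H k) {G' : Type} [Group G'] (f : G →* G') :
    Gb (H.map f) k := by
  obtain ⟨s, hs, hs', rfl⟩ := hH
  refine ⟨f '' s, hs.image f, (Set.ncard_image_le hs).trans hs', ?_⟩
  rw [MonoidHom.map_closure]

theorem Gb_zpowers (x : G) : Gb (Subgroup.zpowers x) 1 :=
  ⟨{x}, Set.finite_singleton x, by rw [Set.ncard_singleton], (Subgroup.zpowers_eq_closure x).symm⟩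

theorem Gb.mono {H : Subgroup G} {k l : ℕ} (hH : Gb H k) (h : k ≤ l) : Gb H l := by
  obtain ⟨s, hs, hs', rfl⟩ := hH
  exact ⟨s, hs, hs'.trans h, rfl⟩

theorem Gb_iSup {ι : Type} [Finite ι] (x : ι → G) : Gb (⨆ i, Subgroup.zpowers (x i)) (Nat.card ι) := by
  refine ⟨Set.range x, Set.finite_range x, ?_, ?_⟩
  · rw [← Set.image_univ, ← Set.ncard_univ]
    exact Set.ncard_image_le Set.finite_univ
  · have h1 : Set.range x = ⋃ i, {x i} := by
      ext y
      simp [eq_comm]
    rw [h1, Subgroup.closure_iUnion]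
    congr 1
    funext i
    exact (Subgroup.zpowers_eq_closure (x i)).symm

end Gb

/-- the number of vertices of the star -/
noncomputable def star {V : Type} (Λ : SimpleGraph V) (t : V) : ℕ := {u | u = t ∨ Λ.Adj t u}.ncard

section join

variable {V : Type} (Λ : SimpleGraph V) (B : V → Type) [∀ v, Group (B v)]

theorem std_comm {T T' : V → Prop} (h : ∀ t s, T t → T' s → Λ.Adj t s) {x y : GrP Λ B}
    (hx : x ∈ std Λ B T) (hy : y ∈ std Λ B T') : x * y = y * x := by
  have h1 : ∀ s, T' s → ∀ b : B s, std Λ B T ≤ Subgroup.centralizer {GrP.of Λ B s b} := by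
    intro s hs b
    refine std_le Λ B fun t ht => ?_
    rintro _ ⟨a, rfl⟩
    exact Subgroup.mem_centralizer_singleton_iff.2 (of_comm (h t s ht hs) a b)
  have h2 : std Λ B T' ≤ Subgroup.centralizer {x} := by
    refine std_le Λ B fun s hs => ?_
    rintro _ ⟨b, rfl⟩
    exact Subgroup.mem_centralizer_singleton_iff.2
      (Subgroup.mem_centralizer_singleton_iff.1 (h1 s hs b hx)).symm
  exact (Subgroup.mem_centralizer_singleton_iff.1 (h2 hy)).symm

theorem join_dec {T : V → Prop} (h : ∀ t s, T t → ¬ T s → Λ.Adj t s) (y : GrP Λ B) :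
    er Λ B T y * er Λ B (fun v => ¬ T v) y = y := by
  refine gind (p := fun y => er Λ B T y * er Λ B (fun v => ¬ T v) y = y) ?_ ?_ ?_ y
  · rw [map_one, map_one, one_mul]
  · intro v b
    by_cases hv : T v
    · rw [er_of Λ B hv, er_of' Λ B (T := fun v => ¬ T v) (not_not.2 hv), mul_one]
    · rw [er_of' Λ B hv, er_of Λ B (T := fun v => ¬ T v) hv, one_mul]
  · intro x y hx hy
    rw [map_mul, map_mul]
    have h1 := std_comm Λ B h (er_mem Λ B T y) (er_mem Λ B (fun v => ¬ T v) x)
    calc er Λ B T x * er Λ B T y * (er Λ B (fun v => ¬ T v) x * er Λ B (fun v => ¬ T v) y)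
        = er Λ B T x * (er Λ B T y * er Λ B (fun v => ¬ T v) x) * er Λ B (fun v => ¬ T v) y := by
          group
      _ = (er Λ B T x * er Λ B (fun v => ¬ T v) x) *
          (er Λ B T y * er Λ B (fun v => ¬ T v) y) := by
          rw [h1]
          group
      _ = x * y := by rw [hx, hy]

/-- the centralizer in a join -/
theorem join_cent {T : V → Prop} (h : ∀ t s, T t → ¬ T s → Λ.Adj t s) (x : GrP Λ B) :
    Subgroup.centralizer {x} = (Subgroup.centralizer {ret Λ B T x}).map (inc Λ B T) ⊔
      (Subgroup.centralizer {ret Λ B (fun v => ¬ T v) x}).map (inc Λ B (fun v => ¬ T v)) := by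
  apply le_antisymm
  · intro y hy
    have hy' : y * x = x * y := Subgroup.mem_centralizer_singleton_iff.1 hy
    rw [← join_dec Λ B h y]
    refine Subgroup.mul_mem_sup ⟨ret Λ B T y, Subgroup.mem_centralizer_singleton_iff.2 ?_, rfl⟩
      ⟨ret Λ B _ y, Subgroup.mem_centralizer_singleton_iff.2 ?_, rfl⟩
    · rw [← map_mul, hy', map_mul]
    · rw [← map_mul, hy', map_mul]
  · refine sup_le ?_ ?_
    · rintro _ ⟨z, hz, rfl⟩
      have hz' : z * ret Λ B T x = ret Λ B T x * z := Subgroup.mem_centralizer_singleton_iff.1 hz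
      refine Subgroup.mem_centralizer_singleton_iff.2 ?_
      have h1 : inc Λ B T z * er Λ B T x = er Λ B T x * inc Λ B T z := by
        rw [er, MonoidHom.comp_apply, ← map_mul, hz', map_mul]
      have h2 := std_comm Λ B h (x := inc Λ B T z) ⟨z, rfl⟩ (er_mem Λ B (fun v => ¬ T v) x)
      conv_lhs => rw [← join_dec Λ B h x]
      conv_rhs => rw [← join_dec Λ B h x]
      rw [← mul_assoc, h1, mul_assoc, h2, mul_assoc]
    · rintro _ ⟨z, hz, rfl⟩
      have hz' : z * ret Λ B (fun v => ¬ T v) x = ret Λ B (fun v => ¬ T v) x * z :=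
        Subgroup.mem_centralizer_singleton_iff.1 hz
      refine Subgroup.mem_centralizer_singleton_iff.2 ?_
      have h1 : inc Λ B (fun v => ¬ T v) z * er Λ B (fun v => ¬ T v) x =
          er Λ B (fun v => ¬ T v) x * inc Λ B (fun v => ¬ T v) z := by
        rw [er, MonoidHom.comp_apply, ← map_mul, hz', map_mul]
      have h2 := std_comm Λ B h (er_mem Λ B T x) (y := inc Λ B (fun v => ¬ T v) z) ⟨z, rfl⟩
      conv_lhs => rw [← join_dec Λ B h x]
      conv_rhs => rw [← join_dec Λ B h x]
      rw [← mul_assoc, ← h2, mul_assoc, h1, mul_assoc]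

theorem join_Mn {T : V → Prop} (h : ∀ t s, T t → ¬ T s → Λ.Adj t s) {x : GrP Λ B}
    (hx : Mn Λ B (fun _ => True) x) :
    Mn (Λ.comap (Subtype.val : {v // T v} → V)) (fun w : {v // T v} => B w.1) (fun _ => True)
      (ret Λ B T x) := by
  refine ⟨by rw [std_top _ _ (fun _ => trivial)]; exact Subgroup.mem_top _, ?_⟩
  rintro T' _ ⟨⟨v, hv⟩, _, hv'⟩ c hc
  have h1 : (inc Λ B T c)⁻¹ * x * inc Λ B T c =
      inc Λ B T (c⁻¹ * ret Λ B T x * c) * er Λ B (fun v => ¬ T v) x := by
    have h2 := std_comm Λ B h (x := inc Λ B T c) ⟨c, rfl⟩ (er_mem Λ B (fun v => ¬ T v) x)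
    conv_lhs => rw [← join_dec Λ B h x]
    rw [map_mul, map_mul, map_inv]
    show (inc Λ B T c)⁻¹ * (inc Λ B T (ret Λ B T x) * er Λ B (fun v => ¬ T v) x) * inc Λ B T c = _
    rw [mul_assoc, mul_assoc, ← h2]
    group
  refine hx.2 (fun u => (∃ hu : T u, T' ⟨u, hu⟩) ∨ ¬ T u) (fun _ _ => trivial)
    ⟨v, trivial, fun h3 => ?_⟩ (inc Λ B T c) ?_
  · rcases h3 with ⟨_, h4⟩ | h4
    · exact hv' h4
    · exact h4 hv
  · rw [h1]
    refine mul_mem (std_mono Λ B (fun u hu => Or.inl hu) ((inc_mem_std Λ B).2 ?_))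
      (std_mono Λ B (fun u hu => Or.inr hu) (er_mem Λ B _ x))
    have h4 : (fun w : {v // T v} => (fun u => ∃ hu : T u, T' ⟨u, hu⟩) w.1) = T' := by
      funext w
      exact propext ⟨fun ⟨_, h⟩ => h, fun h => ⟨w.2, h⟩⟩
    rw [h4]
    exact hc

theorem star_join [Finite V] {T : V → Prop} (h : ∀ t s, T t → ¬ T s → Λ.Adj t s) (t : {v // T v}) :
    star Λ t.1 = star (Λ.comap (Subtype.val : {v // T v} → V)) t + Nat.card {v // ¬ T v} := by
  have h1 : {u | u = t.1 ∨ Λ.Adj t.1 u} = ((Subtype.val : {v // T v} → V) ''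
      {u | u = t ∨ (Λ.comap (Subtype.val : {v // T v} → V)).Adj t u}) ∪ {v | ¬ T v} := by
    ext u
    constructor
    · intro hu
      by_cases hT : T u
      · refine Or.inl ⟨⟨u, hT⟩, ?_, rfl⟩
        rcases hu with hu | hu
        · exact Or.inl (Subtype.ext hu)
        · exact Or.inr hu
      · exact Or.inr hT
    · rintro (⟨w, hw, rfl⟩ | hu)
      · rcases hw with hw | hw
        · exact Or.inl (congrArg Subtype.val hw)
        · exact Or.inr hw
      · exact Or.inr (h t.1 u t.2 hu)
  rw [star, star, h1, Set.ncard_union_eq ?_ (Set.toFinite _) (Set.toFinite _),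
    Set.ncard_image_of_injective _ Subtype.val_injective]
  · rfl
  · rw [Set.disjoint_left]
    rintro _ ⟨w, _, rfl⟩ hw
    exact hw w.2

end join

theorem star_le {V : Type} [Finite V] (Λ : SimpleGraph V) (t : V) : star Λ t ≤ Nat.card V := by
  rw [star, ← Set.ncard_univ]
  exact Set.ncard_le_ncard (Set.subset_univ _) (Set.toFinite _)

theorem star_pos {V : Type} [Finite V] (Λ : SimpleGraph V) (t : V) : 1 ≤ star Λ t := by
  have : {u | u = t ∨ Λ.Adj t u}.Nonempty := ⟨t, Or.inl rfl⟩
  exact (Set.ncard_pos (Set.toFinite _)).2 this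

theorem adj_of_star {V : Type} [Finite V] {Λ : SimpleGraph V} {t : V} (h : Nat.card V ≤ star Λ t)
    {u : V} (hu : u ≠ t) : Λ.Adj t u := by
  have h1 : {u | u = t ∨ Λ.Adj t u} = Set.univ := by
    apply Set.eq_of_subset_of_ncard_le (Set.subset_univ _) _ (Set.toFinite _)
    rw [Set.ncard_univ]
    exact h
  have h2 : u ∈ {u | u = t ∨ Λ.Adj t u} := by
    rw [h1]
    exact Set.mem_univ _
  exact h2.resolve_left hu

/-- **centralizers of elements of full support** -/
theorem cnt (n : ℕ) : ∀ (V : Type) [Finite V] (Λ : SimpleGraph V) (B : V → Type)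
    [∀ v, Group (B v)] (_ : Nat.card V ≤ n) (_ : ∀ v, IsCyclic (B v)) (_ : ∀ v, TF (B v))
    (_ : Nonempty V) (x : GrP Λ B) (_ : Mn Λ B (fun _ => True) x),
    ∃ k, Gb (Subgroup.centralizer {x}) k ∧ (∀ t, k ≤ star Λ t) ∧
      ((∀ t, k = star Λ t) → (∀ u w, u ≠ w → Λ.Adj u w) ∨ ∀ u w, ¬ Λ.Adj u w) := by
  induction n with
  | zero =>
    intro V _ Λ B _ hn _ _ hV
    have hV' : IsEmpty V := (Finite.card_eq_zero_iff).1 (Nat.le_zero.1 hn)
    exact (hV'.false hV.some).elim
  | succ n ih =>
    intro V _ Λ B _ hn hcyc hTF hV x hx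
    by_cases hirr : Irr Λ
    · by_cases hne : ∃ u v : V, u ≠ v
      · obtain ⟨u, v, huv⟩ := hne
        obtain ⟨z, hz, hz'⟩ := cent_irr Λ B hirr v u huv hTF hx
        have h1 : Subgroup.centralizer {x} = Subgroup.zpowers z := by
          apply le_antisymm
          · intro y hy
            exact hz' y (Subgroup.mem_centralizer_singleton_iff.1 hy)
          · rw [Subgroup.zpowers_le]
            exact Subgroup.mem_centralizer_singleton_iff.2 hz
        refine ⟨1, by rw [h1]; exact Gb_zpowers z, star_pos Λ, fun h => Or.inr fun t s hts => ?_⟩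
        have h2 : ({t, s} : Set V).ncard ≤ star Λ t := by
          apply Set.ncard_le_ncard _ (Set.toFinite _)
          rintro y (rfl | rfl)
          · exact Or.inl rfl
          · exact Or.inr hts
        rw [Set.ncard_pair hts.ne, ← h t] at h2
        omega
      · push Not at hne
        obtain ⟨v⟩ := hV
        have h1 : ∀ y : GrP Λ B, y ∈ vg Λ B v := by
          intro y
          refine gind (p := fun y => y ∈ vg Λ B v) (one_mem _) (fun u b => ?_)
            (fun x y hx hy => mul_mem hx hy) y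
          have := hne u v
          subst this
          exact ⟨b, rfl⟩
        obtain ⟨g, hg⟩ := (hcyc v).exists_generator
        have h2 : ∀ y : GrP Λ B, y ∈ Subgroup.zpowers (GrP.of Λ B v g) := by
          intro y
          obtain ⟨b, rfl⟩ := h1 y
          obtain ⟨n, hn⟩ := hg b
          exact ⟨n, by rw [← hn]; exact (map_zpow (GrP.of Λ B v) g n).symm⟩
        have h3 : Subgroup.centralizer {x} = Subgroup.zpowers (GrP.of Λ B v g) := by
          apply le_antisymm
          · intro y _
            exact h2 y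
          · rw [Subgroup.zpowers_le]
            obtain ⟨n, hn⟩ := h2 x
            refine Subgroup.mem_centralizer_singleton_iff.2 ?_
            rw [← hn]
            exact (Commute.zpow_right (Commute.refl _) n)
        refine ⟨1, by rw [h3]; exact Gb_zpowers _, star_pos Λ, fun _ => Or.inr fun t s hts => ?_⟩
        exact hts.ne (hne t s)
    · -- a join
      rw [Irr] at hirr
      push Not at hirr
      obtain ⟨T, ⟨t₀, ht₀⟩, ⟨s₀, hs₀⟩, hT⟩ := hirr
      have hT' : ∀ t s, ¬ T t → ¬ ¬ T s → Λ.Adj t s := fun t s ht hs =>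
        (hT s t (not_not.1 hs) ht).symm
      have hc1 : Nat.card {v // T v} ≤ n := by
        have := Finite.card_subtype_lt (p := fun w => T w) (x := s₀) hs₀
        omega
      have hc2 : Nat.card {v // ¬ T v} ≤ n := by
        have := Finite.card_subtype_lt (p := fun w => ¬ T w) (x := t₀) (not_not.2 ht₀)
        omega
      obtain ⟨k1, h1, h1', h1''⟩ := ih {v // T v} (Λ.comap (Subtype.val : {v // T v} → V))
        (fun w : {v // T v} => B w.1) hc1 (fun w => hcyc w.1) (fun w => hTF w.1) ⟨⟨t₀, ht₀⟩⟩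
        _ (join_Mn Λ B hT hx)
      obtain ⟨k2, h2, h2', h2''⟩ := ih {v // ¬ T v} (Λ.comap (Subtype.val : {v // ¬ T v} → V))
        (fun w : {v // ¬ T v} => B w.1) hc2 (fun w => hcyc w.1) (fun w => hTF w.1) ⟨⟨s₀, hs₀⟩⟩
        _ (join_Mn Λ B (T := fun v => ¬ T v) hT' hx)
      have e1 : ∀ t : {v // T v}, star Λ t.1 =
          star (Λ.comap (Subtype.val : {v // T v} → V)) t + Nat.card {v // ¬ T v} :=
        fun t => star_join Λ hT t
      have e2 : ∀ t : {v // ¬ T v}, star Λ t.1 =
          star (Λ.comap (Subtype.val : {v // ¬ T v} → V)) t + Nat.card {v // T v} := by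
        intro t
        have h3 := star_join Λ (T := fun v => ¬ T v) hT' t
        have h4 : Nat.card {v // ¬ ¬ T v} = Nat.card {v // T v} :=
          Nat.card_congr (Equiv.subtypeEquivRight fun v => not_not)
        rw [h4] at h3
        exact h3
      have b1 : k1 ≤ Nat.card {v // T v} := (h1' ⟨t₀, ht₀⟩).trans (star_le _ _)
      have b2 : k2 ≤ Nat.card {v // ¬ T v} := (h2' ⟨s₀, hs₀⟩).trans (star_le _ _)
      refine ⟨k1 + k2, ?_, ?_, ?_⟩
      · rw [join_cent Λ B hT x]
        exact (h1.map _).sup (h2.map _)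
      · intro t
        by_cases ht : T t
        · have h3 := e1 ⟨t, ht⟩
          have h4 := h1' ⟨t, ht⟩
          rw [show star Λ t = star Λ (⟨t, ht⟩ : {v // T v}).1 from rfl, h3]
          omega
        · have h3 := e2 ⟨t, ht⟩
          have h4 := h2' ⟨t, ht⟩
          rw [show star Λ t = star Λ (⟨t, ht⟩ : {v // ¬ T v}).1 from rfl, h3]
          omega
      · intro h
        left
        have f1 : ∀ t : {v // T v}, Nat.card {v // T v} ≤
            star (Λ.comap (Subtype.val : {v // T v} → V)) t := by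
          intro t
          have h3 := h s₀
          have h4 := e2 ⟨s₀, hs₀⟩
          have h5 := h2' ⟨s₀, hs₀⟩
          have h6 := h t.1
          have h7 := e1 t
          have h8 : star Λ (⟨s₀, hs₀⟩ : {v // ¬ T v}).1 = star Λ s₀ := rfl
          have h9 := h1' t
          omega
        have f2 : ∀ t : {v // ¬ T v}, Nat.card {v // ¬ T v} ≤
            star (Λ.comap (Subtype.val : {v // ¬ T v} → V)) t := by
          intro t
          have h3 := h t₀
          have h4 := e1 ⟨t₀, ht₀⟩
          have h5 := h1' ⟨t₀, ht₀⟩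
          have h6 := h t.1
          have h7 := e2 t
          have h8 : star Λ (⟨t₀, ht₀⟩ : {v // T v}).1 = star Λ t₀ := rfl
          have h9 := h2' t
          omega
        intro u w huw
        by_cases hu : T u
        · by_cases hw : T w
          · exact adj_of_star (f1 ⟨u, hu⟩) (u := ⟨w, hw⟩) (fun h => huw (congrArg Subtype.val h).symm)
          · exact hT u w hu hw
        · by_cases hw : T w
          · exact (hT w u hw hu).symm
          · exact adj_of_star (f2 ⟨u, hu⟩) (u := ⟨w, hw⟩) (fun h => huw (congrArg Subtype.val h).symm)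

end Pool.Agent.T2H65.GP
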