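import Pool.Agent.T2H65.GP.Raag

/-!
# Extensions by graph products of finite groups and infinite cyclic groups
-/

set_option autoImplicit false

namespace Pool.Agent.T2H65.GP

open Pool.Agent.Y110.FJ Monoid
open Pool.Agent.R684.FP
open Pool.Agent.R941.FJ (C_equiv C_le C_cyc mem_sup_normal)
open Pool.Agent.Y529.FJ (up)

variable {C : ∀ (G : Type) [Group G], Prop}

theorem TF_of_equiv {B : Type} [Group B] (e : B ≃* Multiplicative ℤ) : TF B := by
  intro g hg
  obtain ⟨n, hn, h1⟩ := isOfFinOrder_iff_pow_eq_one.1 hg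
  have h2 : (e g) ^ n = 1 := by rw [← map_pow, h1, map_one]
  have h3 : n * Multiplicative.toAdd (e g) = 0 := by
    have := congrArg Multiplicative.toAdd h2
    rw [toAdd_pow, toAdd_one, nsmul_eq_mul] at this
    exact this
  have h4 : Multiplicative.toAdd (e g) = 0 := by
    rcases mul_eq_zero.1 h3 with h | h
    · have : n = 0 := by exact_mod_cast h
      omega
    · exact h
  have h5 : e g = 1 := by
    apply Multiplicative.toAdd.injective
    rw [h4, toAdd_one]
  rwa [← map_one e, e.injective.eq_iff] at h5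

/-- the kernel generated by the finite vertex groups -/
theorem ncl_tor {V : Type} (Λ : SimpleGraph V) (B : V → Type) [Finite V] [∀ v, Group (B v)]
    (S : V → Prop) (hSf : ∀ v, S v → Finite (B v)) (hSt : ∀ v, ¬ S v → TF (B v)) {G : Type}
    [Group G] (j : GrP Λ B →* G) (hj : Function.Injective j) (hN : j.range.Normal) :
    (NCl Λ B S).map j = Subgroup.normalClosure {x : G | x ∈ j.range ∧ IsOfFinOrder x} := by
  have hAvf : ∀ v, S v → Finite (Av Λ B j v) := by
    intro v hv
    have := hSf v hv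
    have h1 : Finite (vg Λ B v) := Finite.of_surjective (GrP.of Λ B v).rangeRestrict
      (MonoidHom.rangeRestrict_surjective _)
    exact fin_map j h1
  have htor : ∀ x, x ∈ j.range → IsOfFinOrder x → x ∈ (NCl Λ B S).map j := by
    rintro _ ⟨y, rfl⟩ hy
    have h1 : IsOfFinOrder y := (hj.isOfFinOrder_iff).1 hy
    have h2 := tf (Nat.card {w // ¬ S w}) {w // ¬ S w}
      (Λ.comap (Subtype.val : {w // ¬ S w} → V)) (fun w : {w // ¬ S w} => B w.1) le_rfl
      (fun w => hSt w.1 w.2) _ (MonoidHom.isOfFinOrder (ret Λ B (fun w => ¬ S w)) h1)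
    refine ⟨y, ?_, rfl⟩
    have h3 : y ∈ (ret Λ B (fun w => ¬ S w)).ker := h2
    rw [ker_ret] at h3
    have h4 : (fun v => ¬ ¬ S v) = S := by
      funext v
      exact propext not_not
    rw [h4] at h3
    exact h3
  have hle : ∀ v, Av Λ B j v ≤ j.range := fun v => by
    rintro _ ⟨y, _, rfl⟩
    exact ⟨y, rfl⟩
  have hnor : ((NCl Λ B S).map j).Normal := by
    apply norm'
    intro v hv g x hx
    refine htor _ (hN.conj_mem x (hle v hx) g) ?_
    have h1 := hAvf v hv
    have h2 : IsOfFinOrder (⟨x, hx⟩ : Av Λ B j v) := isOfFinOrder_of_finite _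
    have h3 : IsOfFinOrder x := MonoidHom.isOfFinOrder (Av Λ B j v).subtype h2
    exact MonoidHom.isOfFinOrder (MulAut.conj g).toMonoidHom h3
  apply le_antisymm
  · rw [Subgroup.map_le_iff_le_comap]
    apply Subgroup.normalClosure_le_normal
    rintro y ⟨v, hv, hy⟩
    refine Subgroup.subset_normalClosure ⟨⟨y, rfl⟩, ?_⟩
    have h1 := hAvf v hv
    have h2 : IsOfFinOrder (⟨j y, ⟨y, hy, rfl⟩⟩ : Av Λ B j v) := isOfFinOrder_of_finite _
    exact MonoidHom.isOfFinOrder (Av Λ B j v).subtype h2
  · apply Subgroup.normalClosure_le_normal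
    rintro x ⟨hx, hx'⟩
    exact htor x hx hx'

/-- **extensions by graph products of finite groups and infinite cyclic groups** -/
theorem mixed_ext (hC : ClosedE C) (hF : FbC C) (hA : AbC C) {V : Type} [Finite V]
    (Λ : SimpleGraph V) (B : V → Type) [∀ v, Group (B v)]
    (hB : ∀ v, Finite (B v) ∨ Nonempty (B v ≃* Multiplicative ℤ)) {G : Type} [Group G]
    (j : GrP Λ B →* G) (hj : Function.Injective j) (hN : j.range.Normal)
    (hQ : C (G ⧸ j.range)) : C G := by
  refine main_tor_ext hC hF Λ B (fun v => (hB v).imp_right fun ⟨e⟩ => TF_of_equiv e) j hj hN ?_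
  obtain ⟨M, hM⟩ : ∃ M : Subgroup G,
      M = Subgroup.normalClosure {x : G | x ∈ j.range ∧ IsOfFinOrder x} := ⟨_, rfl⟩
  have hMn : M.Normal := by rw [hM]; infer_instance
  have hM' : M = (NCl Λ B fun v => Finite (B v)).map j := by
    rw [hM]
    refine (ncl_tor Λ B (fun v => Finite (B v)) (fun v hv => hv) (fun v hv => ?_) j hj hN).symm
    obtain ⟨e⟩ := (hB v).resolve_left hv
    exact TF_of_equiv e
  subst hM
  obtain ⟨j', π', h1, h2, h3⟩ := quot_data Λ B (fun v => Finite (B v)) j hj hN
    (QuotientGroup.mk' j.range) (QuotientGroup.ker_mk' _) _ hM'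
  exact raag hC hF hA _ {w // ¬ Finite (B w)} (Λ.comap (Subtype.val : {w // ¬ Finite (B w)} → V))
    (fun w : {w // ¬ Finite (B w)} => B w.1)
    (fun w => Classical.choice ((hB w.1).resolve_left w.2)) le_rfl _ _ j' h1 h2 π' h3 hQ

/-- **extensions by graph products of finite groups and infinite cyclic groups** -/
theorem mixed (hC : ClosedE C) (hF : FbC C) (hA : AbC C) {G V : Type} [Group G] [Finite V]
    (Λ : SimpleGraph V) (N : Subgroup G) [hNn : N.Normal] (A : V → Subgroup G)
    (hGP : IsGraphProd Λ N A)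
    (hv : ∀ v, Finite (A v) ∨ Nonempty (A v ≃* Multiplicative ℤ)) (hQ : C (G ⧸ N)) : C G := by
  have hr := hGP.j_range
  have hn : hGP.j.range.Normal := by rw [hr]; exact hNn
  refine mixed_ext hC hF hA Λ (fun v => A v) hv hGP.j hGP.j_inj hn ?_
  exact C_equiv hC.base (QuotientGroup.quotientMulEquivOfEq hr) hQ

end Pool.Agent.T2H65.GP
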