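import Pool.Agent.T2H65.GP.FC

/-!
# Standard subgroups of graph products and centralizers
-/

set_option autoImplicit false

namespace Pool.Agent.T2H65.GP

open Pool.Agent.Y110.FJ Monoid
open Pool.Agent.R701.FreeProd

section std

variable {V : Type} (Λ : SimpleGraph V) (B : V → Type) [∀ v, Group (B v)]

/-- the retraction onto a standard subgroup, as an endomorphism -/
noncomputable def er (T : V → Prop) : GrP Λ B →* GrP Λ B := (inc Λ B T).comp (ret Λ B T)

theorem er_of {T : V → Prop} {v : V} (h : T v) (b : B v) :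
    er Λ B T (GrP.of Λ B v b) = GrP.of Λ B v b := by
  rw [er, MonoidHom.comp_apply, ret_of Λ B T v h, inc_of]

theorem er_of' {T : V → Prop} {v : V} (h : ¬ T v) (b : B v) :
    er Λ B T (GrP.of Λ B v b) = 1 := by
  rw [er, MonoidHom.comp_apply, ret_of' Λ B T v h, map_one]

/-- the standard subgroup -/
noncomputable def std (T : V → Prop) : Subgroup (GrP Λ B) := (inc Λ B T).range

theorem er_mem (T : V → Prop) (x : GrP Λ B) : er Λ B T x ∈ std Λ B T := ⟨_, rfl⟩

theorem mem_std {T : V → Prop} {x : GrP Λ B} : x ∈ std Λ B T ↔ er Λ B T x = x := by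
  constructor
  · rintro ⟨y, rfl⟩
    rw [er, MonoidHom.comp_apply, ret_inc]
  · intro h
    rw [← h]
    exact er_mem Λ B T x

theorem er_er (T T' : V → Prop) (x : GrP Λ B) :
    er Λ B T (er Λ B T' x) = er Λ B (fun v => T v ∧ T' v) x := by
  have : (er Λ B T).comp (er Λ B T') = er Λ B (fun v => T v ∧ T' v) := by
    apply ghom_ext
    intro v b
    rw [MonoidHom.comp_apply]
    by_cases h' : T' v
    · rw [er_of Λ B h']
      by_cases h : T v
      · rw [er_of Λ B h, er_of Λ B (T := fun v => T v ∧ T' v) ⟨h, h'⟩]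
      · rw [er_of' Λ B h, er_of' Λ B (T := fun v => T v ∧ T' v) (fun h2 => h h2.1)]
    · rw [er_of' Λ B h', map_one, er_of' Λ B (T := fun v => T v ∧ T' v) (fun h2 => h' h2.2)]
  exact DFunLike.congr_fun this x

theorem er_congr {T T' : V → Prop} (h : ∀ v, T v ↔ T' v) : er Λ B T = er Λ B T' := by
  have : T = T' := funext fun v => propext (h v)
  rw [this]

theorem std_mono {T T' : V → Prop} (h : ∀ v, T v → T' v) : std Λ B T ≤ std Λ B T' := by
  intro x hx
  rw [mem_std] at hx ⊢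
  rw [← hx, er_er]
  exact DFunLike.congr_fun (er_congr Λ B fun v => ⟨fun h2 => h2.2, fun h2 => ⟨h v h2, h2⟩⟩) x

theorem vg_le_std {T : V → Prop} {v : V} (h : T v) : vg Λ B v ≤ std Λ B T := by
  rintro _ ⟨b, rfl⟩
  rw [mem_std, er_of Λ B h]

theorem std_le {T : V → Prop} {H : Subgroup (GrP Λ B)} (h : ∀ v, T v → vg Λ B v ≤ H) :
    std Λ B T ≤ H := by
  rintro _ ⟨y, rfl⟩
  refine gind (p := fun y => inc Λ B T y ∈ H) ?_ ?_ ?_ y
  · rw [map_one]
    exact one_mem _
  · rintro ⟨v, hv⟩ b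
    rw [inc_of]
    exact h v hv ⟨b, rfl⟩
  · intro x y hx hy
    rw [map_mul]
    exact mul_mem hx hy

theorem std_top {T : V → Prop} (h : ∀ v, T v) : std Λ B T = ⊤ := by
  rw [eq_top_iff, ← sup_vg]
  exact iSup_le fun v => vg_le_std Λ B (h v)

/-- conjugating into the intersection -/
theorem conj_std {T T' : V → Prop} {x c : GrP Λ B} (hx : x ∈ std Λ B T)
    (hc : c⁻¹ * x * c ∈ std Λ B T') :
    (er Λ B T c)⁻¹ * x * er Λ B T c ∈ std Λ B (fun v => T v ∧ T' v) := by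
  rw [mem_std] at hx hc
  have h1 : (er Λ B T c)⁻¹ * x * er Λ B T c = er Λ B T (c⁻¹ * x * c) := by
    rw [map_mul, map_mul, map_inv, hx]
  rw [h1, ← hc, er_er]
  exact er_mem Λ B _ _

/-- `T` is a minimal support of `x` up to conjugacy -/
def Mn (T : V → Prop) (x : GrP Λ B) : Prop := x ∈ std Λ B T ∧
  ∀ T' : V → Prop, (∀ v, T' v → T v) → (∃ v, T v ∧ ¬ T' v) → ∀ c, c⁻¹ * x * c ∉ std Λ B T'

theorem Mn_sub {T T' : V → Prop} {x c : GrP Λ B} (hx : Mn Λ B T x)
    (hc : c⁻¹ * x * c ∈ std Λ B T') (v : V) (hv : T v) : T' v := by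
  by_contra h
  exact hx.2 (fun v => T v ∧ T' v) (fun v h => h.1) ⟨v, hv, fun h2 => h h2.2⟩ _
    (conj_std Λ B hx.1 hc)

theorem exists_Mn [Finite V] (x : GrP Λ B) : ∃ (T : V → Prop) (c : GrP Λ B),
    Mn Λ B T (c⁻¹ * x * c) := by
  classical
  have h1 : ∃ n : ℕ, ∃ (T : V → Prop) (c : GrP Λ B), {v | T v}.ncard = n ∧
      c⁻¹ * x * c ∈ std Λ B T :=
    ⟨_, fun _ => True, 1, rfl, by rw [std_top Λ B (fun _ => trivial)]; exact Subgroup.mem_top _⟩
  obtain ⟨T, c, hT, hc⟩ := Nat.find_spec h1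
  refine ⟨T, c, hc, fun T' h2 ⟨v, hv, hv'⟩ d hd => ?_⟩
  have h3 : {v | T' v}.ncard < {v | T v}.ncard := by
    apply Set.ncard_lt_ncard _ (Set.toFinite _)
    refine ⟨fun u hu => h2 u hu, fun h4 => hv' (h4 hv)⟩
  rw [hT] at h3
  refine Nat.find_min h1 h3 ⟨T', c * d, rfl, ?_⟩
  have : (c * d)⁻¹ * x * (c * d) = d⁻¹ * (c⁻¹ * x * c) * d := by group
  rw [this]
  exact hd

/-- retractions and inclusions -/
theorem er_inc (p T : V → Prop) (y : GrPs Λ B p) : er Λ B T (inc Λ B p y) =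
    inc Λ B p (er (Λ.comap (Subtype.val : {v // p v} → V)) (fun w : {v // p v} => B w.1)
      (fun w => T w.1) y) := by
  have : (er Λ B T).comp (inc Λ B p) = (inc Λ B p).comp
      (er (Λ.comap (Subtype.val : {v // p v} → V)) (fun w : {v // p v} => B w.1)
      (fun w => T w.1)) := by
    apply ghom_ext
    rintro ⟨v, hv⟩ b
    rw [MonoidHom.comp_apply, MonoidHom.comp_apply, inc_of]
    by_cases h : T v
    · rw [er_of Λ B h, er_of (Λ.comap (Subtype.val : {v // p v} → V))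
        (fun w : {v // p v} => B w.1) (T := fun w => T w.1) (v := ⟨v, hv⟩) h, inc_of]
    · rw [er_of' Λ B h, er_of' (Λ.comap (Subtype.val : {v // p v} → V))
        (fun w : {v // p v} => B w.1) (T := fun w => T w.1) (v := ⟨v, hv⟩) h, map_one]
  exact DFunLike.congr_fun this y

theorem inc_mem_std {p T : V → Prop} {y : GrPs Λ B p} :
    inc Λ B p y ∈ std Λ B T ↔ y ∈ std (Λ.comap (Subtype.val : {v // p v} → V))
      (fun w : {v // p v} => B w.1) (fun w => T w.1) := by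
  rw [mem_std, mem_std, er_inc]
  exact ⟨fun h => inc_inj Λ B p h, fun h => by rw [h]⟩

theorem Mn_inc {p T : V → Prop} {y : GrPs Λ B p} (h : Mn Λ B T (inc Λ B p y)) :
    Mn (Λ.comap (Subtype.val : {v // p v} → V)) (fun w : {v // p v} => B w.1)
      (fun w => T w.1) y := by
  refine ⟨(inc_mem_std Λ B).1 h.1, ?_⟩
  rintro T' h1 ⟨⟨v, hv⟩, h2, h3⟩ c hc
  have h4 : (fun w : {v // p v} => (fun u => ∃ hu : p u, T' ⟨u, hu⟩) w.1) = T' := by
    funext w
    exact propext ⟨fun ⟨_, h⟩ => h, fun h => ⟨w.2, h⟩⟩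
  refine h.2 (fun u => ∃ hu : p u, T' ⟨u, hu⟩) (fun u ⟨hu, hu'⟩ => h1 ⟨u, hu⟩ hu')
    ⟨v, h2, fun ⟨_, h5⟩ => h3 h5⟩ (inc Λ B p c) ?_
  rw [← map_inv, ← map_mul, ← map_mul, inc_mem_std, h4]
  exact hc

end std

/-! ### centralizers -/

section cent

variable {V : Type} (Λ : SimpleGraph V) (B : V → Type) [∀ v, Group (B v)] (v : V)

/-- elements of the free product fixed by a permutation of the factors -/
theorem fixword {W X : Type} [Group W] [MulAction W X] (A : Type) [Group A] (w : W)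
    (b : CoprodI (fun _ : X => A)) (h : cpm A w b = b) :
    b ∈ ⨆ x : {x : X // w • x = x}, (ofx A X x.1).range := by
  have h1 := wd_cpm A w b
  rw [h] at h1
  have h2 : ∀ l ∈ wd b, w • l.1 = l.1 := by
    have h3 : (wd b).map (fun l => (⟨w • l.1, l.2⟩ : Σ _ : X, A)) = (wd b).map id := by
      rw [← h1, List.map_id]
    rw [List.map_eq_map_iff] at h3
    intro l hl
    exact congrArg Sigma.fst (h3 l hl)
  obtain ⟨z, hz, e⟩ := exists_word b
  rw [← hz]
  apply Subgroup.list_prod_mem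
  intro y hy
  rw [List.mem_map] at hy
  obtain ⟨l, hl, rfl⟩ := hy
  rw [← e] at hl
  exact Subgroup.mem_iSup_of_mem ⟨l.1, h2 l hl⟩ ⟨l.2, rfl⟩

theorem cent_dec {w : Wv Λ B v} {y : GrP Λ B}
    (hy : y * inc Λ B (fun u => u ≠ v) w = inc Λ B (fun u => u ≠ v) w * y) :
    (Phi Λ B v y).right * w = w * (Phi Λ B v y).right ∧
      cpm (B v) w (Phi Λ B v y).left = (Phi Λ B v y).left := by
  have h1 := congrArg (Phi Λ B v) hy
  rw [map_mul, map_mul, Phi_inc] at h1
  constructor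
  · have h2 := congrArg (fun d : Dv Λ B v => d.right) h1
    simpa using h2
  · have h2 := congrArg (fun d : Dv Λ B v => d.left) h1
    simp only [SemidirectProduct.mul_left, SemidirectProduct.left_inr, SemidirectProduct.right_inr,
      map_one, mul_one, one_mul] at h2
    exact h2.symm

theorem Phi_dec (y : GrP Λ B) : y = kap Λ B v (Phi Λ B v y).left *
    inc Λ B (fun u => u ≠ v) (Phi Λ B v y).right := by
  rw [← Psi_inl, ← Psi_inr, ← map_mul, SemidirectProduct.inl_left_mul_inr_right, Psi_Phi]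

theorem mk_fix {w g : Wv Λ B v} (h : w • (g : Xv Λ B v) = g) : g⁻¹ * w * g ∈ Lv Λ B v := by
  have h2 : ((w * g : Wv Λ B v) : Xv Λ B v) = g := h
  have h3 := QuotientGroup.eq.1 h2.symm
  rwa [← mul_assoc] at h3

/-- the centralizer of an element which is not conjugate into the link -/
theorem cent_case1 {w : Wv Λ B v} (hw : ∀ g : Wv Λ B v, g⁻¹ * w * g ∉ Lv Λ B v) {y : GrP Λ B}
    (hy : y * inc Λ B (fun u => u ≠ v) w = inc Λ B (fun u => u ≠ v) w * y) :
    ∃ u : Wv Λ B v, u * w = w * u ∧ y = inc Λ B (fun u => u ≠ v) u := by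
  obtain ⟨h1, h2⟩ := cent_dec Λ B v hy
  refine ⟨_, h1, ?_⟩
  have h3 := fixword (B v) w _ h2
  have h4 : (⨆ x : {x : Xv Λ B v // w • x = x}, (ofx (B v) (Xv Λ B v) x.1).range) = ⊥ := by
    have : IsEmpty {x : Xv Λ B v // w • x = x} := by
      refine ⟨fun x => ?_⟩
      obtain ⟨x, hx⟩ := x
      obtain ⟨g, rfl⟩ := QuotientGroup.mk_surjective x
      exact hw g (mk_fix Λ B v hx)
    exact iSup_of_empty _
  rw [h4, Subgroup.mem_bot] at h3
  have h5 := Phi_dec Λ B v y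
  rw [h3, map_one, one_mul] at h5
  exact h5

/-- the centralizer of an element of the link -/
theorem cent_case2 {w : Wv Λ B v} (hw : w ∈ Lv Λ B v) {y : GrP Λ B}
    (hy : y * inc Λ B (fun u => u ≠ v) w = inc Λ B (fun u => u ≠ v) w * y) :
    y ∈ (Subgroup.centralizer {w}).map (inc Λ B (fun u => u ≠ v)) ⊔ vg Λ B v := by
  obtain ⟨h1, h2⟩ := cent_dec Λ B v hy
  rw [Phi_dec Λ B v y]
  refine mul_mem ?_ (Subgroup.mem_sup_left ⟨_, Subgroup.mem_centralizer_singleton_iff.2 h1, rfl⟩)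
  have h3 := fixword (B v) w _ h2
  have h4 : (⨆ x : {x : Xv Λ B v // w • x = x}, (ofx (B v) (Xv Λ B v) x.1).range) ≤
      ((Subgroup.centralizer {w}).map (inc Λ B (fun u => u ≠ v)) ⊔ vg Λ B v).comap
        (kap Λ B v) := by
    refine iSup_le ?_
    rintro ⟨x, hx⟩ _ ⟨a, rfl⟩
    obtain ⟨g, rfl⟩ := QuotientGroup.mk_surjective x
    have h5 := mk_fix Λ B v hx
    -- the retraction of `W` to the link
    obtain ⟨r, hr⟩ : ∃ r : Wv Λ B v →* Wv Λ B v, r = (tL Λ B v).comp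
        ((ret Λ B (fun u => Λ.Adj v u)).comp (inc Λ B (fun u => u ≠ v))) := ⟨_, rfl⟩
    have hr1 : ∀ z, r z ∈ Lv Λ B v := fun z => by rw [hr]; exact ⟨_, rfl⟩
    have hr2 : ∀ z ∈ Lv Λ B v, r z = z := by
      rintro _ ⟨l, rfl⟩
      rw [hr, MonoidHom.comp_apply, MonoidHom.comp_apply, inc_tL, ret_inc]
    have h6 : w = r g * (g⁻¹ * w * g) * (r g)⁻¹ := by
      have h7 := hr2 _ h5
      rw [map_mul, map_mul, map_inv, hr2 w hw] at h7
      rw [← h7]
      group
    have h7 : (((g * (r g)⁻¹ : Wv Λ B v)) : Xv Λ B v) = (g : Xv Λ B v) := by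
      symm
      rw [QuotientGroup.eq, inv_mul_cancel_left]
      exact inv_mem (hr1 g)
    have h8 : (g * (r g)⁻¹) * w = w * (g * (r g)⁻¹) := by
      have h9 : (g * (r g)⁻¹) * w * (g * (r g)⁻¹)⁻¹ = w := by
        conv_lhs => rw [h6]
        group
      rwa [mul_inv_eq_iff_eq_mul] at h9
    show kap Λ B v (ofx (B v) _ (g : Xv Λ B v) a) ∈
      ((Subgroup.centralizer {w}).map (inc Λ B (fun u => u ≠ v)) ⊔ vg Λ B v : Subgroup (GrP Λ B))
    rw [← ofx_congr (B v) h7 a, kap_of']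
    have h9 : inc Λ B (fun u => u ≠ v) (g * (r g)⁻¹) ∈
        (Subgroup.centralizer {w}).map (inc Λ B (fun u => u ≠ v)) ⊔ vg Λ B v :=
      Subgroup.mem_sup_left ⟨_, Subgroup.mem_centralizer_singleton_iff.2 h8, rfl⟩
    exact mul_mem (mul_mem h9 (Subgroup.mem_sup_right ⟨a, rfl⟩)) (inv_mem h9)
  exact h4 h3

/-- membership in the link -/
theorem mem_Lv {w : Wv Λ B v} (h : inc Λ B (fun u => u ≠ v) w ∈ std Λ B (fun u => Λ.Adj v u)) :
    w ∈ Lv Λ B v := by
  obtain ⟨l, hl⟩ := h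
  refine ⟨l, inc_inj Λ B _ ?_⟩
  rw [inc_tL, hl]

theorem Lv_mem {w : Wv Λ B v} (h : w ∈ Lv Λ B v) :
    inc Λ B (fun u => u ≠ v) w ∈ std Λ B (fun u => Λ.Adj v u) := by
  obtain ⟨l, rfl⟩ := h
  rw [inc_tL]
  exact ⟨l, rfl⟩

end cent

/-- **centralizers of elements with minimal support `T`** -/
theorem cent_Mn (n : ℕ) : ∀ (V : Type) [Finite V] (Λ : SimpleGraph V) (B : V → Type)
    [∀ v, Group (B v)] (_ : Nat.card V ≤ n) (T : V → Prop) (x : GrP Λ B) (_ : Mn Λ B T x)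
    (y : GrP Λ B) (_ : y * x = x * y),
    y ∈ (Subgroup.centralizer {x} ⊓ std Λ B T) ⊔
      ⨆ v : {v // ∀ t, T t → Λ.Adj v t}, vg Λ B v.1 := by
  induction n with
  | zero =>
    intro V _ Λ B _ hn T x _ y _
    have hV : IsEmpty V := (Finite.card_eq_zero_iff).1 (Nat.le_zero.1 hn)
    rw [triv hV Λ B y]
    exact one_mem _
  | succ n ih =>
    intro V _ Λ B _ hn T x hx y hy
    by_cases hT : ∀ v, T v
    · refine Subgroup.mem_sup_left ⟨Subgroup.mem_centralizer_singleton_iff.2 hy, ?_⟩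
      rw [std_top Λ B hT]
      exact Subgroup.mem_top _
    push Not at hT
    obtain ⟨v, hv⟩ := hT
    have hcard : Nat.card {w // w ≠ v} ≤ n := by
      have := Finite.card_subtype_lt (p := fun w => w ≠ v) (x := v) (fun h => h rfl)
      omega
    have hTv : ∀ u, T u → u ≠ v := fun u hu h => hv (h ▸ hu)
    obtain ⟨w, rfl⟩ : x ∈ std Λ B (fun u => u ≠ v) := std_mono Λ B hTv hx.1
    -- the induction hypothesis
    have key : ∀ u : Wv Λ B v, u * w = w * u → inc Λ B (fun u => u ≠ v) u ∈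
        (Subgroup.centralizer {inc Λ B (fun u => u ≠ v) w} ⊓ std Λ B T) ⊔
          ⨆ v : {v // ∀ t, T t → Λ.Adj v t}, vg Λ B v.1 := by
      intro u hu
      have h1 := ih {w // w ≠ v} (Λ.comap (Subtype.val : {w // w ≠ v} → V))
        (fun w : {w // w ≠ v} => B w.1) hcard (fun w => T w.1) w (Mn_inc Λ B hx) u hu
      have h2 : ((Subgroup.centralizer {w} ⊓ std (Λ.comap (Subtype.val : {w // w ≠ v} → V))
          (fun w : {w // w ≠ v} => B w.1) (fun w => T w.1)) ⊔
          ⨆ u : {u : {w // w ≠ v} // ∀ t : {w // w ≠ v}, T t.1 →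
            (Λ.comap (Subtype.val : {w // w ≠ v} → V)).Adj u t},
            vg (Λ.comap (Subtype.val : {w // w ≠ v} → V)) (fun w : {w // w ≠ v} => B w.1) u.1) ≤
          ((Subgroup.centralizer {inc Λ B (fun u => u ≠ v) w} ⊓ std Λ B T) ⊔
            ⨆ v : {v // ∀ t, T t → Λ.Adj v t}, vg Λ B v.1).comap (inc Λ B (fun u => u ≠ v)) := by
        refine sup_le ?_ (iSup_le ?_)
        · rintro z ⟨hz1, hz2⟩
          have hz3 : z * w = w * z := Subgroup.mem_centralizer_singleton_iff.1 hz1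
          refine Subgroup.mem_sup_left ⟨Subgroup.mem_centralizer_singleton_iff.2 ?_,
            (inc_mem_std Λ B).2 hz2⟩
          rw [← map_mul, ← map_mul, hz3]
        · rintro ⟨⟨u, hu⟩, hu'⟩ _ ⟨b, rfl⟩
          refine Subgroup.mem_sup_right (Subgroup.mem_iSup_of_mem
            (⟨u, fun t ht => hu' ⟨t, hTv t ht⟩ ht⟩ : {v // ∀ t, T t → Λ.Adj v t}) ⟨b, ?_⟩)
          rw [inc_of]
      exact h2 h1
    by_cases hl : ∀ t, T t → Λ.Adj v t
    · have h1 : w ∈ Lv Λ B v := mem_Lv Λ B v (std_mono Λ B hl hx.1)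
      have h2 := cent_case2 Λ B v h1 hy
      have h3 : (Subgroup.centralizer {w}).map (inc Λ B (fun u => u ≠ v)) ⊔ vg Λ B v ≤
          (Subgroup.centralizer {inc Λ B (fun u => u ≠ v) w} ⊓ std Λ B T) ⊔
            ⨆ v : {v // ∀ t, T t → Λ.Adj v t}, vg Λ B v.1 := by
        refine sup_le ?_ ?_
        · rintro _ ⟨u, hu, rfl⟩
          exact key u (Subgroup.mem_centralizer_singleton_iff.1 hu)
        · exact (le_iSup (fun v : {v // ∀ t, T t → Λ.Adj v t} => vg Λ B v.1) ⟨v, hl⟩).trans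
            le_sup_right
      exact h3 h2
    · have h1 : ∀ g : Wv Λ B v, g⁻¹ * w * g ∉ Lv Λ B v := by
        intro g hg
        have h2 := Lv_mem Λ B v hg
        rw [map_mul, map_mul, map_inv] at h2
        exact hl (fun t ht => Mn_sub Λ B hx h2 t ht)
      obtain ⟨u, hu, rfl⟩ := cent_case1 Λ B v h1 hy
      exact key u hu

end Pool.Agent.T2H65.GP
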