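import Pool.Agent.T2H65.GP.Act

/-!
# Killing one vertex group
-/

set_option autoImplicit false

namespace Pool.Agent.T2H65.GP

open Pool.Agent.Y110.FJ Monoid
open Pool.Agent.R684.FP
open Pool.Agent.R941.FJ (C_equiv C_le C_cyc mem_sup_normal)

/-- `g` normalizes `A` -/
def Nz {G : Type} [Group G] (g : G) (A : Subgroup G) : Prop := ∀ x, x ∈ A ↔ g * x * g⁻¹ ∈ A

section Nz

variable {G : Type} [Group G] {A : Subgroup G}

theorem Nz.one : Nz (1 : G) A := fun x => by simp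

theorem Nz.mul {g h : G} (hg : Nz g A) (hh : Nz h A) : Nz (g * h) A := fun x => by
  rw [hh x, hg (h * x * h⁻¹)]
  have : g * (h * x * h⁻¹) * g⁻¹ = g * h * x * (g * h)⁻¹ := by group
  rw [this]

theorem Nz.inv {g : G} (hg : Nz g A) : Nz g⁻¹ A := fun x => by
  rw [hg (g⁻¹ * x * g⁻¹⁻¹)]
  have : g * (g⁻¹ * x * g⁻¹⁻¹) * g⁻¹ = x := by group
  rw [this]

theorem Nz.zpow {g : G} (hg : Nz g A) (n : ℤ) : Nz (g ^ n) A := by
  induction n with
  | zero => rw [zpow_zero]; exact Nz.one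
  | succ n ih => rw [zpow_add_one]; exact ih.mul hg
  | pred n ih => rw [zpow_sub_one]; exact ih.mul hg.inv

theorem Nz.map {H : Type} [Group H] (f : G →* H) {g : G} (hg : Nz g A) : Nz (f g) (A.map f) := by
  intro x
  constructor
  · rintro ⟨y, hy, rfl⟩
    exact ⟨g * y * g⁻¹, (hg y).1 hy, by rw [map_mul, map_mul, map_inv]⟩
  · rintro ⟨y, hy, hyx⟩
    refine ⟨g⁻¹ * y * g⁻¹⁻¹, (hg.inv y).1 hy, ?_⟩
    rw [map_mul, map_mul, map_inv, map_inv, map_inv, hyx]
    group

theorem Nz.comap {H : Type} [Group H] (f : H →* G) {g : H} (hg : Nz (f g) A) : Nz g (A.comap f) := by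
  intro x
  show f x ∈ A ↔ f (g * x * g⁻¹) ∈ A
  rw [map_mul, map_mul, map_inv]
  exact hg (f x)

theorem Nz.of_map {H : Type} [Group H] (f : G →* H) (hf : Function.Injective f) {g : G}
    (hg : Nz (f g) (A.map f)) : Nz g A := by
  have h1 := hg.comap f
  rwa [Subgroup.comap_map_eq_self_of_injective hf] at h1

/-- elements of `A ⟨g⟩` -/
theorem Nz.mem_sup {g : G} (hg : Nz g A) {x : G} :
    x ∈ A ⊔ Subgroup.zpowers g ↔ ∃ a ∈ A, ∃ n : ℤ, x = a * g ^ n := by
  constructor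
  · intro hx
    let T : Subgroup G :=
      { carrier := {x | ∃ a ∈ A, ∃ n : ℤ, x = a * g ^ n}
        one_mem' := ⟨1, one_mem _, 0, by simp⟩
        mul_mem' := by
          rintro _ _ ⟨a, ha, n, rfl⟩ ⟨b, hb, m, rfl⟩
          refine ⟨a * (g ^ n * b * (g ^ n)⁻¹), mul_mem ha ((hg.zpow n b).1 hb), n + m, ?_⟩
          rw [zpow_add]
          group
        inv_mem' := by
          rintro _ ⟨a, ha, n, rfl⟩
          refine ⟨g ^ (-n) * a⁻¹ * (g ^ (-n))⁻¹, (hg.zpow (-n) _).1 (inv_mem ha), -n, ?_⟩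
          rw [zpow_neg]
          group }
    have h1 : A ⊔ Subgroup.zpowers g ≤ T := by
      refine sup_le (fun a ha => ⟨a, ha, 0, by simp⟩) ?_
      rw [Subgroup.zpowers_le]
      exact ⟨1, one_mem _, 1, by simp⟩
    exact h1 hx
  · rintro ⟨a, ha, n, rfl⟩
    exact mul_mem (Subgroup.mem_sup_left ha)
      (Subgroup.mem_sup_right (zpow_mem (Subgroup.mem_zpowers g) n))

/-- finite index if a power is in the subgroup -/
theorem Nz.relIndex {g : G} (hg : Nz g A) {n : ℕ} (hn : 0 < n) (h : g ^ n ∈ A) :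
    A.relIndex (A ⊔ Subgroup.zpowers g) ≠ 0 := by
  have h1 : (A.subgroupOf (A ⊔ Subgroup.zpowers g)).FiniteIndex := by
    let T : Subgroup G := A ⊔ Subgroup.zpowers g
    let f : Fin n → T ⧸ A.subgroupOf T := fun i =>
      QuotientGroup.mk (⟨g ^ (i : ℕ), Subgroup.mem_sup_right (pow_mem (Subgroup.mem_zpowers g) _)⟩)
    have hf : Function.Surjective f := by
      intro y
      obtain ⟨⟨x, hx⟩, rfl⟩ := QuotientGroup.mk_surjective y
      have hx' : x⁻¹ ∈ T := inv_mem hx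
      obtain ⟨a, ha, m, hm⟩ := hg.mem_sup.1 hx'
      have hn' : (n : ℤ) ≠ 0 := by positivity
      have h2 : 0 ≤ (-m) % n := Int.emod_nonneg _ hn'
      have h3 : (-m) % n < n := Int.emod_lt_of_pos _ (by positivity)
      refine ⟨⟨((-m) % n).toNat, by omega⟩, ?_⟩
      rw [QuotientGroup.eq, Subgroup.mem_subgroupOf]
      show (g ^ ((-m) % n).toNat)⁻¹ * x ∈ A
      have h4 : x = g ^ (-m) * a⁻¹ := by
        have : x = (x⁻¹)⁻¹ := (inv_inv x).symm
        rw [this, hm, mul_inv_rev, zpow_neg]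
      have h5 : (g ^ ((-m) % n).toNat) = g ^ ((-m) % (n : ℤ)) := by
        rw [← zpow_natCast, Int.toNat_of_nonneg h2]
      rw [h5, h4, ← mul_assoc]
      refine mul_mem ?_ (inv_mem ha)
      have h6 : (g ^ ((-m) % (n : ℤ)))⁻¹ * g ^ (-m) = (g ^ n) ^ ((-m) / n) := by
        rw [← zpow_neg, ← zpow_add, ← zpow_natCast, ← zpow_mul]
        congr 1
        have := Int.emod_add_mul_ediv (-m) n
        omega
      rw [h6]
      exact zpow_mem h _
    have : Finite (T ⧸ A.subgroupOf T) := Finite.of_surjective f hf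
    exact Subgroup.finiteIndex_of_finite_quotient
  exact h1.index_ne_zero

end Nz

section step

variable {C : ∀ (G : Type) [Group G], Prop} {V : Type} (Λ : SimpleGraph V) (B : V → Type)
  [∀ v, Group (B v)]

/-- the image of a vertex group -/
noncomputable abbrev Av {G : Type} [Group G] (j : GrP Λ B →* G) (v : V) : Subgroup G :=
  (vg Λ B v).map j

/-- killing one vertex group -/
theorem step (hC : ClosedE C) (hF : FbC C) (v : V) {G Q : Type} [Group G] [Group Q]
    (j : GrP Λ B →* G) (hj : Function.Injective j)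
    (hv : ∀ g : G, ∃ p, Nz (j p * g) (Av Λ B j v))
    (hcyc : ∀ g : G, Nz g (Av Λ B j v) → C ↥(Av Λ B j v ⊔ Subgroup.zpowers g))
    (π : G →* Q) (hπ : Function.Surjective π)
    (hker : π.ker = (ret Λ B (fun w => w ≠ v)).ker.map j) (hQ : C Q) : C G := by
  have hN : (ret Λ B (fun w => w ≠ v)).ker.map j = (j.comp (kap Λ B v)).range := by
    rw [← kap_range, MonoidHom.range_comp]
  have hinj : Function.Injective (j.comp (kap Λ B v)) := hj.comp (kap_inj Λ B v)
  have hfp := isFreeProd_of_inj (j.comp (kap Λ B v)) hinj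
  rw [← hN, ← hker] at hfp
  have hmem : ∀ (x : Xv Λ B v) (y : G),
      y ∈ ((j.comp (kap Λ B v)).comp (ofx (B v) (Xv Λ B v) x)).range ↔
        (j (inc Λ B _ x.out))⁻¹ * y * j (inc Λ B _ x.out) ∈ Av Λ B j v := by
    intro x y
    constructor
    · rintro ⟨a, rfl⟩
      refine ⟨_, ⟨a, rfl⟩, ?_⟩
      show j (GrP.of Λ B v a) = _ * j (kap Λ B v (ofx (B v) (Xv Λ B v) x a)) * _
      rw [kap_of, map_mul, map_mul, map_inv]
      group
    · rintro ⟨_, ⟨a, rfl⟩, ha⟩
      refine ⟨a, ?_⟩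
      show j (kap Λ B v (ofx (B v) (Xv Λ B v) x a)) = y
      rw [kap_of, map_mul, map_mul, map_inv, ha]
      group
  have hmem' : ∀ (w : Wv Λ B v) (y : G),
      y ∈ ((j.comp (kap Λ B v)).comp (ofx (B v) (Xv Λ B v) (w : Xv Λ B v))).range ↔
        (j (inc Λ B _ w))⁻¹ * y * j (inc Λ B _ w) ∈ Av Λ B j v := by
    intro w y
    constructor
    · rintro ⟨a, rfl⟩
      refine ⟨_, ⟨a, rfl⟩, ?_⟩
      show j (GrP.of Λ B v a) = _ * j (kap Λ B v (ofx (B v) (Xv Λ B v) w a)) * _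
      rw [kap_of', map_mul, map_mul, map_inv]
      group
    · rintro ⟨_, ⟨a, rfl⟩, ha⟩
      refine ⟨a, ?_⟩
      show j (kap Λ B v (ofx (B v) (Xv Λ B v) w a)) = y
      rw [kap_of', map_mul, map_mul, map_inv, ha]
      group
  refine main_all hC hF (N := π.ker)
    (C_equiv hC.base (QuotientGroup.quotientKerEquivOfSurjective π hπ) hQ)
    (fun x => ((j.comp (kap Λ B v)).comp (ofx (B v) (Xv Λ B v) x)).range) Set.univ hfp
    (fun i hi => absurd (Set.mem_univ i) hi) ?_ ?_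
  · intro x _ g
    obtain ⟨p, hp⟩ := hv (g * j (inc Λ B _ x.out))
    refine ⟨(((ret Λ B (fun w => w ≠ v) p)⁻¹ : Wv Λ B v) : Xv Λ B v), Set.mem_univ _,
      j ((inc Λ B _ (ret Λ B (fun w => w ≠ v) p))⁻¹ * p), ?_, fun y => ?_⟩
    · rw [hker]
      refine ⟨_, ?_, rfl⟩
      show ret Λ B _ _ = 1
      rw [map_mul, map_inv, ret_inc, inv_mul_cancel]
    · show y ∈ ((j.comp (kap Λ B v)).comp (ofx (B v) (Xv Λ B v) x)).range ↔
        _ ∈ ((j.comp (kap Λ B v)).comp (ofx (B v) (Xv Λ B v) _)).range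
      rw [hmem, hmem', hp ((j (inc Λ B _ x.out))⁻¹ * y * j (inc Λ B _ x.out))]
      have h1 : j p * (g * j (inc Λ B _ x.out)) *
          ((j (inc Λ B _ x.out))⁻¹ * y * j (inc Λ B _ x.out)) *
            (j p * (g * j (inc Λ B _ x.out)))⁻¹ = j p * g * y * g⁻¹ * (j p)⁻¹ := by group
      rw [h1]
      have h2 : (j (inc Λ B _ (ret Λ B (fun w => w ≠ v) p)⁻¹))⁻¹ *
          (j ((inc Λ B _ (ret Λ B (fun w => w ≠ v) p))⁻¹ * p) * (g * y * g⁻¹) *
            (j ((inc Λ B _ (ret Λ B (fun w => w ≠ v) p))⁻¹ * p))⁻¹) *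
          j (inc Λ B _ (ret Λ B (fun w => w ≠ v) p)⁻¹) = j p * g * y * g⁻¹ * (j p)⁻¹ := by
        rw [map_mul, map_inv, map_inv]
        group
      rw [h2]
  · intro x _ g hg
    obtain ⟨c, hc⟩ : ∃ c, c = j (inc Λ B _ x.out) := ⟨_, rfl⟩
    have hBb : ((j.comp (kap Λ B v)).comp (ofx (B v) (Xv Λ B v) x)).range =
        (Av Λ B j v).map (MulAut.conj c).toMonoidHom := by
      ext y
      rw [hmem, ← hc]
      constructor
      · intro h
        refine ⟨_, h, ?_⟩
        show c * (c⁻¹ * y * c) * c⁻¹ = y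
        group
      · rintro ⟨a, ha, rfl⟩
        have : c⁻¹ * (MulAut.conj c).toMonoidHom a * c = a := by
          show c⁻¹ * (c * a * c⁻¹) * c = a
          group
        rw [this]
        exact ha
    have hg' : Nz g (((j.comp (kap Λ B v)).comp (ofx (B v) (Xv Λ B v) x)).range) := hg
    have h1 : Nz (c⁻¹ * g * c) (Av Λ B j v) := by
      rw [hBb] at hg'
      apply Nz.of_map (MulAut.conj c).toMonoidHom (MulAut.conj c).injective
      have : (MulAut.conj c).toMonoidHom (c⁻¹ * g * c) = g := by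
        show c * (c⁻¹ * g * c) * c⁻¹ = g
        group
      rw [this]
      exact hg'
    have h2 := hcyc _ h1
    have h3 : ((j.comp (kap Λ B v)).comp (ofx (B v) (Xv Λ B v) x)).range ⊔ Subgroup.zpowers g =
        (Av Λ B j v ⊔ Subgroup.zpowers (c⁻¹ * g * c)).map (MulAut.conj c).toMonoidHom := by
      rw [Subgroup.map_sup, ← hBb, MonoidHom.map_zpowers]
      congr 2
      show g = c * (c⁻¹ * g * c) * c⁻¹
      group
    show C ↥(((j.comp (kap Λ B v)).comp (ofx (B v) (Xv Λ B v) x)).range ⊔ Subgroup.zpowers g)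
    rw [h3]
    exact C_equiv hC.base ((Av Λ B j v ⊔ Subgroup.zpowers (c⁻¹ * g * c)).equivMapOfInjective
      (MulAut.conj c).toMonoidHom (MulAut.conj c).injective).symm h2

end step

end Pool.Agent.T2H65.GP
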