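import Pool.Agent.T2H65.GP.Min

/-!
# Automorphisms of right-angled Artin groups permute the normal closures of the classes of vertices
with the largest stars
-/

set_option autoImplicit false

namespace Pool.Agent.T2H65.GP

open Pool.Agent.Y110.FJ Monoid Multiplicative

/-- domination: the link of `t` is contained in the star of `u` -/
def dom {V : Type} (Λ : SimpleGraph V) (t u : V) : Prop := ∀ w, Λ.Adj t w → w = u ∨ Λ.Adj u w

/-- equivalence of vertices -/
def cls {V : Type} (Λ : SimpleGraph V) (t u : V) : Prop := dom Λ t u ∧ dom Λ u t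

section dom

variable {V : Type} {Λ : SimpleGraph V}

theorem dom_refl (t : V) : dom Λ t t := fun _ h => Or.inr h

theorem dom_trans {t u w : V} (h : dom Λ t u) (h' : dom Λ u w) : dom Λ t w := by
  intro z hz
  rcases h z hz with h1 | h1
  · subst h1
    rcases h' t hz.symm with h2 | h2
    · subst h2
      exact Or.inr hz
    · rcases h w h2.symm with h3 | h3
      · exact Or.inl h3.symm
      · exact Or.inr h3.symm
  · exact h' z h1

theorem cls_refl (t : V) : cls Λ t t := ⟨dom_refl t, dom_refl t⟩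

theorem cls_symm {t u : V} (h : cls Λ t u) : cls Λ u t := ⟨h.2, h.1⟩

theorem cls_trans {t u w : V} (h : cls Λ t u) (h' : cls Λ u w) : cls Λ t w :=
  ⟨dom_trans h.1 h'.1, dom_trans h'.2 h.2⟩

theorem star_eq [Finite V] (t : V) : star Λ t = {u | Λ.Adj t u}.ncard + 1 := by
  have h1 : {u | u = t ∨ Λ.Adj t u} = insert t {u | Λ.Adj t u} := by
    ext u
    rfl
  have h2 : t ∉ {u | Λ.Adj t u} := fun h => Λ.irrefl h
  rw [star, h1, Set.ncard_insert_of_notMem h2 (Set.toFinite _)]

theorem star_dom [Finite V] {t u : V} (h : dom Λ t u) : star Λ t ≤ star Λ u := by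
  by_cases hu : Λ.Adj t u
  · apply Set.ncard_le_ncard _ (Set.toFinite _)
    rintro w (hw | hw)
    · subst hw
      exact Or.inr hu.symm
    · exact h w hw
  · rw [star_eq, star_eq]
    have h1 : {w | Λ.Adj t w}.ncard ≤ {w | Λ.Adj u w}.ncard := by
      apply Set.ncard_le_ncard _ (Set.toFinite _)
      intro w hw
      rcases h w hw with h2 | h2
      · subst h2
        exact absurd hw hu
      · exact h2
    omega

end dom

theorem cent_conj {G : Type} [Group G] (c x : G) : Subgroup.centralizer {x} =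
    (Subgroup.centralizer {c⁻¹ * x * c}).map (MulAut.conj c).toMonoidHom := by
  apply le_antisymm
  · intro y hy
    have hy' : y * x = x * y := Subgroup.mem_centralizer_singleton_iff.1 hy
    refine ⟨c⁻¹ * y * c, Subgroup.mem_centralizer_singleton_iff.2 ?_, ?_⟩
    · have h1 : c⁻¹ * y * c * (c⁻¹ * x * c) = c⁻¹ * (y * x) * c := by group
      have h2 : c⁻¹ * x * c * (c⁻¹ * y * c) = c⁻¹ * (x * y) * c := by group
      rw [h1, h2, hy']
    · show c * (c⁻¹ * y * c) * c⁻¹ = y
      group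
  · rintro _ ⟨z, hz, rfl⟩
    have hz' : z * (c⁻¹ * x * c) = (c⁻¹ * x * c) * z := Subgroup.mem_centralizer_singleton_iff.1 hz
    refine Subgroup.mem_centralizer_singleton_iff.2 ?_
    show c * z * c⁻¹ * x = x * (c * z * c⁻¹)
    have h1 : c * z * c⁻¹ * x = c * (z * (c⁻¹ * x * c)) * c⁻¹ := by group
    have h2 : x * (c * z * c⁻¹) = c * ((c⁻¹ * x * c) * z) * c⁻¹ := by group
    rw [h1, h2, hz']

/-- **elements with large centralizers** -/
theorem top_main {V : Type} [Finite V] (Λ : SimpleGraph V) (B : V → Type) [∀ v, Group (B v)]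
    (hcyc : ∀ v, IsCyclic (B v)) (hTF : ∀ v, TF (B v)) (m : ℕ) (hm : ∀ v, star Λ v ≤ m)
    {x : GrP Λ B} (hx1 : x ≠ 1) (hx : ∀ k, Gb (Subgroup.centralizer {x}) k → m ≤ k) :
    ∃ (T : V → Prop) (c : GrP Λ B), (∃ t, T t) ∧ c⁻¹ * x * c ∈ std Λ B T ∧
      (∀ t, T t → star Λ t = m) ∧ ∀ t u, T t → T u → dom Λ t u := by
  obtain ⟨T, c, hT⟩ := exists_Mn Λ B x
  have hne : ∃ t, T t := by
    by_contra h
    push Not at h
    have h1 := std_bot Λ B h hT.1
    apply hx1
    have : x = c * (c⁻¹ * x * c) * c⁻¹ := by group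
    rw [this, h1]
    group
  obtain ⟨x', hx'⟩ : ∃ x', x' = c⁻¹ * x * c := ⟨_, rfl⟩
  rw [← hx'] at hT
  obtain ⟨x1, hx1'⟩ := hT.1
  have hT1 : Mn (Λ.comap (Subtype.val : {v // T v} → V)) (fun w : {v // T v} => B w.1)
      (fun _ => True) x1 := by
    have h1 := hT
    rw [← hx1'] at h1
    have h2 := Mn_inc Λ B h1
    have h3 : (fun w : {v // T v} => T w.1) = fun _ => True := by
      funext w
      exact propext ⟨fun _ => trivial, fun _ => w.2⟩
    rwa [h3] at h2
  obtain ⟨k1, h1, h1', h1''⟩ := cnt _ {v // T v} (Λ.comap (Subtype.val : {v // T v} → V))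
    (fun w : {v // T v} => B w.1) le_rfl (fun w => hcyc w.1) (fun w => hTF w.1)
    (by obtain ⟨t, ht⟩ := hne; exact ⟨⟨t, ht⟩⟩) x1 hT1
  -- the centralizer
  have hcent : Subgroup.centralizer {x'} = (Subgroup.centralizer {x1}).map (inc Λ B T) ⊔
      ⨆ v : {v // ∀ t, T t → Λ.Adj v t}, vg Λ B v.1 := by
    apply le_antisymm
    · intro y hy
      have h2 := cent_Mn _ V Λ B le_rfl T x' hT y (Subgroup.mem_centralizer_singleton_iff.1 hy)
      have h3 : (Subgroup.centralizer {x'} ⊓ std Λ B T) ≤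
          (Subgroup.centralizer {x1}).map (inc Λ B T) := by
        rintro z ⟨hz1, ⟨z1, rfl⟩⟩
        have hz' : inc Λ B T z1 * x' = x' * inc Λ B T z1 :=
          Subgroup.mem_centralizer_singleton_iff.1 hz1
        refine ⟨z1, Subgroup.mem_centralizer_singleton_iff.2 (inc_inj Λ B T ?_), rfl⟩
        rw [map_mul, map_mul, hx1']
        exact hz'
      exact (sup_le_sup_right h3 _) h2
    · refine sup_le ?_ (iSup_le ?_)
      · rintro _ ⟨z, hz, rfl⟩
        have hz' : z * x1 = x1 * z := Subgroup.mem_centralizer_singleton_iff.1 hz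
        refine Subgroup.mem_centralizer_singleton_iff.2 ?_
        rw [← hx1', ← map_mul, ← map_mul, hz']
      · rintro ⟨v, hv⟩ z hz
        refine Subgroup.mem_centralizer_singleton_iff.2 ?_
        have h2 : z ∈ std Λ B (fun u => u = v) := vg_le_std Λ B (T := fun u => u = v) rfl hz
        refine std_comm Λ B (T := fun u => u = v) (T' := T) ?_ h2 hT.1
        rintro t s rfl hs
        exact hv s hs
  have hgen : ∀ v, ∃ g : B v, vg Λ B v = Subgroup.zpowers (GrP.of Λ B v g) := by
    intro v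
    obtain ⟨g, hg⟩ := (hcyc v).exists_generator
    refine ⟨g, le_antisymm ?_ ?_⟩
    · rintro _ ⟨b, rfl⟩
      obtain ⟨n, hn⟩ := hg b
      exact ⟨n, by rw [← hn]; exact (map_zpow (GrP.of Λ B v) g n).symm⟩
    · rw [Subgroup.zpowers_le]
      exact ⟨g, rfl⟩
  choose g hg using hgen
  have hGb : Gb (Subgroup.centralizer {x'})
      (k1 + Nat.card {v // ∀ t, T t → Λ.Adj v t}) := by
    rw [hcent]
    refine (h1.map _).sup ?_
    have h2 := Gb_iSup (fun v : {v // ∀ t, T t → Λ.Adj v t} => GrP.of Λ B v.1 (g v.1))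
    have h3 : (⨆ v : {v // ∀ t, T t → Λ.Adj v t}, vg Λ B v.1) =
        ⨆ v : {v // ∀ t, T t → Λ.Adj v t}, Subgroup.zpowers (GrP.of Λ B v.1 (g v.1)) :=
      iSup_congr fun v => hg v.1
    rw [h3]
    exact h2
  have hGb' : Gb (Subgroup.centralizer {x}) (k1 + Nat.card {v // ∀ t, T t → Λ.Adj v t}) := by
    rw [cent_conj c x, ← hx']
    exact hGb.map _
  have hmk := hx _ hGb'
  -- counting
  have hsub : ∀ t : {v // T v}, ((Subtype.val : {v // T v} → V) ''
      {u | u = t ∨ (Λ.comap (Subtype.val : {v // T v} → V)).Adj t u}) ∪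
      {v | ∀ t, T t → Λ.Adj v t} ⊆ {u | u = t.1 ∨ Λ.Adj t.1 u} := by
    rintro t u (⟨w, hw, rfl⟩ | hu)
    · rcases hw with hw | hw
      · exact Or.inl (congrArg Subtype.val hw)
      · exact Or.inr hw
    · exact Or.inr (hu t.1 t.2).symm
  have hcard : ∀ t : {v // T v}, (((Subtype.val : {v // T v} → V) ''
      {u | u = t ∨ (Λ.comap (Subtype.val : {v // T v} → V)).Adj t u}) ∪
      {v | ∀ t, T t → Λ.Adj v t}).ncard =
      star (Λ.comap (Subtype.val : {v // T v} → V)) t + Nat.card {v // ∀ t, T t → Λ.Adj v t} := by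
    intro t
    rw [Set.ncard_union_eq ?_ (Set.toFinite _) (Set.toFinite _),
      Set.ncard_image_of_injective _ Subtype.val_injective]
    · rfl
    · rw [Set.disjoint_left]
      rintro _ ⟨w, _, rfl⟩ hw
      exact Λ.irrefl (hw w.1 w.2)
  have hle : ∀ t : {v // T v}, star (Λ.comap (Subtype.val : {v // T v} → V)) t +
      Nat.card {v // ∀ t, T t → Λ.Adj v t} ≤ star Λ t.1 := by
    intro t
    rw [← hcard]
    exact Set.ncard_le_ncard (hsub t) (Set.toFinite _)
  have hstar : ∀ t : {v // T v}, star Λ t.1 = m := by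
    intro t
    have h2 := hle t
    have h3 := h1' t
    have h4 := hm t.1
    omega
  have hk1 : ∀ t : {v // T v}, k1 = star (Λ.comap (Subtype.val : {v // T v} → V)) t := by
    intro t
    have h2 := hle t
    have h3 := h1' t
    have h4 := hm t.1
    omega
  have hset : ∀ t : {v // T v}, ((Subtype.val : {v // T v} → V) ''
      {u | u = t ∨ (Λ.comap (Subtype.val : {v // T v} → V)).Adj t u}) ∪
      {v | ∀ t, T t → Λ.Adj v t} = {u | u = t.1 ∨ Λ.Adj t.1 u} := by
    intro t
    apply Set.eq_of_subset_of_ncard_le (hsub t) _ (Set.toFinite _)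
    rw [hcard]
    have h2 := hstar t
    have h3 := hk1 t
    have h4 : star Λ t.1 = {u | u = t.1 ∨ Λ.Adj t.1 u}.ncard := rfl
    omega
  refine ⟨T, c, hne, ?_, fun t ht => hstar ⟨t, ht⟩, ?_⟩
  · rw [← hx']
    exact hT.1
  · intro t u ht hu w hw
    have h2 : w ∈ {u | u = (⟨t, ht⟩ : {v // T v}).1 ∨ Λ.Adj (⟨t, ht⟩ : {v // T v}).1 u} :=
      Or.inr hw
    rw [← hset] at h2
    rcases h2 with ⟨w', hw', rfl⟩ | h2
    · rcases h1'' hk1 with h3 | h3
      · by_cases h4 : w' = ⟨u, hu⟩
        · left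
          rw [h4]
        · exact Or.inr (h3 ⟨u, hu⟩ w' (fun h => h4 h.symm))
      · rcases hw' with hw' | hw'
        · rw [hw'] at hw
          exact absurd hw Λ.irrefl
        · exact absurd hw' (h3 _ _)
    · exact Or.inr (h2 u hu).symm

/-! ### the abelianization modulo two -/

section ab

variable {V : Type} [DecidableEq V] (Λ : SimpleGraph V) (B : V → Type) [∀ v, Group (B v)]
  (e : ∀ v, B v ≃* Multiplicative ℤ)

/-- the abelianization modulo two -/
noncomputable def qq : GrP Λ B →* Multiplicative (V → ZMod 2) :=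
  glift (fun v => (AddMonoidHom.toMultiplicative
    ((AddMonoidHom.single (fun _ : V => ZMod 2) v).comp (Int.castAddHom (ZMod 2)))).comp
      (e v).toMonoidHom) (fun _ _ _ _ _ => mul_comm _ _)

/-- the generators -/
noncomputable def ge (v : V) : GrP Λ B := GrP.of Λ B v ((e v).symm (ofAdd 1))

theorem qq_of (v : V) (b : B v) : toAdd (qq Λ B e (GrP.of Λ B v b)) =
    Pi.single v ((toAdd (e v b) : ℤ) : ZMod 2) := by
  rw [qq, glift_of]
  rfl

theorem qq_ge (v : V) : toAdd (qq Λ B e (ge Λ B e v)) = Pi.single v 1 := by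
  rw [ge, qq_of, MulEquiv.apply_symm_apply, toAdd_ofAdd, Int.cast_one]

omit [DecidableEq V] in
theorem vg_ge (v : V) : vg Λ B v = Subgroup.zpowers (ge Λ B e v) := by
  apply le_antisymm
  · rintro _ ⟨b, rfl⟩
    refine ⟨toAdd (e v b), ?_⟩
    show (ge Λ B e v) ^ (toAdd (e v b)) = GrP.of Λ B v b
    rw [ge, ← map_zpow, ← map_zpow]
    congr 1
    rw [MulEquiv.symm_apply_eq]
    apply toAdd.injective
    rw [toAdd_zpow, toAdd_ofAdd]
    simp
  · rw [Subgroup.zpowers_le]
    exact ⟨_, rfl⟩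

theorem supp_std {S : V → Prop} {y : GrP Λ B} (hy : y ∈ std Λ B S) {u : V} (hu : ¬ S u) :
    toAdd (qq Λ B e y) u = 0 := by
  let f : GrP Λ B →* Multiplicative (ZMod 2) :=
    (AddMonoidHom.toMultiplicative (Pi.evalAddMonoidHom (fun _ : V => ZMod 2) u)).comp
      (qq Λ B e)
  have h1 : std Λ B S ≤ f.ker := by
    refine std_le Λ B fun v hv => ?_
    rintro _ ⟨b, rfl⟩
    show ofAdd (toAdd (qq Λ B e (GrP.of Λ B v b)) u) = 1
    rw [qq_of, Pi.single_eq_of_ne (fun h : u = v => hu (by rw [h]; exact hv))]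
    rfl
  exact ofAdd_eq_one.1 (h1 hy)

theorem qq_conj (c x : GrP Λ B) : qq Λ B e (c⁻¹ * x * c) = qq Λ B e x := by
  rw [map_mul, map_mul, map_inv, mul_comm, mul_inv_cancel_left]

theorem supp_NCl {S : V → Prop} {y : GrP Λ B} (hy : y ∈ NCl Λ B S) {u : V} (hu : ¬ S u) :
    toAdd (qq Λ B e y) u = 0 := by
  let f : GrP Λ B →* Multiplicative (ZMod 2) :=
    (AddMonoidHom.toMultiplicative (Pi.evalAddMonoidHom (fun _ : V => ZMod 2) u)).comp
      (qq Λ B e)
  have h1 : NCl Λ B S ≤ f.ker := by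
    apply Subgroup.normalClosure_le_normal
    rintro _ ⟨v, hv, b, rfl⟩
    show ofAdd (toAdd (qq Λ B e (GrP.of Λ B v b)) u) = 1
    rw [qq_of, Pi.single_eq_of_ne (fun h : u = v => hu (by rw [h]; exact hv))]
    rfl
  exact ofAdd_eq_one.1 (h1 hy)

/-- homomorphisms to the group with two elements -/
theorem hom_two [Fintype V] (f : GrP Λ B →* Multiplicative (ZMod 2)) (x : GrP Λ B) :
    toAdd (f x) = ∑ v, toAdd (f (ge Λ B e v)) * toAdd (qq Λ B e x) v := by
  let f' : GrP Λ B →* Multiplicative (ZMod 2) :=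
    { toFun := fun x => ofAdd (∑ v, toAdd (f (ge Λ B e v)) * toAdd (qq Λ B e x) v)
      map_one' := by simp
      map_mul' := fun x y => by
        rw [← ofAdd_add, ← Finset.sum_add_distrib]
        congr 1
        apply Finset.sum_congr rfl
        intro v _
        rw [map_mul, toAdd_mul, Pi.add_apply, mul_add] }
  have h1 : f = f' := by
    apply ghom_ext
    intro v b
    have h2 : GrP.of Λ B v b = (ge Λ B e v) ^ (toAdd (e v b)) := by
      rw [ge, ← map_zpow, ← map_zpow]
      congr 1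
      symm
      rw [MulEquiv.symm_apply_eq]
      apply toAdd.injective
      rw [toAdd_zpow, toAdd_ofAdd]
      simp
    rw [h2, map_zpow, map_zpow]
    congr 1
    show f (ge Λ B e v) = ofAdd (∑ u, toAdd (f (ge Λ B e u)) * toAdd (qq Λ B e (ge Λ B e v)) u)
    rw [qq_ge, Finset.sum_eq_single v]
    · rw [Pi.single_eq_same, mul_one]
      rfl
    · intro u _ hu
      rw [Pi.single_eq_of_ne hu, mul_zero]
    · intro h
      exact absurd (Finset.mem_univ v) h
  conv_lhs => rw [h1]
  rfl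

theorem nz [Fintype V] (φ : GrP Λ B ≃* GrP Λ B) (v : V) :
    ∃ u, toAdd (qq Λ B e (φ (ge Λ B e v))) u ≠ 0 := by
  by_contra h
  push Not at h
  let f : GrP Λ B →* Multiplicative (ZMod 2) :=
    ((AddMonoidHom.toMultiplicative (Pi.evalAddMonoidHom (fun _ : V => ZMod 2) v)).comp
      (qq Λ B e)).comp φ.symm.toMonoidHom
  have h1 := hom_two Λ B e f (φ (ge Λ B e v))
  rw [Finset.sum_eq_zero (fun u _ => by rw [h u, mul_zero])] at h1
  have h2 : f (φ (ge Λ B e v)) = ofAdd (toAdd (qq Λ B e (ge Λ B e v)) v) := by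
    show ofAdd (toAdd (qq Λ B e (φ.symm (φ (ge Λ B e v)))) v) = _
    rw [MulEquiv.symm_apply_apply]
  rw [h2, qq_ge, toAdd_ofAdd, Pi.single_eq_same] at h1
  exact one_ne_zero h1

/-- lower bound for the number of generators -/
theorem lin_lb [Fintype V] {H : Subgroup (GrP Λ B)} {k : ℕ} (hH : Gb H k) {ι : Type} [Fintype ι]
    (f : ι → GrP Λ B) (hf : ∀ i, f i ∈ H)
    (hli : LinearIndependent (ZMod 2) (fun i => toAdd (qq Λ B e (f i)))) : Fintype.card ι ≤ k := by
  obtain ⟨s, hs, hs', rfl⟩ := hH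
  have hspan : ∀ x ∈ Subgroup.closure s, toAdd (qq Λ B e x) ∈
      Submodule.span (ZMod 2) ((fun x => toAdd (qq Λ B e x)) '' s) := by
    intro x hx
    induction hx using Subgroup.closure_induction with
    | mem x hx => exact Submodule.subset_span ⟨x, hx, rfl⟩
    | one =>
      rw [map_one]
      exact Submodule.zero_mem _
    | mul x y _ _ hx hy =>
      rw [map_mul, toAdd_mul]
      exact Submodule.add_mem _ hx hy
    | inv x _ hx =>
      rw [map_inv, toAdd_inv]
      exact Submodule.neg_mem _ hx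
  have h1 : LinearIndependent (ZMod 2) (fun i => (⟨toAdd (qq Λ B e (f i)), hspan _ (hf i)⟩ :
      Submodule.span (ZMod 2) ((fun x => toAdd (qq Λ B e x)) '' s))) := by
    apply LinearIndependent.of_comp (Submodule.subtype _)
    exact hli
  have h2 := h1.fintype_card_le_finrank
  have hfin : ((fun x => toAdd (qq Λ B e x)) '' s).Finite := hs.image _
  have h3 : Module.finrank (ZMod 2) (Submodule.span (ZMod 2)
      ((fun x => toAdd (qq Λ B e x)) '' s)) ≤ ((fun x => toAdd (qq Λ B e x)) '' s).ncard := by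
    have := hfin.fintype
    rw [Set.ncard_eq_toFinset_card']
    exact finrank_span_le_card _
  have h4 := Set.ncard_image_le (f := fun x => toAdd (qq Λ B e x)) hs
  omega

/-- independence -/
theorem indep [Fintype V] (v : V) (c : V → ZMod 2) (hc : c v = 0) (S : V → Prop) (hS : S v) :
    LinearIndependent (ZMod 2) (fun u : {u // S u} => (Pi.single u.1 1 : V → ZMod 2) +
      if u.1 = v then c else 0) := by
  classical
  rw [Fintype.linearIndependent_iff]
  intro g hg
  have h1 : ∀ w, ∑ u : {u // S u}, g u * ((Pi.single u.1 1 : V → ZMod 2) w +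
      (if u.1 = v then c else 0) w) = 0 := by
    intro w
    have h2 := congrFun hg w
    rw [Finset.sum_apply] at h2
    exact h2
  have hv : g ⟨v, hS⟩ = 0 := by
    have h2 := h1 v
    rw [Finset.sum_eq_single ⟨v, hS⟩] at h2
    · rw [Pi.single_eq_same, if_pos rfl, hc, add_zero, mul_one] at h2
      exact h2
    · intro u _ hu
      have h3 : u.1 ≠ v := fun h => hu (Subtype.ext h)
      rw [Pi.single_eq_of_ne h3.symm, if_neg h3, Pi.zero_apply, add_zero, mul_zero]
    · intro h
      exact absurd (Finset.mem_univ _) h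
  intro w
  by_cases hw : w.1 = v
  · have : w = ⟨v, hS⟩ := Subtype.ext hw
    rw [this, hv]
  · have h2 := h1 w.1
    rw [Finset.sum_eq_single w] at h2
    · rw [Pi.single_eq_same, if_neg hw, Pi.zero_apply, add_zero, mul_one] at h2
      exact h2
    · intro u _ hu
      have h3 : u.1 ≠ w.1 := fun h => hu (Subtype.ext h)
      by_cases h4 : u.1 = v
      · have h5 : u = ⟨v, hS⟩ := Subtype.ext h4
        rw [h5, hv, zero_mul]
      · rw [Pi.single_eq_of_ne h3.symm, if_neg h4, Pi.zero_apply, add_zero, mul_zero]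
    · intro h
      exact absurd (Finset.mem_univ _) h

theorem ge_comm {v u : V} (h : Λ.Adj v u) : ge Λ B e v * ge Λ B e u = ge Λ B e u * ge Λ B e v :=
  of_comm h _ _

theorem lb_one [Fintype V] (v : V) {k : ℕ} (h : Gb (Subgroup.centralizer {ge Λ B e v}) k) :
    star Λ v ≤ k := by
  classical
  have h1 := lin_lb Λ B e h (ι := {u // u = v ∨ Λ.Adj v u}) (fun u => ge Λ B e u.1) (by
    rintro ⟨u, rfl | hu⟩
    · exact Subgroup.mem_centralizer_singleton_iff.2 rfl
    · exact Subgroup.mem_centralizer_singleton_iff.2 (ge_comm Λ B e hu.symm)) (by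
    have h2 := indep v 0 rfl (fun u => u = v ∨ Λ.Adj v u) (Or.inl rfl)
    have h3 : (fun u : {u // u = v ∨ Λ.Adj v u} => toAdd (qq Λ B e (ge Λ B e u.1))) =
        fun u : {u // u = v ∨ Λ.Adj v u} => (Pi.single u.1 1 : V → ZMod 2) +
          if u.1 = v then 0 else 0 := by
      funext u
      rw [qq_ge, ite_self, add_zero]
    rw [h3]
    exact h2)
  rw [← Nat.card_eq_fintype_card] at h1
  exact h1

theorem lb_two [Fintype V] {v v' : V} (hne : v ≠ v') (hd : dom Λ v v') {k : ℕ}
    (h : Gb (Subgroup.centralizer {ge Λ B e v * ge Λ B e v'}) k) : star Λ v ≤ k := by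
  classical
  have h1 := lin_lb Λ B e h (ι := {u // u = v ∨ Λ.Adj v u})
    (fun u => if u.1 = v then ge Λ B e v * ge Λ B e v' else ge Λ B e u.1) (by
    rintro ⟨u, hu⟩
    by_cases huv : u = v
    · rw [if_pos huv]
      exact Subgroup.mem_centralizer_singleton_iff.2 rfl
    · rw [if_neg huv]
      have hu' := hu.resolve_left huv
      refine Subgroup.mem_centralizer_singleton_iff.2 ?_
      have h2 : ge Λ B e u * ge Λ B e v' = ge Λ B e v' * ge Λ B e u := by
        rcases hd u hu' with h3 | h3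
        · rw [h3]
        · exact ge_comm Λ B e h3.symm
      have h3 := ge_comm Λ B e hu'
      show ge Λ B e u * (ge Λ B e v * ge Λ B e v') = ge Λ B e v * ge Λ B e v' * ge Λ B e u
      rw [← mul_assoc, ← h3, mul_assoc, h2, mul_assoc]) (by
    have h2 := indep v (Pi.single v' 1) (Pi.single_eq_of_ne hne 1)
      (fun u => u = v ∨ Λ.Adj v u) (Or.inl rfl)
    have h3 : (fun u : {u // u = v ∨ Λ.Adj v u} => toAdd (qq Λ B e
        (if u.1 = v then ge Λ B e v * ge Λ B e v' else ge Λ B e u.1))) =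
        fun u : {u // u = v ∨ Λ.Adj v u} => (Pi.single u.1 1 : V → ZMod 2) +
          if u.1 = v then Pi.single v' 1 else 0 := by
      funext u
      by_cases huv : u.1 = v
      · rw [if_pos huv, if_pos huv, map_mul, toAdd_mul, qq_ge, qq_ge, huv]
      · rw [if_neg huv, if_neg huv, qq_ge, add_zero]
    rw [h3]
    exact h2)
  rw [← Nat.card_eq_fintype_card] at h1
  exact h1

end ab

theorem cent_equiv {G : Type} [Group G] (φ : G ≃* G) (x : G) : Subgroup.centralizer {x} =
    (Subgroup.centralizer {φ x}).map φ.symm.toMonoidHom := by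
  apply le_antisymm
  · intro y hy
    have hy' : y * x = x * y := Subgroup.mem_centralizer_singleton_iff.1 hy
    refine ⟨φ y, Subgroup.mem_centralizer_singleton_iff.2 ?_, φ.symm_apply_apply y⟩
    rw [← map_mul, hy', map_mul]
  · rintro _ ⟨z, hz, rfl⟩
    have hz' : z * φ x = φ x * z := Subgroup.mem_centralizer_singleton_iff.1 hz
    refine Subgroup.mem_centralizer_singleton_iff.2 ?_
    show φ.symm z * x = x * φ.symm z
    have h1 := congrArg φ.symm hz'
    rw [map_mul, map_mul, MulEquiv.symm_apply_apply] at h1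
    exact h1

section perm

variable {V : Type} [Finite V] (Λ : SimpleGraph V) (B : V → Type) [∀ v, Group (B v)]
  (e : ∀ v, B v ≃* Multiplicative ℤ)

include e in
theorem perm_le (v0 : V) (hmax : ∀ v, star Λ v ≤ star Λ v0) (φ : GrP Λ B ≃* GrP Λ B) :
    ∃ t, star Λ t = star Λ v0 ∧
      (NCl Λ B (cls Λ v0)).map φ.toMonoidHom ≤ NCl Λ B (cls Λ t) := by
  classical
  have := Fintype.ofFinite V
  have hcyc : ∀ v, IsCyclic (B v) := fun v =>
    isCyclic_of_surjective (e v).symm (e v).symm.surjective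
  have hTF : ∀ v, TF (B v) := by
    intro v g hg
    have h1 := MonoidHom.isOfFinOrder (e v).toMonoidHom hg
    obtain ⟨n, hn, h2⟩ := isOfFinOrder_iff_pow_eq_one.1 h1
    have h3 : n • toAdd (e v g) = 0 := by
      have := congrArg toAdd h2
      rw [toAdd_pow] at this
      exact this
    have h4 : toAdd (e v g) = 0 := by
      rw [nsmul_eq_mul] at h3
      rcases mul_eq_zero.1 h3 with h5 | h5
      · exact absurd (by exact_mod_cast h5) hn.ne'
      · exact h5
    have h5 : e v g = 1 := toAdd.injective h4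
    exact (MulEquiv.map_eq_one_iff (e v)).1 h5
  -- elements with large centralizers
  have key : ∀ x : GrP Λ B, x ≠ 1 → (∀ k, Gb (Subgroup.centralizer {x}) k → star Λ v0 ≤ k) →
      ∃ t c, star Λ t = star Λ v0 ∧ c⁻¹ * φ x * c ∈ std Λ B (cls Λ t) := by
    intro x hx1 hx
    obtain ⟨T, c, ⟨t, ht⟩, h1, h2, h3⟩ := top_main Λ B hcyc hTF (star Λ v0) hmax
      (x := φ x) (fun h => hx1 ((MulEquiv.map_eq_one_iff φ).1 h)) (by
        intro k hk
        apply hx
        rw [cent_equiv φ x]
        exact hk.map _)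
    exact ⟨t, c, h2 t ht, std_mono Λ B (fun u hu => ⟨h3 t u ht hu, h3 u t hu ht⟩) h1⟩
  have hge1 : ∀ v, ge Λ B e v ≠ 1 := by
    intro v h
    have h1 := qq_ge Λ B e v
    rw [h, map_one] at h1
    have h2 := congrFun h1 v
    rw [Pi.single_eq_same] at h2
    exact zero_ne_one h2
  have hstar : ∀ v, cls Λ v0 v → star Λ v = star Λ v0 := fun v hv =>
    le_antisymm (hmax v) (star_dom hv.1)
  have hone : ∀ v, cls Λ v0 v → ∃ t c, star Λ t = star Λ v0 ∧
      c⁻¹ * φ (ge Λ B e v) * c ∈ std Λ B (cls Λ t) := by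
    intro v hv
    refine key _ (hge1 v) fun k hk => ?_
    rw [← hstar v hv]
    exact lb_one Λ B e v hk
  obtain ⟨t1, c1, ht1, hc1⟩ := hone v0 (cls_refl v0)
  have hsupp : ∀ (t : V) (c x : GrP Λ B), c⁻¹ * x * c ∈ std Λ B (cls Λ t) → ∀ u,
      toAdd (qq Λ B e x) u ≠ 0 → cls Λ t u := by
    intro t c x h u hu
    by_contra hn
    apply hu
    rw [← qq_conj Λ B e c x]
    exact supp_std Λ B e h hn
  have hall : ∀ v, cls Λ v0 v → ∃ c, c⁻¹ * φ (ge Λ B e v) * c ∈ std Λ B (cls Λ t1) := by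
    intro v hv
    obtain ⟨t2, c2, ht2, hc2⟩ := hone v hv
    have h12 : cls Λ t1 t2 := by
      by_cases hvv : v0 = v
      · subst hvv
        obtain ⟨u, hu⟩ := nz Λ B e φ v0
        exact cls_trans (hsupp _ _ _ hc1 u hu) (cls_symm (hsupp _ _ _ hc2 u hu))
      · have hx1 : ge Λ B e v0 * ge Λ B e v ≠ 1 := by
          intro h
          have h1 : toAdd (qq Λ B e (ge Λ B e v0 * ge Λ B e v)) = 0 := by rw [h, map_one]; rfl
          rw [map_mul, toAdd_mul, qq_ge, qq_ge] at h1
          have h2 := congrFun h1 v0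
          rw [Pi.add_apply, Pi.single_eq_same, Pi.single_eq_of_ne hvv, add_zero] at h2
          exact one_ne_zero h2
        obtain ⟨t3, c3, ht3, hc3⟩ := key _ hx1 fun k hk => lb_two Λ B e hvv hv.1 hk
        obtain ⟨u1, hu1⟩ := nz Λ B e φ v0
        obtain ⟨u2, hu2⟩ := nz Λ B e φ v
        have h1 := hsupp _ _ _ hc1 u1 hu1
        have h2 := hsupp _ _ _ hc2 u2 hu2
        by_contra hcon
        have h3 : toAdd (qq Λ B e (φ (ge Λ B e v))) u1 = 0 := by
          by_contra h
          exact hcon (cls_trans h1 (cls_symm (hsupp _ _ _ hc2 u1 h)))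
        have h4 : toAdd (qq Λ B e (φ (ge Λ B e v0))) u2 = 0 := by
          by_contra h
          exact hcon (cls_trans (hsupp _ _ _ hc1 u2 h) (cls_symm h2))
        have h5 := hsupp _ _ _ hc3 u1 (by
          rw [map_mul, map_mul, toAdd_mul, Pi.add_apply, h3, add_zero]
          exact hu1)
        have h6 := hsupp _ _ _ hc3 u2 (by
          rw [map_mul, map_mul, toAdd_mul, Pi.add_apply, h4, zero_add]
          exact hu2)
        exact hcon (cls_trans (cls_trans h1 (cls_symm h5)) (cls_trans h6 (cls_symm h2)))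
    exact ⟨c2, std_mono Λ B (fun u hu => cls_trans h12 hu) hc2⟩
  refine ⟨t1, ht1, ?_⟩
  rw [Subgroup.map_le_iff_le_comap]
  have hn : ((NCl Λ B (cls Λ t1)).comap φ.toMonoidHom).Normal :=
    Subgroup.Normal.comap inferInstance _
  apply Subgroup.normalClosure_le_normal
  rintro x ⟨v, hv, hx⟩
  rw [vg_ge Λ B e v] at hx
  have h1 : ge Λ B e v ∈ (NCl Λ B (cls Λ t1)).comap φ.toMonoidHom := by
    obtain ⟨c, hc⟩ := hall v hv
    have h2 : std Λ B (cls Λ t1) ≤ NCl Λ B (cls Λ t1) :=
      std_le Λ B fun u hu y hy => Subgroup.subset_normalClosure ⟨u, hu, hy⟩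
    have h3 := h2 hc
    have hnor : (NCl Λ B (cls Λ t1)).Normal := inferInstance
    have h4 := hnor.conj_mem _ h3 c
    show φ (ge Λ B e v) ∈ NCl Λ B (cls Λ t1)
    have h5 : c * (c⁻¹ * φ (ge Λ B e v) * c) * c⁻¹ = φ (ge Λ B e v) := by group
    rwa [h5] at h4
  exact (Subgroup.zpowers_le.2 h1) hx

include e in
/-- **automorphisms permute the normal closures of the classes with the largest stars** -/
theorem perm_eq (v0 : V) (hmax : ∀ v, star Λ v ≤ star Λ v0) (φ : GrP Λ B ≃* GrP Λ B) :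
    ∃ t, (NCl Λ B (cls Λ v0)).map φ.toMonoidHom = NCl Λ B (cls Λ t) := by
  classical
  have := Fintype.ofFinite V
  obtain ⟨t1, ht1, h1⟩ := perm_le Λ B e v0 hmax φ
  obtain ⟨t2, ht2, h2⟩ := perm_le Λ B e t1 (fun v => by rw [ht1]; exact hmax v) φ.symm
  have h3 : NCl Λ B (cls Λ v0) ≤ NCl Λ B (cls Λ t2) := by
    intro x hx
    have h4 := h2 ⟨φ x, h1 ⟨x, hx, rfl⟩, rfl⟩
    have h5 : φ.symm.toMonoidHom (φ x) = x := φ.symm_apply_apply x
    rwa [h5] at h4
  have h4 : cls Λ t2 v0 := by
    by_contra hn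
    have h5 : ge Λ B e v0 ∈ NCl Λ B (cls Λ t2) :=
      h3 (Subgroup.subset_normalClosure ⟨v0, cls_refl v0, _, rfl⟩)
    have h6 := supp_NCl Λ B e h5 hn
    rw [qq_ge, Pi.single_eq_same] at h6
    exact one_ne_zero h6
  have h5 : cls Λ t2 = cls Λ v0 := by
    funext u
    exact propext ⟨fun h => cls_trans (cls_symm h4) h, fun h => cls_trans h4 h⟩
  refine ⟨t1, le_antisymm h1 ?_⟩
  intro y hy
  have h6 := h2 ⟨y, hy, rfl⟩
  rw [h5] at h6
  exact ⟨_, h6, φ.apply_symm_apply y⟩

end perm

end Pool.Agent.T2H65.GP
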